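import Mathlib

set_option autoImplicit false

/-!
# Hierarchical structure enforced by local rules

One-sided rules (`Half`) for a family of lines: a line `x` sees the positions `p`, the symbol
`c x p` is (ideally) the level of `x` minus the level of `p`, clamped to `[-2, 2]`.
-/

namespace Pool.Agent.H51

/-- The value of a state. -/
def val (t : ZMod 8) : ℤ :=
  if t = 0 then -2 else if t = 4 then -1 else if t = 2 ∨ t = 6 then 0 else 1

/-- One-sided local rules. `z x` says that the line `x` has level at least `1`, `d p` is the digit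
bit of position `p`. -/
structure Half (z d : ℤ → Bool) (t : ℤ → ℤ → ZMod 8) (c : ℤ → ℤ → ℤ) : Prop where
  h0 : ∀ x p, z x = false → t x (p + 1) = t x p + 2 ∧ c x p = val (t x p) ∧
    (t x p = 0 ∨ t x p = 2 ∨ t x p = 4 ∨ t x p = 6)
  h1 : ∀ x p, z x = true → (c x (p + 1) = 2 ∧ t x (p + 1) = t x p) ∨
    (c x (p + 1) = val (t x (p + 1)) ∧ t x (p + 1) = t x p + 1)
  h2 : ∀ x p, c x p = 0 → (t x p = 2 ∧ d p = true) ∨ (t x p = 6 ∧ d p = false)

/-- Level at least `k`. -/
def Xs (z d : ℤ → Bool) : ℕ → ℤ → Prop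
  | 0, _ => True
  | 1, x => z x = true
  | (k + 2), x => Xs z d (k + 1) x ∧ d (x - 2 ^ k) = false

/-- Level exactly `k`. -/
def Es (z d : ℤ → Bool) (k : ℕ) (x : ℤ) : Prop := Xs z d k x ∧ ¬ Xs z d (k + 1) x

theorem Xs_succ (z d : ℤ → Bool) (k : ℕ) (x : ℤ) (h : Xs z d (k + 1) x) : Xs z d k x := by
  cases k with
  | zero => trivial
  | succ k => exact h.1

theorem Xs_anti (z d : ℤ → Bool) {j k : ℕ} (hjk : j ≤ k) (x : ℤ) (h : Xs z d k x) :
    Xs z d j x := by
  induction k, hjk using Nat.le_induction with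
  | base => exact h
  | succ k _ ih => exact ih (Xs_succ z d k x h)

theorem exists_Es_of_not_Xs (z d : ℤ → Bool) (k : ℕ) (x : ℤ) (h : ¬ Xs z d k x) :
    ∃ j, j < k ∧ Es z d j x := by
  induction k with
  | zero => exact absurd trivial h
  | succ k ih =>
    by_cases hk : Xs z d k x
    · exact ⟨k, Nat.lt_succ_self k, hk, h⟩
    · obtain ⟨j, hj, he⟩ := ih hk
      exact ⟨j, by omega, he⟩

/-- Structure up to level `k`. -/
structure Lvl (zx dx zu du : ℤ → Bool) (c : ℤ → ℤ → ℤ) (k : ℕ) : Prop where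
  a : ∀ j ≤ k, ∀ x u, Es zx dx j x → Es zu du j u → c x u = 0
  b : ∀ j ≤ k, ∀ x u, Xs zx dx (j + 1) x → Es zu du j u → c x u = 1 ∨ c x u = 2
  b' : ∀ j ≤ k, ∀ x u, Es zx dx j x → Xs zu du (j + 1) u → c x u = -1 ∨ c x u = -2
  cc : ∀ j < k, ∀ x u, Es zx dx (j + 1) x → Es zu du j u → c x u = 1
  cc' : ∀ j < k, ∀ x u, Es zx dx j x → Es zu du (j + 1) u → c x u = -1
  dd : ∀ j < k, ∀ x u, Xs zx dx (j + 2) x → Es zu du j u → c x u = 2
  dd' : ∀ j < k, ∀ x u, Es zx dx j x → Xs zu du (j + 2) u → c x u = -2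
  co : ∀ j ≤ k + 1, ∃ a, ∀ x, Xs zx dx j x ↔ (2 ^ j : ℤ) ∣ x - a
  co' : ∀ j ≤ k + 1, ∃ a, ∀ u, Xs zu du j u ↔ (2 ^ j : ℤ) ∣ u - a

theorem Lvl.swap {zx dx zu du : ℤ → Bool} {c : ℤ → ℤ → ℤ} {k : ℕ}
    (H : Lvl zx dx zu du c k) : Lvl zu du zx dx (fun u x => - c x u) k where
  a j hj u x hu hx := by rw [H.a j hj x u hx hu]; rfl
  b j hj u x hu hx := by
    rcases H.b' j hj x u hx hu with h | h <;> rw [h] <;> norm_num
  b' j hj u x hu hx := by
    rcases H.b j hj x u hx hu with h | h <;> rw [h] <;> norm_num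
  cc j hj u x hu hx := by rw [H.cc' j hj x u hx hu]; norm_num
  cc' j hj u x hu hx := by rw [H.cc j hj x u hx hu]
  dd j hj u x hu hx := by rw [H.dd' j hj x u hx hu]; norm_num
  dd' j hj u x hu hx := by rw [H.dd j hj x u hx hu]
  co := H.co'
  co' := H.co

section steps

variable {z d : ℤ → Bool} {t : ℤ → ℤ → ZMod 8} {c : ℤ → ℤ → ℤ}

/-- The state does not change along a run of fillers. -/
theorem Half.run (H : Half z d t c) (x : ℤ) (hz : z x = true) (p : ℤ) (n : ℕ)
    (hfill : ∀ y, p < y → y ≤ p + n → c x y = 2) : t x (p + n) = t x p := by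
  induction n with
  | zero => simp
  | succ n ih =>
    have ih' := ih (fun y h1 h2 => hfill y h1 (by push_cast; omega))
    have hc : c x (p + n + 1) = 2 := hfill _ (by omega) (by push_cast; omega)
    have hcast : p + ((n + 1 : ℕ) : ℤ) = p + n + 1 := by push_cast; ring
    rw [hcast]
    rcases H.h1 x (p + n) hz with ⟨_, h⟩ | ⟨h, _⟩
    · rw [h, ih']
    · exfalso
      rw [hc] at h
      revert h
      generalize t x (p + n + 1) = s
      revert s
      unfold val
      decide

theorem Half.run' (H : Half z d t c) (x : ℤ) (hz : z x = true) (p p' : ℤ) (hp : p ≤ p')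
    (hfill : ∀ y, p < y → y ≤ p' → c x y = 2) : t x p' = t x p := by
  have := H.run x hz p (p' - p).toNat (fun y h1 h2 => hfill y h1 (by omega))
  have hc : p + ((p' - p).toNat : ℤ) = p' := by omega
  rwa [hc] at this

theorem Half.event (H : Half z d t c) (x : ℤ) (hz : z x = true) (p : ℤ) (hc : c x p ≠ 2) :
    c x p = val (t x p) ∧ t x p = t x (p - 1) + 1 := by
  have := H.h1 x (p - 1) hz
  rw [sub_add_cancel] at this
  rcases this with ⟨h, _⟩ | h
  · exact absurd h hc
  · exact h

end steps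

section main

variable {zx dx zu du : ℤ → Bool} {t s : ℤ → ℤ → ZMod 8} {c : ℤ → ℤ → ℤ} {k : ℕ}

/-- A point of level exactly `k` lies just before a point of level at least `k + 1`. -/
theorem Lvl.shift (H : Lvl zx dx zu du c k) {j : ℕ} (hj : j ≤ k) (x : ℤ)
    (hx : Xs zx dx (j + 1) x) (m : ℤ) (hm : m = 2 ^ j ∨ m = - 2 ^ j) :
    Es zx dx j (x + m) := by
  obtain ⟨a, ha⟩ := H.co j (by omega)
  obtain ⟨b, hb⟩ := H.co (j + 1) (by omega)
  have h1 : (2 ^ j : ℤ) ∣ x - a := (ha x).1 (Xs_succ _ _ _ _ hx)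
  have h2 : (2 ^ (j + 1) : ℤ) ∣ x - b := (hb x).1 hx
  refine ⟨(ha _).2 ?_, fun hcon => ?_⟩
  · have : x + m - a = (x - a) + m := by ring
    rw [this]
    apply dvd_add h1
    rcases hm with rfl | rfl
    · exact dvd_refl _
    · exact (dvd_neg).2 (dvd_refl _)
  · have h3 := (hb _).1 hcon
    have h4 : (2 ^ (j + 1) : ℤ) ∣ m := by
      have : m = (x + m - b) - (x - b) := by ring
      rw [this]
      exact dvd_sub h3 h2
    have h5 : (2 ^ (j + 1) : ℤ) ∣ 2 ^ j := by
      rcases hm with rfl | rfl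
      · exact h4
      · exact (dvd_neg).1 h4
    have h6 : (2 ^ (j + 1) : ℤ) ≤ 2 ^ j := Int.le_of_dvd (by positivity) h5
    rw [pow_succ] at h6
    have : (0 : ℤ) < 2 ^ j := by positivity
    omega

/-- Strictly between two consecutive points of level at least `j` every point has level less
than `j`. -/
theorem Lvl.between (H : Lvl zx dx zu du c k) {j : ℕ} (hj : j ≤ k + 1) (x y : ℤ)
    (hx : Xs zx dx j x) (h1 : x - 2 ^ j < y) (h2 : y < x) : ∃ i, i < j ∧ Es zx dx i y := by
  apply exists_Es_of_not_Xs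
  intro hcon
  obtain ⟨a, ha⟩ := H.co j hj
  have h3 := (ha x).1 hx
  have h4 := (ha y).1 hcon
  have h5 : (2 ^ j : ℤ) ∣ x - y := by
    have : x - y = (x - a) - (y - a) := by ring
    rw [this]
    exact dvd_sub h3 h4
  have := Int.le_of_dvd (by omega) h5
  omega

/-- Along a row of level `k`, the state increases by `2` between consecutive points of level at
least `k`. -/
theorem row_step (H : Lvl zx dx zu du c k) (HR : Half zu dx s (fun u x => - c x u))
    (u : ℤ) (hu : Es zu du k u) (x : ℤ) (hx : Xs zx dx k x) :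
    s u x = s u (x - 2 ^ k) + 2 ∧ - c x u = val (s u x) := by
  -- the symbol at `x` is nonnegative
  have hcx : c x u = 0 ∨ c x u = 1 ∨ c x u = 2 := by
    by_cases h : Xs zx dx (k + 1) x
    · right; exact H.b k le_rfl x u h hu
    · left; exact H.a k le_rfl x u ⟨hx, h⟩ hu
  cases k with
  | zero =>
    have hz : zu u = false := by
      have := hu.2
      simp only [Xs] at this
      simpa using this
    have h1 := HR.h0 u (x - 1) hz
    have h2 := HR.h0 u x hz
    rw [sub_add_cancel] at h1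
    refine ⟨?_, h2.2.1⟩
    simpa using h1.1
  | succ k =>
    have hz : zu u = true := Xs_anti zu du (by omega : 1 ≤ k + 1) u hu.1
    have hpow : (2 : ℤ) ^ (k + 1) = 2 ^ k + 2 ^ k := by rw [pow_succ]; ring
    have hpos : (0 : ℤ) < 2 ^ k := by positivity
    have hex : - c x u ≠ 2 := by omega
    obtain ⟨e1, e2⟩ := HR.event u hz x hex
    -- the middle point
    have hy0 : Es zx dx k (x + -2 ^ k) := H.shift (by omega) x hx _ (Or.inr rfl)
    have hcy0 : c (x + -2 ^ k) u = -1 := H.cc' k (by omega) _ u hy0 hu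
    have hey : - c (x + -2 ^ k) u ≠ 2 := by rw [hcy0]; norm_num
    obtain ⟨f1, f2⟩ := HR.event u hz (x + -2 ^ k) hey
    -- fillers
    have hfill : ∀ y, x - 2 ^ (k + 1) < y → y < x → y ≠ x + -2 ^ k → - c y u = 2 := by
      intro y h1 h2 h3
      obtain ⟨i, hi, hiy⟩ := H.between (j := k + 1) (by omega) x y hx h1 h2
      have hik : i < k := by
        by_contra hcon
        have hieq : i = k := by omega
        subst hieq
        -- both `y` and the middle point have level at least `i`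
        obtain ⟨a, ha⟩ := H.co i (by omega)
        have g1 := (ha _).1 hy0.1
        have g2 := (ha _).1 hiy.1
        have g3 : (2 ^ i : ℤ) ∣ y - (x + -2 ^ i) := by
          have : y - (x + -2 ^ i) = (y - a) - (x + -2 ^ i - a) := by ring
          rw [this]
          exact dvd_sub g2 g1
        obtain ⟨q, hq⟩ := g3
        have hq1 : -1 < q := by
          by_contra hc
          have : q ≤ -1 := by omega
          have : (2 : ℤ) ^ i * q ≤ 2 ^ i * (-1) := by
            apply mul_le_mul_of_nonneg_left this hpos.le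
          omega
        have hq2 : q < 1 := by
          by_contra hc
          have : 1 ≤ q := by omega
          have : (2 : ℤ) ^ i * 1 ≤ 2 ^ i * q := by
            apply mul_le_mul_of_nonneg_left this hpos.le
          omega
        have : q = 0 := by omega
        rw [this, mul_zero] at hq
        exact h3 (by omega)
      have := H.dd' i (by omega) y u hiy (Xs_anti zu du (by omega : i + 2 ≤ k + 1) u hu.1)
      rw [this]; norm_num
    have r1 : s u (x - 1) = s u (x + -2 ^ k) :=
      HR.run' u hz (x + -2 ^ k) (x - 1) (by omega) (fun y h1 h2 => hfill y (by omega) (by omega)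
        (by omega))
    have r2 : s u (x + -2 ^ k - 1) = s u (x - 2 ^ (k + 1)) :=
      HR.run' u hz (x - 2 ^ (k + 1)) (x + -2 ^ k - 1) (by omega)
        (fun y h1 h2 => hfill y (by omega) (by omega) (by omega))
    refine ⟨?_, e1⟩
    rw [e2, r1, f2, r2]
    ring

/-- Symbols in a row of level `k` at positions of level at least `k + 1`. -/
theorem row_vals (H : Lvl zx dx zu du c k) (HR : Half zu dx s (fun u x => - c x u))
    (u : ℤ) (hu : Es zu du k u) (x : ℤ) (hx : Xs zx dx (k + 1) x) :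
    (s u x = 4 ∧ c x u = 1 ∧ dx (x - 2 ^ k) = true) ∨
      (s u x = 0 ∧ c x u = 2 ∧ dx (x - 2 ^ k) = false) := by
  have hy : Es zx dx k (x - 2 ^ k) := by
    have := H.shift le_rfl x hx (- 2 ^ k) (Or.inr rfl)
    rwa [← sub_eq_add_neg] at this
  have hcy : c (x - 2 ^ k) u = 0 := H.a k le_rfl _ u hy hu
  have h2 := HR.h2 u (x - 2 ^ k) (by simp [hcy])
  obtain ⟨h3, h4⟩ := row_step H HR u hu x (Xs_succ _ _ _ _ hx)
  rcases h2 with ⟨h5, h6⟩ | ⟨h5, h6⟩
  · left
    have h7 : s u x = 4 := by rw [h3, h5]; decide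
    refine ⟨h7, ?_, h6⟩
    rw [h7] at h4
    have : val 4 = -1 := by decide
    omega
  · right
    have h7 : s u x = 0 := by rw [h3, h5]; decide
    refine ⟨h7, ?_, h6⟩
    rw [h7] at h4
    have : val 0 = -2 := by decide
    omega

theorem row_E (H : Lvl zx dx zu du c k) (HR : Half zu dx s (fun u x => - c x u))
    (u : ℤ) (hu : Es zu du k u) (x : ℤ) (hx : Es zx dx (k + 1) x) : c x u = 1 := by
  rcases row_vals H HR u hu x hx.1 with ⟨_, h, _⟩ | ⟨_, _, h⟩
  · exact h
  · exact absurd ⟨hx.1, h⟩ hx.2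

theorem row_X (H : Lvl zx dx zu du c k) (HR : Half zu dx s (fun u x => - c x u))
    (u : ℤ) (hu : Es zu du k u) (x : ℤ) (hx : Xs zx dx (k + 2) x) : c x u = 2 := by
  rcases row_vals H HR u hu x hx.1 with ⟨_, _, h⟩ | ⟨_, h, _⟩
  · have := hx.2
    rw [h] at this
    exact absurd this (by decide)
  · exact h

theorem exists_Es (H : Lvl zx dx zu du c k) {j : ℕ} (hj : j ≤ k) : ∃ x, Es zx dx j x := by
  obtain ⟨b, hb⟩ := H.co (j + 1) (by omega)
  exact ⟨b + 2 ^ j, H.shift hj b ((hb b).2 (by simp)) _ (Or.inl rfl)⟩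

/-- The points of level at least `k + 2` form a coset. -/
theorem next_coset (H : Lvl zx dx zu du c k) (HR : Half zu dx s (fun u x => - c x u)) :
    ∃ a, ∀ x, Xs zx dx (k + 2) x ↔ (2 ^ (k + 2) : ℤ) ∣ x - a := by
  obtain ⟨u, hu⟩ : ∃ u, Es zu du k u := exists_Es H.swap le_rfl
  obtain ⟨a, ha⟩ := H.co (k + 1) le_rfl
  have hpow : (2 : ℤ) ^ (k + 1) = 2 ^ k + 2 ^ k := by rw [pow_succ]; ring
  have hpow2 : (2 : ℤ) ^ (k + 2) = 2 ^ (k + 1) + 2 ^ (k + 1) := by rw [pow_succ]; ring
  have key : ∀ x, Xs zx dx (k + 1) x → (Xs zx dx (k + 2) (x + 2 ^ (k + 1)) ↔ ¬ Xs zx dx (k + 2) x) := by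
    intro x hx
    have hx' : Xs zx dx (k + 1) (x + 2 ^ (k + 1)) := by
      rw [ha] at hx ⊢
      have : x + 2 ^ (k + 1) - a = (x - a) + 2 ^ (k + 1) := by ring
      rw [this]
      exact dvd_add hx (dvd_refl _)
    have h1 := (row_step H HR u hu (x + 2 ^ (k + 1)) (Xs_succ _ _ _ _ hx')).1
    have hm := H.shift le_rfl x hx (2 ^ k) (Or.inl rfl)
    have h2 := (row_step H HR u hu (x + 2 ^ k) hm.1).1
    have e1 : x + 2 ^ (k + 1) - 2 ^ k = x + 2 ^ k := by rw [hpow]; ring
    have e2 : x + 2 ^ k - 2 ^ k = x := by ring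
    rw [e1, h2, e2] at h1
    have h3 := row_vals H HR u hu x hx
    have h4 := row_vals H HR u hu _ hx'
    have hA : Xs zx dx (k + 2) x ↔ s u x = 0 := by
      constructor
      · intro h
        rcases h3 with ⟨_, _, h'⟩ | ⟨h', _⟩
        · have := h.2
          rw [h'] at this
          exact absurd this (by decide)
        · exact h'
      · intro h
        rcases h3 with ⟨h', _⟩ | ⟨_, _, h'⟩
        · rw [h] at h'; exact absurd h' (by decide)
        · exact ⟨hx, h'⟩
    have hB : Xs zx dx (k + 2) (x + 2 ^ (k + 1)) ↔ s u (x + 2 ^ (k + 1)) = 0 := by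
      constructor
      · intro h
        rcases h4 with ⟨_, _, h'⟩ | ⟨h', _⟩
        · have := h.2
          rw [h'] at this
          exact absurd this (by decide)
        · exact h'
      · intro h
        rcases h4 with ⟨h', _⟩ | ⟨_, _, h'⟩
        · rw [h] at h'; exact absurd h' (by decide)
        · exact ⟨hx', h'⟩
    rw [hA, hB, h1]
    rcases h3 with ⟨h', _⟩ | ⟨h', _⟩
    · rw [h']; decide
    · rw [h']; decide
  have key2 : ∀ n : ℕ, ∀ x, Xs zx dx (k + 1) x →
      (Xs zx dx (k + 2) (x + 2 ^ (k + 1) * n) ↔ (Xs zx dx (k + 2) x ↔ Even n)) := by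
    intro n
    induction n with
    | zero => intro x _; simp
    | succ n ih =>
      intro x hx
      have hx' : Xs zx dx (k + 1) (x + 2 ^ (k + 1) * n) := by
        rw [ha] at hx ⊢
        have : x + 2 ^ (k + 1) * n - a = (x - a) + 2 ^ (k + 1) * n := by ring
        rw [this]
        exact dvd_add hx (dvd_mul_right _ _)
      have h := key _ hx'
      have e : x + 2 ^ (k + 1) * n + 2 ^ (k + 1) = x + 2 ^ (k + 1) * ((n + 1 : ℕ) : ℤ) := by
        push_cast; ring
      rw [e, ih x hx] at h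
      rw [h, Nat.even_add_one]
      tauto
  have hXa : Xs zx dx (k + 1) a := (ha a).2 (by simp)
  -- choose the base point
  obtain ⟨b, hb, hbk⟩ : ∃ b, Xs zx dx (k + 2) b ∧ (2 ^ (k + 1) : ℤ) ∣ b - a := by
    by_cases h : Xs zx dx (k + 2) a
    · exact ⟨a, h, by simp⟩
    · exact ⟨a + 2 ^ (k + 1), (key a hXa).2 h, by simp⟩
  refine ⟨b, fun x => ⟨fun hx => ?_, fun hx => ?_⟩⟩
  · have h1 : (2 ^ (k + 1) : ℤ) ∣ x - b := by
      have h2 := (ha x).1 hx.1
      have : x - b = (x - a) - (b - a) := by ring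
      rw [this]; exact dvd_sub h2 hbk
    obtain ⟨q, hq⟩ := h1
    have hev : Even q := by
      rcases le_total 0 q with h0 | h0
      · have h3 := key2 q.toNat b hb.1
        have e : b + 2 ^ (k + 1) * ((q.toNat : ℕ) : ℤ) = x := by
          rw [Int.toNat_of_nonneg h0]; linarith
        rw [e] at h3
        have h4 := (h3.1 hx).1 hb
        rw [← Int.toNat_of_nonneg h0]
        exact_mod_cast h4
      · have h3 := key2 (-q).toNat x hx.1
        have h0' : 0 ≤ -q := by omega
        have e : x + 2 ^ (k + 1) * (((-q).toNat : ℕ) : ℤ) = b := by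
          rw [Int.toNat_of_nonneg h0']; linarith
        rw [e] at h3
        have h4 := (h3.1 hb).1 hx
        have h5 : Even (-q) := by
          rw [← Int.toNat_of_nonneg h0']
          exact_mod_cast h4
        simpa using h5
    obtain ⟨r, hr⟩ := hev
    rw [hq, hr, hpow2]
    exact ⟨r, by ring⟩
  · obtain ⟨q, hq⟩ := hx
    rcases le_total 0 q with h0 | h0
    · have h3 := key2 (2 * q).toNat b hb.1
      have h0' : 0 ≤ 2 * q := by omega
      have e : b + 2 ^ (k + 1) * (((2 * q).toNat : ℕ) : ℤ) = x := by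
        rw [Int.toNat_of_nonneg h0']
        rw [hpow2] at hq
        linarith
      rw [e] at h3
      refine h3.2 ⟨fun _ => ?_, fun _ => hb⟩
      have : (2 * q).toNat = 2 * q.toNat := by omega
      rw [this]; exact even_two_mul _
    · have hx1 : Xs zx dx (k + 1) x := by
        rw [ha]
        have : x - a = (x - b) + (b - a) := by ring
        rw [this, hq]
        exact dvd_add (Dvd.dvd.mul_right (pow_dvd_pow _ (by omega)) _) hbk
      have h3 := key2 (2 * (-q)).toNat x hx1
      have h0' : 0 ≤ 2 * (-q) := by omega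
      have e : x + 2 ^ (k + 1) * (((2 * (-q)).toNat : ℕ) : ℤ) = b := by
        rw [Int.toNat_of_nonneg h0']
        rw [hpow2] at hq
        linarith
      rw [e] at h3
      have h4 := h3.1 hb
      apply h4.2
      have : (2 * (-q)).toNat = 2 * (-q).toNat := by omega
      rw [this]; exact even_two_mul _

/-- Columns of level `k + 1`. -/
theorem col_step (H : Lvl zx dx zu du c k) (H1 : Half zx du t c)
    (HR : Half zu dx s (fun u x => - c x u))
    (x : ℤ) (hx : Es zx dx (k + 1) x) (u : ℤ) (hu : Xs zu du (k + 1) u) :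
    t x u = t x (u - 2 ^ (k + 1)) + 2 ∧ c x u = val (t x u) ∧ c x u ≤ 0 := by
  have hz : zx x = true := Xs_anti zx dx (by omega : 1 ≤ k + 1) x hx.1
  have hpow : (2 : ℤ) ^ (k + 1) = 2 ^ k + 2 ^ k := by rw [pow_succ]; ring
  have hpos : (0 : ℤ) < 2 ^ k := by positivity
  obtain ⟨b, hb⟩ := H.co' (k + 1) le_rfl
  have hu' : Xs zu du (k + 1) (u - 2 ^ (k + 1)) := by
    rw [hb] at hu ⊢
    have : u - 2 ^ (k + 1) - b = (u - b) - 2 ^ (k + 1) := by ring
    rw [this]
    exact dvd_sub hu (dvd_refl _)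
  -- odd states at the two neighbours
  have hm : Es zu du k (u + -2 ^ k) := H.swap.shift le_rfl u hu _ (Or.inr rfl)
  have hp : Es zu du k (u + 2 ^ k) := H.swap.shift le_rfl u hu _ (Or.inl rfl)
  have cm : c x (u + -2 ^ k) = 1 := row_E H HR _ hm x hx
  have cp : c x (u + 2 ^ k) = 1 := row_E H HR _ hp x hx
  -- fillers
  have hbet : ∀ v, Xs zu du (k + 1) v → ∀ y, v - 2 ^ (k + 1) < y → y < v → y ≠ v + -2 ^ k →
      c x y = 2 := by
    intro v hv y h1 h2 h3
    obtain ⟨i, hi, hiy⟩ := H.swap.between (j := k + 1) (by omega) v y hv h1 h2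
    have hik : i < k := by
      by_contra hcon
      have hieq : i = k := by omega
      subst hieq
      obtain ⟨a, ha⟩ := H.co' i (by omega)
      have g1 := (ha _).1 (H.swap.shift le_rfl v hv _ (Or.inr rfl)).1
      have g2 := (ha _).1 hiy.1
      have g3 : (2 ^ i : ℤ) ∣ y - (v + -2 ^ i) := by
        have : y - (v + -2 ^ i) = (y - a) - (v + -2 ^ i - a) := by ring
        rw [this]
        exact dvd_sub g2 g1
      obtain ⟨q, hq⟩ := g3
      have hq1 : -1 < q := by
        by_contra hc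
        have : q ≤ -1 := by omega
        have : (2 : ℤ) ^ i * q ≤ 2 ^ i * (-1) := by
          apply mul_le_mul_of_nonneg_left this hpos.le
        omega
      have hq2 : q < 1 := by
        by_contra hc
        have : 1 ≤ q := by omega
        have : (2 : ℤ) ^ i * 1 ≤ 2 ^ i * q := by
          apply mul_le_mul_of_nonneg_left this hpos.le
        omega
      have : q = 0 := by omega
      rw [this, mul_zero] at hq
      exact h3 (by omega)
    exact H.dd i (by omega) x y (Xs_anti zx dx (by omega : i + 2 ≤ k + 1) x hx.1) hiy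
  have hup : Xs zu du (k + 1) (u + 2 ^ (k + 1)) := by
    rw [hb] at hu ⊢
    have : u + 2 ^ (k + 1) - b = (u - b) + 2 ^ (k + 1) := by ring
    rw [this]
    exact dvd_add hu (dvd_refl _)
  obtain ⟨m1, m2⟩ := H1.event x hz (u + -2 ^ k) (by rw [cm]; norm_num)
  obtain ⟨p1, p2⟩ := H1.event x hz (u + 2 ^ k) (by rw [cp]; norm_num)
  have r1 : t x (u - 1) = t x (u + -2 ^ k) :=
    H1.run' x hz (u + -2 ^ k) (u - 1) (by omega) (fun y h1 h2 => hbet u hu y (by omega) (by omega)
      (by omega))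
  have r2 : t x (u + -2 ^ k - 1) = t x (u - 2 ^ (k + 1)) :=
    H1.run' x hz (u - 2 ^ (k + 1)) (u + -2 ^ k - 1) (by omega)
      (fun y h1 h2 => hbet u hu y (by omega) (by omega) (by omega))
  have r3 : t x (u + 2 ^ k - 1) = t x u :=
    H1.run' x hz u (u + 2 ^ k - 1) (by omega)
      (fun y h1 h2 => hbet (u + 2 ^ (k + 1)) hup y (by omega) (by omega) (by omega))
  have hval : ∀ τ : ZMod 8, 1 = val τ → val (τ + 1) ≠ 1 ∧ val (τ + 1) ≤ 0 := by decide
  have he := H1.h1 x (u - 1) hz
  rw [sub_add_cancel] at he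
  rcases he with ⟨e1, e2⟩ | ⟨e1, e2⟩
  · exfalso
    rw [cp, p2, r3, e2, r1] at p1
    rw [cm] at m1
    exact (hval _ m1).1 p1.symm
  · refine ⟨?_, e1, ?_⟩
    · rw [e2, r1, m2, r2]; ring
    · rw [e1, e2, r1]
      rw [cm] at m1
      exact (hval _ m1).2

theorem Half.swapR (H1 : Half zx du t c) : Half zx du t (fun x u => - (- c x u)) := by
  simpa using H1

theorem Lvl.step (H : Lvl zx dx zu du c k) (H1 : Half zx du t c)
    (HR : Half zu dx s (fun u x => - c x u)) : Lvl zx dx zu du c (k + 1) := by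
  have colS := @col_step zx dx zu du t s c k H H1 HR
  have rowS : ∀ u, Es zu du (k + 1) u → ∀ x, Xs zx dx (k + 1) x →
      s u x = s u (x - 2 ^ (k + 1)) + 2 ∧ - c x u = val (s u x) ∧ - c x u ≤ 0 :=
    @col_step zu du zx dx s t (fun u x => - c x u) k H.swap HR H1.swapR
  obtain ⟨b, hb⟩ := H.co (k + 1) le_rfl
  obtain ⟨b', hb'⟩ := H.co' (k + 1) le_rfl
  have cX := next_coset H HR
  have cX' := next_coset H.swap H1.swapR
  have cc1 : ∀ x u, Es zx dx (k + 1) x → Es zu du k u → c x u = 1 :=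
    fun x u hx hu => row_E H HR u hu x hx
  have cc2 : ∀ x u, Es zx dx k x → Es zu du (k + 1) u → c x u = -1 := fun x u hx hu => by
    have := row_E H.swap H1.swapR x hx u hu
    omega
  have dd1 : ∀ x u, Xs zx dx (k + 2) x → Es zu du k u → c x u = 2 :=
    fun x u hx hu => row_X H HR u hu x hx
  have dd2 : ∀ x u, Es zx dx k x → Xs zu du (k + 2) u → c x u = -2 := fun x u hx hu => by
    have := row_X H.swap H1.swapR x hx u hu
    omega
  have ha : ∀ x u, Es zx dx (k + 1) x → Es zu du (k + 1) u → c x u = 0 := by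
    intro x u hx hu
    have h1 := (colS x hx u hu.1).2.2
    have h2 := (rowS u hu x hx.1).2.2
    omega
  -- predecessors
  have preX : ∀ x, Xs zx dx (k + 2) x → Es zx dx (k + 1) (x - 2 ^ (k + 1)) := by
    intro x hx
    obtain ⟨a, ha⟩ := cX
    have h1 := (hb x).1 hx.1
    have h2 := (ha x).1 hx
    refine ⟨(hb _).2 ?_, fun hcon => ?_⟩
    · have : x - 2 ^ (k + 1) - b = (x - b) - 2 ^ (k + 1) := by ring
      rw [this]; exact dvd_sub h1 (dvd_refl _)
    · have h3 := (ha _).1 hcon
      have h4 : (2 ^ (k + 2) : ℤ) ∣ 2 ^ (k + 1) := by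
        have : (2 ^ (k + 1) : ℤ) = (x - a) - (x - 2 ^ (k + 1) - a) := by ring
        rw [this]; exact dvd_sub h2 h3
      have h6 : (2 ^ (k + 2) : ℤ) ≤ 2 ^ (k + 1) := Int.le_of_dvd (by positivity) h4
      rw [pow_succ] at h6
      have : (0 : ℤ) < 2 ^ (k + 1) := by positivity
      omega
  have preX' : ∀ u, Xs zu du (k + 2) u → Es zu du (k + 1) (u - 2 ^ (k + 1)) := by
    intro x hx
    obtain ⟨a, ha⟩ := cX'
    have h1 := (hb' x).1 hx.1
    have h2 := (ha x).1 hx
    refine ⟨(hb' _).2 ?_, fun hcon => ?_⟩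
    · have : x - 2 ^ (k + 1) - b' = (x - b') - 2 ^ (k + 1) := by ring
      rw [this]; exact dvd_sub h1 (dvd_refl _)
    · have h3 := (ha _).1 hcon
      have h4 : (2 ^ (k + 2) : ℤ) ∣ 2 ^ (k + 1) := by
        have : (2 ^ (k + 1) : ℤ) = (x - a) - (x - 2 ^ (k + 1) - a) := by ring
        rw [this]; exact dvd_sub h2 h3
      have h6 : (2 ^ (k + 2) : ℤ) ≤ 2 ^ (k + 1) := Int.le_of_dvd (by positivity) h4
      rw [pow_succ] at h6
      have : (0 : ℤ) < 2 ^ (k + 1) := by positivity
      omega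
  have hval : ∀ τ : ZMod 8, (τ = 2 ∨ τ = 6) → (val (τ + 2) = -1 ∨ val (τ + 2) = -2) := by
    decide
  have hB : ∀ x u, Xs zx dx (k + 2) x → Es zu du (k + 1) u → c x u = 1 ∨ c x u = 2 := by
    intro x u hx hu
    obtain ⟨h1, h2, _⟩ := rowS u hu x hx.1
    have h3 := ha _ u (preX x hx) hu
    have h4 := HR.h2 u (x - 2 ^ (k + 1)) (by simp [h3])
    have h5 : s u (x - 2 ^ (k + 1)) = 2 ∨ s u (x - 2 ^ (k + 1)) = 6 := by tauto
    have h6 := hval _ h5
    rw [← h1, ← h2] at h6
    omega
  have hB' : ∀ x u, Es zx dx (k + 1) x → Xs zu du (k + 2) u → c x u = -1 ∨ c x u = -2 := by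
    intro x u hx hu
    obtain ⟨h1, h2, _⟩ := colS x hx u hu.1
    have h3 := ha x _ hx (preX' u hu)
    have h4 := H1.h2 x (u - 2 ^ (k + 1)) h3
    have h5 : t x (u - 2 ^ (k + 1)) = 2 ∨ t x (u - 2 ^ (k + 1)) = 6 := by tauto
    have h6 := hval _ h5
    rw [← h1, ← h2] at h6
    omega
  refine ⟨?_, ?_, ?_, ?_, ?_, ?_, ?_, ?_, ?_⟩
  · intro j hj x u hx hu
    rcases Nat.lt_or_ge k j with h | h
    · obtain rfl : j = k + 1 := by omega
      exact ha x u hx hu
    · exact H.a j h x u hx hu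
  · intro j hj x u hx hu
    rcases Nat.lt_or_ge k j with h | h
    · obtain rfl : j = k + 1 := by omega
      exact hB x u hx hu
    · exact H.b j h x u hx hu
  · intro j hj x u hx hu
    rcases Nat.lt_or_ge k j with h | h
    · obtain rfl : j = k + 1 := by omega
      exact hB' x u hx hu
    · exact H.b' j h x u hx hu
  · intro j hj x u hx hu
    rcases Nat.lt_or_ge j k with h | h
    · exact H.cc j h x u hx hu
    · obtain rfl : j = k := by omega
      exact cc1 x u hx hu
  · intro j hj x u hx hu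
    rcases Nat.lt_or_ge j k with h | h
    · exact H.cc' j h x u hx hu
    · obtain rfl : j = k := by omega
      exact cc2 x u hx hu
  · intro j hj x u hx hu
    rcases Nat.lt_or_ge j k with h | h
    · exact H.dd j h x u hx hu
    · obtain rfl : j = k := by omega
      exact dd1 x u hx hu
  · intro j hj x u hx hu
    rcases Nat.lt_or_ge j k with h | h
    · exact H.dd' j h x u hx hu
    · obtain rfl : j = k := by omega
      exact dd2 x u hx hu
  · intro j hj
    rcases Nat.lt_or_ge j (k + 2) with h | h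
    · exact H.co j (by omega)
    · obtain rfl : j = k + 2 := by omega
      exact cX
  · intro j hj
    rcases Nat.lt_or_ge j (k + 2) with h | h
    · exact H.co' j (by omega)
    · obtain rfl : j = k + 2 := by omega
      exact cX'

end main

/-- The levels at least `1` alternate. -/
def Alt (z : ℤ → Bool) : Prop := ∀ x, z (x + 1) = !z x

theorem Alt.coset {z : ℤ → Bool} (h : Alt z) (d : ℤ → Bool) :
    ∃ a, ∀ x, Xs z d 1 x ↔ (2 ^ 1 : ℤ) ∣ x - a := by
  have key : ∀ (n : ℕ) (x : ℤ), z (x + n) = (z x == decide (Even n)) := by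
    intro n
    induction n with
    | zero => intro x; simp
    | succ n ih =>
      intro x
      have e : x + ((n + 1 : ℕ) : ℤ) = (x + n) + 1 := by push_cast; ring
      rw [e, h, ih]
      by_cases hn : Even n
      · simp [hn, Nat.even_add_one]
      · simp [hn, Nat.even_add_one]
  obtain ⟨a, ha⟩ : ∃ a, z a = true := by
    by_cases h0 : z 0 = true
    · exact ⟨0, h0⟩
    · refine ⟨0 + 1, ?_⟩
      rw [h]; simpa using h0
  refine ⟨a, fun x => ?_⟩
  simp only [Xs, pow_one]
  rcases le_total a x with hx | hx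
  · have h1 := key (x - a).toNat a
    have e : a + (((x - a).toNat : ℕ) : ℤ) = x := by omega
    rw [e, ha] at h1
    rw [h1]
    simp only [beq_iff_eq, true_eq_decide_iff]
    rw [even_iff_two_dvd]
    omega
  · have h1 := key (a - x).toNat x
    have e : x + (((a - x).toNat : ℕ) : ℤ) = a := by omega
    rw [e, ha] at h1
    have h2 : z x = true ↔ Even (a - x).toNat := by
      cases hz : z x <;> rw [hz] at h1 <;> simpa using h1
    rw [h2, even_iff_two_dvd]
    omega

section all

variable {zx dx zu du : ℤ → Bool} {t s : ℤ → ℤ → ZMod 8} {c : ℤ → ℤ → ℤ}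

theorem Lvl.base (H1 : Half zx du t c) (HR : Half zu dx s (fun u x => - c x u))
    (Ax : Alt zx) (Au : Alt zu) : Lvl zx dx zu du c 0 := by
  have hE : ∀ (z d : ℤ → Bool) x, Es z d 0 x ↔ z x = false := by
    intro z d x
    simp [Es, Xs]
  have hv : ∀ τ : ZMod 8, (τ = 0 ∨ τ = 2 ∨ τ = 4 ∨ τ = 6) → val τ ≤ 0 := by decide
  have hval : ∀ τ : ZMod 8, (τ = 2 ∨ τ = 6) → (val (τ + 2) = -1 ∨ val (τ + 2) = -2) := by
    decide
  have ha : ∀ x u, zx x = false → zu u = false → c x u = 0 := by
    intro x u hx hu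
    have h1 := H1.h0 x u hx
    have h2 := HR.h0 u x hu
    have h3 := hv _ h1.2.2
    have h4 := hv _ h2.2.2
    rw [← h1.2.1] at h3
    rw [← h2.2.1] at h4
    omega
  have hb : ∀ x u, zx x = true → zu u = false → c x u = 1 ∨ c x u = 2 := by
    intro x u hx hu
    have hx1 : zx (x - 1) = false := by
      have := Ax (x - 1)
      rw [sub_add_cancel, hx] at this
      simpa using this.symm
    have h1 := HR.h0 u (x - 1) hu
    have h2 := HR.h0 u x hu
    rw [sub_add_cancel] at h1
    have h3 := HR.h2 u (x - 1) (by simp [ha _ _ hx1 hu])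
    have h5 : s u (x - 1) = 2 ∨ s u (x - 1) = 6 := by tauto
    have h6 := hval _ h5
    rw [← h1.1, ← h2.2.1] at h6
    omega
  have hb' : ∀ x u, zx x = false → zu u = true → c x u = -1 ∨ c x u = -2 := by
    intro x u hx hu
    have hx1 : zu (u - 1) = false := by
      have := Au (u - 1)
      rw [sub_add_cancel, hu] at this
      simpa using this.symm
    have h1 := H1.h0 x (u - 1) hx
    have h2 := H1.h0 x u hx
    rw [sub_add_cancel] at h1
    have h3 := H1.h2 x (u - 1) (ha _ _ hx hx1)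
    have h5 : t x (u - 1) = 2 ∨ t x (u - 1) = 6 := by tauto
    have h6 := hval _ h5
    rw [← h1.1, ← h2.2.1] at h6
    omega
  refine ⟨?_, ?_, ?_, fun j hj => absurd hj (Nat.not_lt_zero _),
    fun j hj => absurd hj (Nat.not_lt_zero _), fun j hj => absurd hj (Nat.not_lt_zero _),
    fun j hj => absurd hj (Nat.not_lt_zero _), ?_, ?_⟩
  · intro j hj x u hx hu
    obtain rfl : j = 0 := by omega
    rw [hE] at hx hu
    exact ha x u hx hu
  · intro j hj x u hx hu
    obtain rfl : j = 0 := by omega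
    rw [hE] at hu
    exact hb x u hx hu
  · intro j hj x u hx hu
    obtain rfl : j = 0 := by omega
    rw [hE] at hx
    exact hb' x u hx hu
  · intro j hj
    rcases Nat.lt_or_ge j 1 with h | h
    · obtain rfl : j = 0 := by omega
      exact ⟨0, fun x => by simp [Xs]⟩
    · obtain rfl : j = 1 := by omega
      exact Ax.coset dx
  · intro j hj
    rcases Nat.lt_or_ge j 1 with h | h
    · obtain rfl : j = 0 := by omega
      exact ⟨0, fun x => by simp [Xs]⟩
    · obtain rfl : j = 1 := by omega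
      exact Au.coset du

theorem Lvl.all (H1 : Half zx du t c) (HR : Half zu dx s (fun u x => - c x u))
    (Ax : Alt zx) (Au : Alt zu) : ∀ k, Lvl zx dx zu du c k
  | 0 => Lvl.base H1 HR Ax Au
  | (k + 1) => (Lvl.all H1 HR Ax Au k).step H1 HR

theorem Es_of_zero (hL : ∀ k, Lvl zx dx zu du c k) {k : ℕ} {x u : ℤ} (hx : Es zx dx k x)
    (h : c x u = 0) : Es zu du k u := by
  by_contra hcon
  by_cases h1 : Xs zu du (k + 1) u
  · rcases (hL k).b' k le_rfl x u hx h1 with h2 | h2 <;> omega
  · obtain ⟨j, hj, hju⟩ := exists_Es_of_not_Xs zu du (k + 1) u h1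
    rcases Nat.lt_or_ge j k with h3 | h3
    · rcases (hL j).b j le_rfl x u (Xs_anti zx dx (by omega) x hx.1) hju with h2 | h2 <;> omega
    · obtain rfl : j = k := by omega
      exact hcon hju

theorem Es_of_one (hL : ∀ k, Lvl zx dx zu du c k) {k : ℕ} {x u : ℤ} (hu : Es zu du k u)
    (h : c x u = 1) : Es zx dx (k + 1) x := by
  refine ⟨?_, fun h1 => ?_⟩
  · by_contra h1
    obtain ⟨j, hj, hjx⟩ := exists_Es_of_not_Xs zx dx (k + 1) x h1
    rcases Nat.lt_or_ge j k with h3 | h3
    · rcases (hL j).b' j le_rfl x u hjx (Xs_anti zu du (by omega) u hu.1) with h2 | h2 <;> omega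
    · obtain rfl : j = k := by omega
      have := (hL j).a j le_rfl x u hjx hu
      omega
  · have := (hL (k + 1)).dd k (by omega) x u h1 hu
    omega

theorem zero_of_Es (hL : ∀ k, Lvl zx dx zu du c k) {k : ℕ} {x u : ℤ} (hx : Es zx dx k x)
    (hu : Es zu du k u) : c x u = 0 := (hL k).a k le_rfl x u hx hu

theorem one_of_Es (hL : ∀ k, Lvl zx dx zu du c k) {k : ℕ} {x u : ℤ} (hx : Es zx dx (k + 1) x)
    (hu : Es zu du k u) : c x u = 1 := (hL (k + 1)).cc k (by omega) x u hx hu

end all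

end Pool.Agent.H51
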