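import Mathlib
import Pool.Agent.Lib.H51.Hier

set_option autoImplicit false

/-!
# The ideal hierarchical labels
-/

namespace Pool.Agent.H51

/-- The level of an integer. -/
noncomputable def lev (x : ℤ) : ℕ := padicValInt 2 (3 * x + 1)

theorem pow_dvd_iff (k : ℕ) (x : ℤ) : (2 ^ k : ℤ) ∣ 3 * x + 1 ↔ k ≤ lev x := by
  have h0 : 3 * x + 1 ≠ 0 := by omega
  have := padicValInt_dvd_iff (p := 2) k (3 * x + 1)
  simp only [h0, false_or, Nat.cast_ofNat] at this
  exact this

/-- Approximations of `-1/3`. -/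
def aa : ℕ → ℤ
  | 0 => 0
  | (k + 1) => 4 * aa k + 1

theorem three_aa (k : ℕ) : 3 * aa k + 1 = 4 ^ k := by
  induction k with
  | zero => simp [aa]
  | succ k ih => simp only [aa]; rw [pow_succ]; linarith

theorem lev_iff (m j : ℕ) (hj : j ≤ m + 2) (u : ℤ) :
    j ≤ lev u ↔ (2 ^ j : ℤ) ∣ u - aa (m + 2) := by
  rw [← pow_dvd_iff]
  have h1 : (2 ^ j : ℤ) ∣ 4 ^ (m + 2) := by
    have : (4 : ℤ) ^ (m + 2) = 2 ^ (2 * (m + 2)) := by rw [pow_mul]; norm_num
    rw [this]
    exact pow_dvd_pow _ (by omega)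
  have h2 : 3 * u + 1 = 3 * (u - aa (m + 2)) + 4 ^ (m + 2) := by
    rw [← three_aa]; ring
  rw [h2]
  constructor
  · intro h
    have h3 : (2 ^ j : ℤ) ∣ 3 * (u - aa (m + 2)) := by
      have := dvd_sub h h1
      simpa using this
    have hc : IsCoprime (2 ^ j : ℤ) 3 := by
      apply IsCoprime.pow_left
      exact ⟨-1, 1, by norm_num⟩
    exact hc.dvd_of_dvd_mul_left h3
  · intro h
    exact dvd_add (Dvd.dvd.mul_left h 3) h1

/-- The state of the position `u` in a line of level `m`. -/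
def tt (m : ℕ) (u : ℤ) : ZMod 8 := ((2 * (u - aa (m + 2)) / 2 ^ m : ℤ) : ZMod 8)

/-- The symbol. -/
def sy (m l : ℕ) : ℤ := max (-2) (min 2 ((m : ℤ) - l))

/-- The digit bit. -/
noncomputable def dI (x : ℤ) : Bool := decide (tt (lev x) x = 2)

/-- The bit saying that the level is positive. -/
noncomputable def zI (x : ℤ) : Bool := decide (1 ≤ lev x)

/-- The state. -/
noncomputable def tI (x u : ℤ) : ZMod 8 := tt (lev x) u

/-- The symbol. -/
noncomputable def cI (x u : ℤ) : ℤ := sy (lev x) (lev u)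

theorem neg_sy (m l : ℕ) : - sy m l = sy l m := by
  unfold sy
  omega

theorem zI_iff (x : ℤ) : zI x = true ↔ x % 2 = 1 := by
  unfold zI
  rw [decide_eq_true_iff, ← pow_dvd_iff]
  omega

theorem zI_alt : Alt zI := by
  intro x
  rcases Int.emod_two_eq_zero_or_one x with h | h
  · have h1 : zI (x + 1) = true := by rw [zI_iff]; omega
    have h2 : zI x = false := by
      rw [← Bool.not_eq_true, zI_iff]; omega
    rw [h1, h2]; rfl
  · have h1 : zI (x + 1) = false := by rw [← Bool.not_eq_true, zI_iff]; omega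
    have h2 : zI x = true := by
      rw [zI_iff]; omega
    rw [h1, h2]; rfl

/-- Positions of level at least `m`. -/
theorem tt_of_le (m : ℕ) (u : ℤ) (h : m ≤ lev u) :
    sy m (lev u) = val (tt m u) ∧
      (tt m u = 0 ∨ tt m u = 2 ∨ tt m u = 4 ∨ tt m u = 6) ∧
      (sy m (lev u) = 0 → m = lev u ∧ (tt m u = 2 ∨ tt m u = 6)) := by
  obtain ⟨w, hw⟩ := (lev_iff m m (by omega) u).1 h
  have htt : tt m u = ((2 * w : ℤ) : ZMod 8) := by
    unfold tt
    rw [hw]
    congr 1
    have : 2 * (2 ^ m * w) = 2 ^ m * (2 * w) := by ring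
    rw [this]
    exact Int.mul_ediv_cancel_left _ (by positivity)
  have h1 : m + 1 ≤ lev u ↔ (2 : ℤ) ∣ w := by
    rw [lev_iff m (m + 1) (by omega) u, hw, pow_succ]
    exact mul_dvd_mul_iff_left (by positivity)
  have h2 : m + 2 ≤ lev u ↔ (4 : ℤ) ∣ w := by
    rw [lev_iff m (m + 2) (by omega) u, hw, pow_add]
    exact mul_dvd_mul_iff_left (by positivity)
  have h4 : w % 4 = 0 ∨ w % 4 = 1 ∨ w % 4 = 2 ∨ w % 4 = 3 := by omega
  have hcast : ∀ a : ℤ, w % 4 = a → tt m u = ((2 * a : ℤ) : ZMod 8) := by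
    intro a ha
    rw [htt, ZMod.intCast_eq_intCast_iff_dvd_sub]
    omega
  rcases h4 with h4 | h4 | h4 | h4
  · have ht := hcast _ h4
    have hl : m + 2 ≤ lev u := h2.2 (by omega)
    have hs : sy m (lev u) = -2 := by unfold sy; omega
    have ht' : tt m u = 0 := by rw [ht]; decide
    rw [ht', hs]
    exact ⟨by decide, by decide, fun h => absurd h (by decide)⟩
  · have ht := hcast _ h4
    have hl : ¬ (m + 1 ≤ lev u) := by rw [h1]; omega
    have hs : sy m (lev u) = 0 := by unfold sy; omega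
    have ht' : tt m u = 2 := by rw [ht]; decide
    rw [ht', hs]
    refine ⟨by decide, by decide, fun _ => ⟨by omega, by decide⟩⟩
  · have ht := hcast _ h4
    have hl : m + 1 ≤ lev u := h1.2 (by omega)
    have hl2 : ¬ (m + 2 ≤ lev u) := by rw [h2]; omega
    have hs : sy m (lev u) = -1 := by unfold sy; omega
    have ht' : tt m u = 4 := by rw [ht]; decide
    rw [ht', hs]
    exact ⟨by decide, by decide, fun h => absurd h (by decide)⟩
  · have ht := hcast _ h4
    have hl : ¬ (m + 1 ≤ lev u) := by rw [h1]; omega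
    have hs : sy m (lev u) = 0 := by unfold sy; omega
    have ht' : tt m u = 6 := by rw [ht]; decide
    rw [ht', hs]
    refine ⟨by decide, by decide, fun _ => ⟨by omega, by decide⟩⟩

/-- Positions of level `m - 1`. -/
theorem tt_of_eq (m : ℕ) (u : ℤ) (h : lev u = m) : 
    sy (m + 1) (lev u) = val (tt (m + 1) u) := by
  obtain ⟨w, hw⟩ := (lev_iff (m + 1) m (by omega) u).1 h.ge
  have htt : tt (m + 1) u = ((w : ℤ) : ZMod 8) := by
    unfold tt
    rw [hw]
    congr 1
    have : 2 * (2 ^ m * w) = 2 ^ (m + 1) * w := by ring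
    rw [this]
    exact Int.mul_ediv_cancel_left _ (by positivity)
  have h1 : ¬ (2 : ℤ) ∣ w := by
    intro hd
    have : m + 1 ≤ lev u := by
      rw [lev_iff (m + 1) (m + 1) (by omega) u, hw, pow_succ]
      exact mul_dvd_mul_left _ hd
    omega
  have hs : sy (m + 1) (lev u) = 1 := by unfold sy; omega
  rw [hs, htt]
  have h8 : w % 8 = 1 ∨ w % 8 = 3 ∨ w % 8 = 5 ∨ w % 8 = 7 := by omega
  have hcast : ∀ a : ℤ, w % 8 = a → ((w : ℤ) : ZMod 8) = ((a : ℤ) : ZMod 8) := by
    intro a ha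
    rw [ZMod.intCast_eq_intCast_iff_dvd_sub]
    omega
  rcases h8 with h8 | h8 | h8 | h8 <;> rw [hcast _ h8] <;> decide

theorem half_ideal : Half zI dI tI cI := by
  refine ⟨fun x p hz => ?_, fun x p hz => ?_, fun x p hc => ?_⟩
  · have hl : lev x = 0 := by
      have : ¬ (1 ≤ lev x) := by
        unfold zI at hz
        simpa using hz
      omega
    obtain ⟨h1, h2, h3⟩ := tt_of_le 0 p (Nat.zero_le _)
    unfold tI cI
    rw [hl]
    refine ⟨?_, h1, h2⟩
    unfold tt
    rw [pow_zero, Int.ediv_one, Int.ediv_one]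
    push_cast
    ring
  · have hl : 1 ≤ lev x := by
      unfold zI at hz
      simpa using hz
    obtain ⟨m, hm⟩ : ∃ m, lev x = m + 1 := ⟨lev x - 1, by omega⟩
    unfold tI cI
    rw [hm]
    have hpow : (2 : ℤ) ^ (m + 1) = 2 * 2 ^ m := by ring
    have hB : (0 : ℤ) < 2 ^ m := by positivity
    have hdiv : ∀ u, 2 * (u - aa (m + 1 + 2)) / 2 ^ (m + 1) = (u - aa (m + 1 + 2)) / 2 ^ m := by
      intro u
      rw [hpow]
      exact Int.mul_ediv_mul_of_pos _ _ (by norm_num)
    by_cases hd : m ≤ lev (p + 1)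
    · right
      constructor
      · rcases Nat.lt_or_ge m (lev (p + 1)) with h | h
        · exact (tt_of_le (m + 1) (p + 1) h).1
        · exact tt_of_eq m (p + 1) (by omega)
      · obtain ⟨w, hw⟩ := (lev_iff (m + 1) m (by omega) (p + 1)).1 hd
        unfold tt
        rw [hdiv, hdiv, hw]
        have e : p - aa (m + 1 + 2) = 2 ^ m * (w - 1) + (2 ^ m - 1) := by
          have : p - aa (m + 1 + 2) = (p + 1 - aa (m + 1 + 2)) - 1 := by ring
          rw [this, hw]; ring
        rw [e, Int.mul_ediv_cancel_left _ hB.ne', Int.mul_add_ediv_left _ _ hB.ne']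
        have : (2 ^ m - 1 : ℤ) / 2 ^ m = 0 := Int.ediv_eq_zero_of_lt (by omega) (by omega)
        rw [this]
        push_cast
        ring
    · left
      constructor
      · unfold sy; omega
      · unfold tt
        rw [hdiv, hdiv]
        congr 1
        have hnd : ¬ (2 ^ m : ℤ) ∣ p + 1 - aa (m + 1 + 2) := by
          rw [← lev_iff (m + 1) m (by omega)]
          exact hd
        set y := p - aa (m + 1 + 2) with hy
        have e : p + 1 - aa (m + 1 + 2) = y + 1 := by rw [hy]; ring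
        rw [e] at hnd ⊢
        have h1 := Int.emod_nonneg y hB.ne'
        have h2 := Int.emod_lt_of_pos y hB
        have h3 := Int.mul_ediv_add_emod y (2 ^ m)
        have h4 : y % 2 ^ m + 1 < 2 ^ m := by
          by_contra hcon
          have : y % 2 ^ m + 1 = 2 ^ m := by omega
          apply hnd
          refine ⟨y / 2 ^ m + 1, ?_⟩
          rw [mul_add, mul_one, ← this, ← add_assoc]
          rw [this]
          omega
        have e2 : y + 1 = 2 ^ m * (y / 2 ^ m) + (y % 2 ^ m + 1) := by omega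
        rw [e2, Int.mul_add_ediv_left _ _ hB.ne', Int.ediv_eq_zero_of_lt (by omega) h4]
        rw [add_zero]
  · unfold cI at hc
    have hl : lev x = lev p := by unfold sy at hc; omega
    obtain ⟨_, _, h3⟩ := tt_of_le (lev x) p hl.le
    obtain ⟨_, h5⟩ := h3 hc
    unfold tI dI
    rw [← hl]
    rcases h5 with h5 | h5
    · left; rw [h5]; decide
    · right; rw [h5]; decide

theorem half_ideal' : Half zI dI tI (fun u x => - cI x u) := by
  have := half_ideal
  have e : (fun u x => - cI x u) = cI := by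
    funext u x
    unfold cI
    rw [neg_sy]
  rwa [e]

/-! ### Periodicity -/

theorem lev_add (x v : ℤ) (k : ℕ) (h : lev x < k) : lev (x + 2 ^ k * v) = lev x := by
  have h1 : ∀ j ≤ k, (j ≤ lev (x + 2 ^ k * v) ↔ j ≤ lev x) := by
    intro j hj
    rw [← pow_dvd_iff, ← pow_dvd_iff]
    have e : 3 * (x + 2 ^ k * v) + 1 = (3 * x + 1) + 2 ^ k * (3 * v) := by ring
    rw [e]
    exact dvd_add_left (Dvd.dvd.mul_right (pow_dvd_pow _ hj) _)
  have h2 := (h1 (lev x) h.le).2 le_rfl
  have h3 : ¬ (lev x + 1 ≤ lev (x + 2 ^ k * v)) := by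
    rw [h1 _ h]; omega
  omega

theorem tt_add (m : ℕ) (u v : ℤ) : tt m (u + 2 ^ (m + 2) * v) = tt m u := by
  unfold tt
  have e : 2 * (u + 2 ^ (m + 2) * v - aa (m + 2)) = 2 * (u - aa (m + 2)) + 2 ^ m * (8 * v) := by
    ring
  rw [e, Int.add_mul_ediv_left _ _ (by positivity)]
  push_cast
  have : (8 : ZMod 8) = 0 := by decide
  rw [this]
  ring

theorem lev_bound (x : ℤ) (N : ℕ) (h : x.natAbs ≤ N) : lev x < 3 * N + 2 := by
  have h1 : (2 ^ lev x : ℤ) ∣ 3 * x + 1 := (pow_dvd_iff _ _).2 le_rfl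
  have h2 : (2 ^ lev x : ℕ) ∣ (3 * x + 1).natAbs := by
    have := Int.natAbs_dvd_natAbs.2 h1
    simpa [Int.natAbs_pow] using this
  have h3 := Nat.le_of_dvd (by omega) h2
  have h4 : lev x < 2 ^ lev x := Nat.lt_two_pow_self
  omega

theorem dI_add (x v : ℤ) (k : ℕ) (h : lev x < k) : dI (x + 2 ^ (k + 2) * v) = dI x := by
  unfold dI
  rw [lev_add x v (k + 2) (by omega)]
  obtain ⟨e, he⟩ : ∃ e, k = lev x + e := ⟨k - lev x, by omega⟩
  have : x + 2 ^ (k + 2) * v = x + 2 ^ (lev x + 2) * (2 ^ e * v) := by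
    rw [he]; ring
  rw [this, tt_add]

theorem zI_add (x v : ℤ) (k : ℕ) (h : lev x < k) : zI (x + 2 ^ (k + 2) * v) = zI x := by
  unfold zI
  rw [lev_add x v (k + 2) (by omega)]

theorem tI_add (x u v w : ℤ) (k : ℕ) (h : lev x < k) :
    tI (x + 2 ^ (k + 2) * v) (u + 2 ^ (k + 2) * w) = tI x u := by
  unfold tI
  rw [lev_add x v (k + 2) (by omega)]
  obtain ⟨e, he⟩ : ∃ e, k = lev x + e := ⟨k - lev x, by omega⟩
  have : u + 2 ^ (k + 2) * w = u + 2 ^ (lev x + 2) * (2 ^ e * w) := by
    rw [he]; ring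
  rw [this, tt_add]

end Pool.Agent.H51
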