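import Mathlib

set_option autoImplicit false

/-!
# Sup norm on `ℤⁿ`
-/

namespace Pool.Agent.H51

variable {n : ℕ}

/-- The sup norm. -/
def nrm (g : Fin n → ℤ) : ℕ := Finset.univ.sup fun i => (g i).natAbs

theorem nrm_le {g : Fin n → ℤ} {N : ℕ} : nrm g ≤ N ↔ ∀ i, (g i).natAbs ≤ N := by
  simp [nrm]

theorem nrm_apply (g : Fin n → ℤ) (i : Fin n) : (g i).natAbs ≤ nrm g := nrm_le.1 le_rfl i

theorem nrm_zero : nrm (0 : Fin n → ℤ) = 0 := by
  apply Nat.le_zero.1
  rw [nrm_le]
  simp

theorem nrm_eq_zero {g : Fin n → ℤ} (h : nrm g = 0) : g = 0 := by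
  funext i
  have := nrm_apply g i
  simp only [Pi.zero_apply]
  omega

theorem nrm_neg (g : Fin n → ℤ) : nrm (-g) = nrm g := by
  simp [nrm]

theorem nrm_add (g h : Fin n → ℤ) : nrm (g + h) ≤ nrm g + nrm h := by
  rw [nrm_le]
  intro i
  have h1 := nrm_apply g i
  have h2 := nrm_apply h i
  have h3 : (g + h) i = g i + h i := rfl
  rw [h3]
  omega

theorem nrm_sub (g h : Fin n → ℤ) : nrm (g - h) ≤ nrm g + nrm h := by
  have := nrm_add g (-h)
  rwa [nrm_neg, ← sub_eq_add_neg] at this

theorem nrm_sub_comm (g h : Fin n → ℤ) : nrm (g - h) = nrm (h - g) := by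
  rw [← nrm_neg, neg_sub]

theorem nrm_smul (q : ℕ) (v : Fin n → ℤ) : nrm ((q : ℤ) • v) = q * nrm v := by
  apply le_antisymm
  · rw [nrm_le]
    intro i
    have := nrm_apply v i
    simp only [Pi.smul_apply, smul_eq_mul, Int.natAbs_mul, Int.natAbs_natCast]
    exact Nat.mul_le_mul_left q this
  · rcases Nat.eq_zero_or_pos q with rfl | hq
    · simp
    · have : nrm v ≤ nrm ((q : ℤ) • v) / q := by
        rw [nrm_le]
        intro i
        have := nrm_apply ((q : ℤ) • v) i
        simp only [Pi.smul_apply, smul_eq_mul, Int.natAbs_mul, Int.natAbs_natCast] at this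
        rw [Nat.le_div_iff_mul_le hq]
        linarith [mul_comm (v i).natAbs q]
      calc q * nrm v ≤ q * (nrm ((q : ℤ) • v) / q) := Nat.mul_le_mul_left q this
        _ ≤ _ := Nat.mul_div_le _ _

/-- A function constant in the directions of `D` only depends on the other coordinates. -/
theorem const_of_shift {β : Type} (b : (Fin n → ℤ) → β) (D : Set (Fin n))
    (h : ∀ r, ∀ i ∈ D, b (r + Pi.single i 1) = b r) (r r' : Fin n → ℤ)
    (hrr : ∀ i ∉ D, r i = r' i) : b r = b r' := by
  classical
  have nat : ∀ r, ∀ i ∈ D, ∀ m : ℕ, b (r + Pi.single i (m : ℤ)) = b r := by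
    intro r i hi m
    induction m with
    | zero => simp
    | succ m ih =>
      have h1 := h (r + Pi.single i (m : ℤ)) i hi
      rw [add_assoc, ← Pi.single_add] at h1
      push_cast
      rw [h1, ih]
  have single : ∀ r, ∀ i ∈ D, ∀ m : ℤ, b (Function.update r i m) = b r := by
    intro r i hi m
    rcases le_total (r i) m with hm | hm
    · rw [← nat r i hi (m - r i).toNat]
      congr 1
      funext k
      by_cases hk : k = i
      · subst hk
        simp [Int.toNat_of_nonneg (sub_nonneg.2 hm)]
      · simp [hk]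
    · rw [← nat (Function.update r i m) i hi (r i - m).toNat]
      congr 1
      funext k
      by_cases hk : k = i
      · subst hk
        simp [Int.toNat_of_nonneg (sub_nonneg.2 hm)]
      · simp [hk]
  have key : ∀ (s : Finset (Fin n)), (∀ i ∈ s, i ∈ D) → ∀ r r' : Fin n → ℤ,
      (∀ i ∉ s, r i = r' i) → b r = b r' := by
    intro s
    induction s using Finset.induction_on with
    | empty =>
      intro _ r r' hr
      rw [show r = r' from funext fun i => hr i (Finset.notMem_empty i)]
    | insert a s ha ih =>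
      intro hs r r' hr
      rw [← single r a (hs a (Finset.mem_insert_self a s)) (r' a)]
      apply ih (fun i hi => hs i (Finset.mem_insert_of_mem hi))
      intro i hi
      by_cases hia : i = a
      · subst hia; simp
      · rw [Function.update_of_ne hia]
        exact hr i (by simp [hia, hi])
  refine key (Finset.univ.filter (· ∈ D)) (by simp) r r' (fun i hi => hrr i ?_)
  simpa using hi

end Pool.Agent.H51
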