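import Mathlib

set_option autoImplicit false

/-!
# Local systems on quadrants

A system on the quadrant `ι → ℕ` asks for labels in a finite set, subject to a pointwise rule
(which sees which coordinates vanish) and to an edge rule in every direction.
-/

namespace Pool.Agent.H51

open Function

/-- A local system on `ι → ℕ`. -/
structure Sys (ι : Type) where
  /-- labels -/
  Γ : Type
  fin : Finite Γ
  /-- pointwise rule -/
  pw : (ι → Prop) → Γ → Prop
  /-- edge rules -/
  ed : ι → Γ → Γ → Prop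

variable {ι ι' κ σ : Type}

open scoped Classical in
/-- Increase the coordinate `i` by one. -/
noncomputable def bump (r : ι → ℕ) (i : ι) : ι → ℕ := fun k => if k = i then r k + 1 else r k

theorem bump_self (r : ι → ℕ) (i : ι) : bump r i i = r i + 1 := by simp [bump]

theorem bump_ne (r : ι → ℕ) {i k : ι} (h : k ≠ i) : bump r i k = r k := by simp [bump, h]

theorem bump_eq_update [DecidableEq ι] (r : ι → ℕ) (i : ι) : bump r i = update r i (r i + 1) := by
  funext k
  by_cases h : k = i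
  · subst h; rw [bump_self, update_self]
  · rw [bump_ne r h, update_of_ne h]

/-- Solutions. -/
def Sys.Sol (S : Sys ι) (F : (ι → ℕ) → S.Γ) : Prop :=
  (∀ r, S.pw (fun i => r i = 0) (F r)) ∧ ∀ r i, S.ed i (F r) (F (bump r i))

/-- `S` has a solution, and all solutions agree on the bit `β`. -/
def Forces (S : Sys ι) (β : S.Γ → Prop) (R : (ι → ℕ) → Prop) : Prop :=
  (∃ F, S.Sol F) ∧ ∀ F, S.Sol F → ∀ r, β (F r) ↔ R r

/-- Pull back a system along an injection. -/
def Sys.pull (S : Sys ι) (j : ι → ι') : Sys ι' where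
  Γ := S.Γ
  fin := S.fin
  pw f γ := S.pw (fun i => f (j i)) γ
  ed x γ γ' := ∀ i, j i = x → S.ed i γ γ'

theorem bump_comp_inj {j : ι → ι'} (hj : Injective j)
    (r : ι' → ℕ) (i : ι) : bump r (j i) ∘ j = bump (r ∘ j) i := by
  funext k
  by_cases h : k = i
  · subst h; simp [bump_self]
  · have : j k ≠ j i := fun h' => h (hj h')
    simp [bump_ne _ h, bump_ne _ this]

theorem extend_bump {j : ι → ι'} (hj : Injective j)
    (r : ι → ℕ) (r' : ι' → ℕ) (i : ι) :
    extend j (bump r i) r' = bump (extend j r r') (j i) := by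
  funext x
  by_cases hx : ∃ k, j k = x
  · obtain ⟨k, rfl⟩ := hx
    rw [hj.extend_apply]
    by_cases h : k = i
    · subst h; rw [bump_self, bump_self, hj.extend_apply]
    · have : j k ≠ j i := fun h' => h (hj h')
      rw [bump_ne _ h, bump_ne _ this, hj.extend_apply]
  · rw [extend_apply' _ _ _ hx]
    have : x ≠ j i := fun h => hx ⟨i, h.symm⟩
    rw [bump_ne _ this, extend_apply' _ _ _ hx]

theorem extend_self {j : ι → ι'} (hj : Injective j) (r' : ι' → ℕ) :
    extend j (r' ∘ j) r' = r' := by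
  funext x
  by_cases hx : ∃ k, j k = x
  · obtain ⟨k, rfl⟩ := hx
    rw [hj.extend_apply]; rfl
  · rw [extend_apply' _ _ _ hx]

theorem Sys.Sol.pull {S : Sys ι} {F : (ι → ℕ) → S.Γ}
    (h : S.Sol F) {j : ι → ι'} (hj : Injective j) :
    (S.pull j).Sol (fun r => F (r ∘ j)) := by
  refine ⟨fun r => h.1 (r ∘ j), fun r x i hi => ?_⟩
  subst hi
  simp only
  rw [bump_comp_inj hj]
  exact h.2 _ _

theorem Sys.Sol.slice {S : Sys ι} {j : ι → ι'}
    (hj : Injective j) {F : (ι' → ℕ) → S.Γ} (h : (S.pull j).Sol F) (r' : ι' → ℕ) :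
    S.Sol (fun r => F (extend j r r')) := by
  refine ⟨fun r => ?_, fun r i => ?_⟩
  · have := h.1 (extend j r r')
    simpa [Sys.pull, hj.extend_apply] using this
  · have := h.2 (extend j r r') (j i) i rfl
    simp only
    rwa [extend_bump hj]

theorem Forces.pull {S : Sys ι} {β : S.Γ → Prop}
    {R : (ι → ℕ) → Prop} (h : Forces S β R) {j : ι → ι'} (hj : Injective j) :
    Forces (S.pull j) β (fun r => R (r ∘ j)) := by
  obtain ⟨⟨F, hF⟩, hu⟩ := h
  refine ⟨⟨_, hF.pull hj⟩, fun G hG r => ?_⟩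
  have := hu _ (hG.slice hj r) (r ∘ j)
  rwa [extend_self hj] at this

/-- Product of two systems. -/
def Sys.prod (S T : Sys ι) : Sys ι where
  Γ := S.Γ × T.Γ
  fin := by
    have := S.fin
    have := T.fin
    infer_instance
  pw f γ := S.pw f γ.1 ∧ T.pw f γ.2
  ed i γ γ' := S.ed i γ.1 γ'.1 ∧ T.ed i γ.2 γ'.2

theorem Sys.sol_prod {S T : Sys ι} {F : (ι → ℕ) → S.Γ × T.Γ} :
    (S.prod T).Sol F ↔ S.Sol (fun r => (F r).1) ∧ T.Sol (fun r => (F r).2) := by
  constructor
  · rintro ⟨h1, h2⟩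
    exact ⟨⟨fun r => (h1 r).1, fun r i => (h2 r i).1⟩, ⟨fun r => (h1 r).2, fun r i => (h2 r i).2⟩⟩
  · rintro ⟨⟨h1, h2⟩, ⟨h3, h4⟩⟩
    exact ⟨fun r => ⟨h1 r, h3 r⟩, fun r i => ⟨h2 r i, h4 r i⟩⟩

theorem Forces.prod {S T : Sys ι} {β : S.Γ → Prop} {β' : T.Γ → Prop}
    {R R' : (ι → ℕ) → Prop} (h : Forces S β R) (h' : Forces T β' R') :
    Forces (S.prod T) (fun γ => β γ.1) R ∧ Forces (S.prod T) (fun γ => β' γ.2) R' := by
  obtain ⟨⟨F, hF⟩, hu⟩ := h
  obtain ⟨⟨F', hF'⟩, hu'⟩ := h'
  have hs : (S.prod T).Sol (fun r => (F r, F' r)) := Sys.sol_prod.2 ⟨hF, hF'⟩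
  exact ⟨⟨⟨_, hs⟩, fun G hG r => hu _ (Sys.sol_prod.1 hG).1 r⟩,
    ⟨⟨_, hs⟩, fun G hG r => hu' _ (Sys.sol_prod.1 hG).2 r⟩⟩

/-- Add a layer. -/
def Sys.ext (S : Sys ι) (Δ : Type) [Finite Δ] (pw' : (ι → Prop) → S.Γ → Δ → Prop)
    (ed' : ι → S.Γ → Δ → S.Γ → Δ → Prop) : Sys ι where
  Γ := S.Γ × Δ
  fin := by
    have := S.fin
    infer_instance
  pw f γ := S.pw f γ.1 ∧ pw' f γ.1 γ.2
  ed i γ γ' := S.ed i γ.1 γ'.1 ∧ ed' i γ.1 γ.2 γ'.1 γ'.2

theorem Sys.sol_ext {S : Sys ι} {Δ : Type} [Finite Δ]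
    {pw' : (ι → Prop) → S.Γ → Δ → Prop} {ed' : ι → S.Γ → Δ → S.Γ → Δ → Prop}
    {F : (ι → ℕ) → S.Γ × Δ} :
    (S.ext Δ pw' ed').Sol F ↔ S.Sol (fun r => (F r).1) ∧
      (∀ r, pw' (fun i => r i = 0) (F r).1 (F r).2) ∧
      (∀ r i, ed' i (F r).1 (F r).2 (F (bump r i)).1 (F (bump r i)).2) := by
  constructor
  · rintro ⟨h1, h2⟩
    exact ⟨⟨fun r => (h1 r).1, fun r i => (h2 r i).1⟩, fun r => (h1 r).2, fun r i => (h2 r i).2⟩
  · rintro ⟨⟨h1, h2⟩, h3, h4⟩
    exact ⟨fun r => ⟨h1 r, h3 r⟩, fun r i => ⟨h2 r i, h4 r i⟩⟩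

/-- A relation is forceable when, after adding some dimensions, it is forced by a system. -/
def Forceable (R : (ι → ℕ) → Prop) : Prop :=
  ∃ (κ : Type) (_ : Finite κ) (S : Sys (ι ⊕ κ)) (β : S.Γ → Prop),
    Forces S β (fun r => R (r ∘ Sum.inl))

theorem Forceable.of_forces [Finite ι'] {R : (ι → ℕ) → Prop} {S : Sys ι'}
    {β : S.Γ → Prop} {j : ι → ι'} (hj : Injective j) (h : Forces S β (fun r => R (r ∘ j))) :
    Forceable R := by
  classical
  let k : ι' → ι ⊕ ι' := fun x => if hx : ∃ i, j i = x then Sum.inl hx.choose else Sum.inr x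
  have hk : Injective k := by
    intro x y hxy
    by_cases hx : ∃ i, j i = x <;> by_cases hy : ∃ i, j i = y
    · simp only [k, hx, hy, dif_pos] at hxy
      rw [← hx.choose_spec, ← hy.choose_spec, Sum.inl.inj hxy]
    · simp only [k, hx, hy, dif_pos, dif_neg, not_false_iff] at hxy
      exact absurd hxy (by simp)
    · simp only [k, hx, hy, dif_pos, dif_neg, not_false_iff] at hxy
      exact absurd hxy (by simp)
    · simp only [k, hx, hy, dif_neg, not_false_iff] at hxy
      exact Sum.inr.inj hxy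
  have hkj : k ∘ j = Sum.inl := by
    funext i
    have hx : ∃ i', j i' = j i := ⟨i, rfl⟩
    simp only [k, comp_apply, hx, dif_pos]
    rw [hj hx.choose_spec]
  refine ⟨ι', inferInstance, S.pull k, β, ?_⟩
  have := h.pull hk
  simpa only [comp_assoc, hkj] using this

/-- Two forceable relations are forced by a common system. -/
theorem Forceable.common {R R' : (ι → ℕ) → Prop} (h : Forceable R) (h' : Forceable R') :
    ∃ (κ : Type) (_ : Finite κ) (S : Sys (ι ⊕ κ)) (β β' : S.Γ → Prop),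
      Forces S β (fun r => R (r ∘ Sum.inl)) ∧ Forces S β' (fun r => R' (r ∘ Sum.inl)) := by
  obtain ⟨κ, hκ, S, β, hS⟩ := h
  obtain ⟨κ', hκ', S', β', hS'⟩ := h'
  have j1 : Injective (Sum.map id Sum.inl : ι ⊕ κ → ι ⊕ (κ ⊕ κ')) :=
    Sum.map_injective.2 ⟨injective_id, Sum.inl_injective⟩
  have j2 : Injective (Sum.map id Sum.inr : ι ⊕ κ' → ι ⊕ (κ ⊕ κ')) :=
    Sum.map_injective.2 ⟨injective_id, Sum.inr_injective⟩
  have := (hS.pull j1).prod (hS'.pull j2)
  exact ⟨κ ⊕ κ', inferInstance, _, _, _, this⟩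

theorem Forceable.pull [Finite ι'] {R : (ι → ℕ) → Prop} (h : Forceable R) {j : ι → ι'}
    (hj : Injective j) : Forceable (fun r => R (r ∘ j)) := by
  obtain ⟨κ, hκ, S, β, hS⟩ := h
  have j1 : Injective (Sum.map j id : ι ⊕ κ → ι' ⊕ κ) :=
    Sum.map_injective.2 ⟨hj, injective_id⟩
  exact ⟨κ, hκ, _, _, hS.pull j1⟩

theorem Forceable.op {R R' : (ι → ℕ) → Prop} (h : Forceable R) (h' : Forceable R')
    (f : Prop → Prop → Prop) : Forceable (fun r => f (R r) (R' r)) := by
  obtain ⟨κ, hκ, S, β, β', h1, h2⟩ := h.common h'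
  refine ⟨κ, hκ, S, fun γ => f (β γ) (β' γ), h1.1, fun F hF r => ?_⟩
  have e1 := propext (h1.2 F hF r)
  have e2 := propext (h2.2 F hF r)
  simp only [e1, e2]

/-- The trivial system. -/
def Sys.triv (ι : Type) : Sys ι := ⟨Unit, inferInstance, fun _ _ => True, fun _ _ _ => True⟩

theorem Sys.triv_sol (F : (ι → ℕ) → Unit) : (Sys.triv ι).Sol F :=
  ⟨fun _ => trivial, fun _ _ => trivial⟩

theorem Forceable.true [Finite ι] : Forceable (fun _ : ι → ℕ => True) :=
  ⟨Empty, inferInstance, Sys.triv _, fun _ => True, ⟨⟨fun _ => (), Sys.triv_sol _⟩,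
    fun _ _ _ => Iff.rfl⟩⟩

theorem Forceable.forall_finset [Finite ι] {α : Type} (s : Finset α)
    (R : α → (ι → ℕ) → Prop) (h : ∀ a ∈ s, Forceable (R a)) :
    Forceable (fun r => ∀ a ∈ s, R a r) := by
  classical
  induction s using Finset.induction_on with
  | empty => simpa using Forceable.true
  | insert a s _ ih =>
    have h1 := h a (Finset.mem_insert_self a s)
    have h2 := ih (fun b hb => h b (Finset.mem_insert_of_mem hb))
    have := h1.op h2 And
    simpa only [Finset.forall_mem_insert] using this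

/-- A relation forceable after adding coordinates it does not depend on. -/
theorem Forceable.of_pull [Finite ι'] {R : (ι → ℕ) → Prop} {j : ι → ι'} (hj : Injective j)
    (h : Forceable (fun r => R (r ∘ j))) : Forceable R := by
  obtain ⟨κ, hκ, S, β, hS⟩ := h
  have hj' : Injective (Sum.inl ∘ j : ι → ι' ⊕ κ) := Sum.inl_injective.comp hj
  exact Forceable.of_forces hj' hS

theorem bump_update [DecidableEq ι] (r : ι → ℕ) (i : ι) (m : ℕ) :
    bump (update r i m) i = update r i (m + 1) := by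
  rw [bump_eq_update, update_self, update_idem]

/-- A function constant in the directions of `D` only depends on the other coordinates. -/
theorem const_of_bump [Finite ι] {β : Type} (b : (ι → ℕ) → β) (D : Set ι)
    (h : ∀ r, ∀ i ∈ D, b (bump r i) = b r) (r r' : ι → ℕ) (hrr : ∀ i ∉ D, r i = r' i) :
    b r = b r' := by
  classical
  have single : ∀ r, ∀ i ∈ D, ∀ m, b (update r i m) = b r := by
    intro r i hi
    have h0 : ∀ m, b (update r i m) = b (update r i 0) := by
      intro m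
      induction m with
      | zero => rfl
      | succ m ih => rw [← bump_update, h _ i hi, ih]
    intro m
    rw [h0 m, ← h0 (r i), update_eq_self]
  have key : ∀ (s : Finset ι), (∀ i ∈ s, i ∈ D) → ∀ r r' : ι → ℕ, (∀ i ∉ s, r i = r' i) →
      b r = b r' := by
    intro s
    induction s using Finset.induction_on with
    | empty =>
      intro _ r r' hr
      rw [show r = r' from funext fun i => hr i (Finset.notMem_empty i)]
    | insert a s ha ih =>
      intro hs r r' hr
      rw [← single r a (hs a (Finset.mem_insert_self a s)) (r' a)]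
      apply ih (fun i hi => hs i (Finset.mem_insert_of_mem hi))
      intro i hi
      by_cases hia : i = a
      · subst hia; simp
      · rw [update_of_ne hia]
        exact hr i (by simp [hia, hi])
  have := Fintype.ofFinite ι
  refine key (Finset.univ.filter (· ∈ D)) (by simp) r r' (fun i hi => hrr i ?_)
  simpa using hi

theorem Forceable.common3 {R R' R'' : (ι → ℕ) → Prop} (h : Forceable R) (h' : Forceable R')
    (h'' : Forceable R'') :
    ∃ (κ : Type) (_ : Finite κ) (S : Sys (ι ⊕ κ)) (β β' β'' : S.Γ → Prop),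
      Forces S β (fun r => R (r ∘ Sum.inl)) ∧ Forces S β' (fun r => R' (r ∘ Sum.inl)) ∧
      Forces S β'' (fun r => R'' (r ∘ Sum.inl)) := by
  obtain ⟨κ, hκ, S, β0, hS0⟩ := h
  obtain ⟨κ', hκ', S', β1, β2, hS1, hS2⟩ := h'.common h''
  have j1 : Injective (Sum.map id Sum.inl : ι ⊕ κ → ι ⊕ (κ ⊕ κ')) :=
    Sum.map_injective.2 ⟨injective_id, Sum.inl_injective⟩
  have j2 : Injective (Sum.map id Sum.inr : ι ⊕ κ' → ι ⊕ (κ ⊕ κ')) :=
    Sum.map_injective.2 ⟨injective_id, Sum.inr_injective⟩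
  have k0 := ((hS0.pull j1).prod (hS1.pull j2)).1
  have k1 := ((hS0.pull j1).prod (hS1.pull j2)).2
  have k2 := ((hS0.pull j1).prod (hS2.pull j2)).2
  exact ⟨κ ⊕ κ', inferInstance, _, _, _, _, k0, k1, k2⟩

/-- Composition. -/
theorem Forceable.comp [Finite ι] [Finite σ] {Rg R : (ι ⊕ σ → ℕ) → Prop} {R' : (ι → ℕ) → Prop}
    (hg : Forceable Rg) (hR : Forceable R) (hex : ∀ a : ι → ℕ, ∃ s : σ → ℕ, Rg (Sum.elim a s))
    (hiff : ∀ r, Rg r → (R' (r ∘ Sum.inl) ↔ R r)) : Forceable R' := by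
  obtain ⟨κ, hκ, S, βg, β, ⟨⟨F, hF⟩, hug⟩, ⟨_, hu⟩⟩ := hg.common hR
  have hj : Injective (Sum.inl ∘ Sum.inl : ι → (ι ⊕ σ) ⊕ κ) :=
    Sum.inl_injective.comp Sum.inl_injective
  refine Forceable.of_forces (S := S.ext Prop (fun _ γ δ => βg γ → (δ ↔ β γ))
    (fun x _ δ _ δ' => (∀ i, x ≠ Sum.inl (Sum.inl i)) → δ' = δ))
    (β := fun γ => γ.2) hj ⟨⟨fun r => (F r, R' (r ∘ (Sum.inl ∘ Sum.inl))), ?_⟩, ?_⟩
  · rw [Sys.sol_ext]
    refine ⟨hF, fun r hg => ?_, fun r x hx => ?_⟩
    · simp only at hg ⊢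
      have hg' := (hug F hF r).1 hg
      rw [hu F hF]
      exact hiff _ hg'
    · simp only
      congr 1
      funext i
      simp only [comp_apply]
      rw [bump_ne]
      exact (hx i).symm
  · intro G hG r
    have hG' := Sys.sol_ext.1 hG
    obtain ⟨hG1, hG2, hG3⟩ := hG'
    obtain ⟨s, hs⟩ := hex (r ∘ (Sum.inl ∘ Sum.inl))
    let r' : (ι ⊕ σ) ⊕ κ → ℕ := Sum.elim (Sum.elim (r ∘ (Sum.inl ∘ Sum.inl)) s) (r ∘ Sum.inr)
    have hc : (G r).2 = (G r').2 := by
      apply const_of_bump (fun r => (G r).2) {x | ∀ i, x ≠ Sum.inl (Sum.inl i)}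
        (fun r i hi => hG3 r i hi)
      intro x hx
      simp only [Set.mem_ofPred_eq, not_forall, not_not] at hx
      obtain ⟨i, rfl⟩ := hx
      rfl
    have e : r' ∘ Sum.inl = Sum.elim (r ∘ (Sum.inl ∘ Sum.inl)) s := by
      funext x; rfl
    have h1 : βg (G r').1 := by
      refine (hug _ hG1 r').2 ?_
      simp only
      rw [e]
      exact hs
    have h2 := hG2 r' h1
    have h3 := hiff (r' ∘ Sum.inl) (by rw [e]; exact hs)
    simp only at hc ⊢
    rw [hc, h2]
    refine (hu _ hG1 r').trans ?_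
    simp only
    rw [← h3, e]
    rfl

/-- Primitive recursion. The coordinates `inr 0`, `inr 1`, `inr 2` are the argument of the
recursion, the previous value and the value. -/
theorem Forceable.prec [Finite ι] {f : (ι → ℕ) → ℕ} {g : ℕ → ℕ → (ι → ℕ) → ℕ}
    {h : ℕ → (ι → ℕ) → ℕ} (h0 : ∀ v, h 0 v = f v) (h1 : ∀ m v, h (m + 1) v = g m (h m v) v)
    (hf : Forceable (fun r : ι ⊕ Fin 3 → ℕ => f (r ∘ Sum.inl) = r (Sum.inr 2)))
    (hg : Forceable (fun r : ι ⊕ Fin 3 → ℕ => g (r (Sum.inr 0)) (r (Sum.inr 1)) (r ∘ Sum.inl) =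
      r (Sum.inr 2)))
    (he : Forceable (fun r : ι ⊕ Fin 3 → ℕ => r (Sum.inr 1) = r (Sum.inr 2))) :
    Forceable (fun r : ι ⊕ Fin 3 → ℕ => h (r (Sum.inr 0)) (r ∘ Sum.inl) = r (Sum.inr 2)) := by
  obtain ⟨κ, hκ, S, β0, β1, β2, ⟨⟨F, hF⟩, k0⟩, ⟨_, k1⟩, ⟨_, k2⟩⟩ := hf.common3 hg he
  let m' : (ι ⊕ Fin 3) ⊕ κ := Sum.inl (Sum.inr 0)
  let b' : (ι ⊕ Fin 3) ⊕ κ := Sum.inl (Sum.inr 1)
  let c' : (ι ⊕ Fin 3) ⊕ κ := Sum.inl (Sum.inr 2)
  let V : ((ι ⊕ Fin 3) ⊕ κ → ℕ) → (ι → ℕ) := fun r i => r (Sum.inl (Sum.inl i))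
  have hmb : m' ≠ b' := by simp [m', b']
  have hmc : m' ≠ c' := by simp [m', c']
  have hbc : b' ≠ c' := by simp [b', c']
  have hVm : ∀ r, V (bump r m') = V r := fun r => funext fun i => bump_ne _ (by simp [m'])
  have hVb : ∀ r, V (bump r b') = V r := fun r => funext fun i => bump_ne _ (by simp [b'])
  have hVc : ∀ r, V (bump r c') = V r := fun r => funext fun i => bump_ne _ (by simp [c'])
  refine Forceable.of_forces (S := S.ext (Prop × Prop)
    (fun fl γ δ => (β2 γ → (δ.1 ↔ δ.2)) ∧ (fl m' → (δ.2 ↔ β0 γ)))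
    (fun x γ δ _ δ' => (x = c' → δ'.1 = δ.1) ∧ (x = b' → δ'.2 = δ.2) ∧
      (x = m' → δ.1 → (δ'.2 ↔ β1 γ))))
    (β := fun γ => γ.2.2) (Sum.inl_injective)
    ⟨⟨fun r => (F r, (h (r m') (V r) = r b', h (r m') (V r) = r c')), ?_⟩, ?_⟩
  · rw [Sys.sol_ext]
    refine ⟨hF, fun r => ⟨fun hb => ?_, fun hm => ?_⟩, fun r x => ⟨?_, ?_, ?_⟩⟩
    · have e : r b' = r c' := (k2 F hF r).1 hb
      simp only
      rw [e]
    · simp only at hm ⊢
      rw [hm, h0]
      exact (k0 F hF r).symm
    · rintro rfl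
      simp only
      rw [bump_ne _ hmc, hVc, bump_ne _ hbc]
    · rintro rfl
      simp only
      rw [bump_ne _ hmb, hVb, bump_ne _ hbc.symm]
    · rintro rfl hb
      simp only at hb ⊢
      rw [bump_self, h1, hVm, bump_ne _ hmc.symm, hb]
      exact (k1 F hF r).symm
  · intro G hG r
    classical
    obtain ⟨hG1, hG2, hG3⟩ := Sys.sol_ext.1 hG
    -- constancy
    have cc : ∀ r s, (∀ x, x ≠ c' → r x = s x) → (G r).2.1 = (G s).2.1 := by
      intro r s hrs
      have : Finite ((ι ⊕ Fin 3) ⊕ κ) := inferInstance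
      apply const_of_bump (fun r => (G r).2.1) {c'} (fun r i hi => (hG3 r i).1 hi)
      intro x hx
      exact hrs x (by simpa using hx)
    have cb : ∀ r s, (∀ x, x ≠ b' → r x = s x) → (G r).2.2 = (G s).2.2 := by
      intro r s hrs
      apply const_of_bump (fun r => (G r).2.2) {b'} (fun r i hi => (hG3 r i).2.1 hi)
      intro x hx
      exact hrs x (by simpa using hx)
    have key : ∀ m r, r m' = m → ((G r).2.2 ↔ h m (V r) = r c') := by
      intro m
      induction m with
      | zero =>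
        intro r hr
        rw [(hG2 r).2 hr, h0]
        exact k0 _ hG1 r
      | succ m ih =>
        intro r hr
        let r1 := update (update r m' m) b' (h m (V r))
        have hV : V r1 = V r := by
          funext i
          simp only [V, r1]
          rw [update_of_ne (by simp [b']), update_of_ne (by simp [m'])]
        let r2 := update r1 c' (h m (V r))
        have hV2 : V r2 = V r := by
          rw [← hV]
          funext i
          simp only [V, r2]
          rw [update_of_ne (by simp [c'])]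
        have e1 : r1 m' = m := by
          simp only [r1]
          rw [update_of_ne hmb, update_self]
        have e2 : r2 m' = m := by
          simp only [r2]
          rw [update_of_ne hmc, e1]
        have e3 : r1 b' = h m (V r) := by simp only [r1]; rw [update_self]
        have e4 : r2 b' = h m (V r) := by
          simp only [r2]
          rw [update_of_ne hbc, e3]
        have e5 : r2 c' = h m (V r) := by simp only [r2]; rw [update_self]
        have h2 : (G r1).2.1 := by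
          rw [cc r1 r2 (fun x hx => by simp only [r2]; rw [update_of_ne hx])]
          rw [(hG2 r2).1 ((k2 _ hG1 r2).2 (e4.trans e5.symm)), ih r2 e2, hV2, e5]
        have h3 := (hG3 r1 m').2.2 rfl h2
        have h4 : (G r).2.2 = (G (bump r1 m')).2.2 := by
          apply cb
          intro x hx
          by_cases hxm : x = m'
          · subst hxm
            rw [bump_self, e1, hr]
          · rw [bump_ne _ hxm]
            simp only [r1]
            rw [update_of_ne hx, update_of_ne hxm]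
        rw [h4, h3, h1]
        refine (k1 _ hG1 r1).trans ?_
        have e6 : r1 c' = r c' := by
          simp only [r1]
          rw [update_of_ne hbc.symm, update_of_ne hmc.symm]
        have : (fun i => r1 (Sum.inl (Sum.inl i))) = V r := hV
        change g (r1 m') (r1 b') (V r1) = r1 c' ↔ _
        rw [e1, e3, e6, hV]
    exact key _ r rfl

end Pool.Agent.H51
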