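import Mathlib
import Pool.Agent.Lib.H51.Quad

set_option autoImplicit false

/-!
# Graphs of primitive recursive functions are forceable
-/

namespace Pool.Agent.H51

open Function

variable {ι ι' κ σ : Type}

theorem forceable_eq_succ : Forceable (fun r : Fin 2 → ℕ => r 0 = r 1) ∧
    Forceable (fun r : Fin 2 → ℕ => r 0 = r 1 + 1) := by
  let S : Sys (Fin 2) :=
    { Γ := Prop × Prop
      fin := inferInstance
      pw := fun f γ => (f 0 ∨ f 1) → (γ.1 ↔ (f 0 ∧ f 1))
      ed := fun i γ γ' => (i = 0 → (γ'.2 ↔ γ.1)) ∧ (i = 1 → (γ.2 ↔ γ'.1)) }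
  have hsol : S.Sol (fun r => (r 0 = r 1, r 0 = r 1 + 1)) := by
    refine ⟨fun r h => ?_, fun r i => ⟨?_, ?_⟩⟩
    · simp only at h ⊢
      omega
    · rintro rfl
      simp only
      rw [bump_self, bump_ne _ (by decide)]
      omega
    · rintro rfl
      simp only
      rw [bump_self, bump_ne _ (by decide)]
  have huniq : ∀ F, S.Sol F → ∀ r, ((F r).1 ↔ r 0 = r 1) := by
    intro F hF
    have key : ∀ n, ∀ r : Fin 2 → ℕ, r 0 = n → ((F r).1 ↔ r 0 = r 1) := by
      intro n
      induction n with
      | zero =>
        intro r hr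
        have : (F r).1 ↔ (r 0 = 0 ∧ r 1 = 0) := hF.1 r (Or.inl hr)
        rw [this]
        omega
      | succ n ih =>
        intro r hr
        by_cases h1 : r 1 = 0
        · have : (F r).1 ↔ (r 0 = 0 ∧ r 1 = 0) := hF.1 r (Or.inr h1)
          rw [this]
          omega
        · let r' : Fin 2 → ℕ := ![n, r 1 - 1]
          have e1 : bump (bump r' 0) 1 = r := by
            funext i
            fin_cases i
            · simp [bump, r', hr]
            · simp [bump, r']; omega
          have h2 := (hF.2 r' 0).1 rfl
          have h3 := (hF.2 (bump r' 0) 1).2 rfl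
          rw [e1] at h3
          rw [← h3, h2, ih r' rfl]
          simp [r']
          omega
    exact fun r => key _ r rfl
  have h1 : Forces S (fun γ => γ.1) (fun r => r 0 = r 1) := ⟨⟨_, hsol⟩, huniq⟩
  have h2 : Forces S (fun γ => γ.2) (fun r => r 0 = r 1 + 1) := by
    refine ⟨⟨_, hsol⟩, fun F hF r => ?_⟩
    have h3 := (hF.2 r 1).2 rfl
    simp only
    rw [h3, huniq F hF, bump_self, bump_ne _ (by decide)]
  exact ⟨Forceable.of_forces (j := id) injective_id h1,
    Forceable.of_forces (j := id) injective_id h2⟩

theorem forceable_zero [Finite ι] (i : ι) : Forceable (fun r : ι → ℕ => 0 = r i) := by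
  let S : Sys ι :=
    { Γ := Prop
      fin := inferInstance
      pw := fun f γ => γ ↔ f i
      ed := fun _ _ _ => True }
  have h : Forces S (fun γ => γ) (fun r => 0 = r i) := by
    refine ⟨⟨fun r => r i = 0, fun r => Iff.rfl, fun _ _ => trivial⟩, fun F hF r => ?_⟩
    have := hF.1 r
    simp only [S] at this
    rw [this, eq_comm]
  exact Forceable.of_forces (j := id) injective_id h

theorem forceable_eq [Finite ι] (i k : ι) (h : i ≠ k) :
    Forceable (fun r : ι → ℕ => r i = r k) := by
  have hj : Injective (![i, k] : Fin 2 → ι) := by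
    intro a b hab
    fin_cases a <;> fin_cases b <;> simp_all
  simpa using forceable_eq_succ.1.pull hj

theorem forceable_succ [Finite ι] (i k : ι) (h : i ≠ k) :
    Forceable (fun r : ι → ℕ => r i = r k + 1) := by
  have hj : Injective (![i, k] : Fin 2 → ι) := by
    intro a b hab
    fin_cases a <;> fin_cases b <;> simp_all
  simpa using forceable_eq_succ.2.pull hj

/-- The graph of a function. -/
def Gr {n : ℕ} (f : List.Vector ℕ n → ℕ) : (Fin n ⊕ Unit → ℕ) → Prop := fun r =>
  f (List.Vector.ofFn fun i => r (Sum.inl i)) = r (Sum.inr ())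

theorem forceable_graph {n : ℕ} {f : List.Vector ℕ n → ℕ} (hf : Nat.Primrec' f) :
    Forceable (Gr f) := by
  induction hf with
  | zero => exact forceable_zero _
  | succ =>
    have := forceable_succ (ι := Fin 1 ⊕ Unit) (Sum.inr ()) (Sum.inl 0) (by simp)
    convert this using 2 with r
    simp only [Gr]
    rw [eq_comm]
    simp [List.Vector.ofFn]
  | get i =>
    have := forceable_eq (Sum.inl i) (Sum.inr ()) (by simp)
    convert this using 2 with r
    simp [Gr]
  | @comp m n f g hf hg ihf ihg =>
    have hj : Injective (Sum.elim (fun i => Sum.inr i) (fun _ => Sum.inl (Sum.inr ())) :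
        Fin n ⊕ Unit → (Fin m ⊕ Unit) ⊕ Fin n) := by
      rintro (a | a) (b | b) hab <;> simp_all
    have hg' : Forceable (fun r : (Fin m ⊕ Unit) ⊕ Fin n → ℕ => ∀ i ∈ (Finset.univ : Finset (Fin n)),
        g i (List.Vector.ofFn fun k => r (Sum.inl (Sum.inl k))) = r (Sum.inr i)) := by
      apply Forceable.forall_finset
      intro i _
      have hj : Injective (Sum.elim (fun k => Sum.inl (Sum.inl k)) (fun _ => Sum.inr i) :
          Fin m ⊕ Unit → (Fin m ⊕ Unit) ⊕ Fin n) := by
        rintro (a | a) (b | b) hab <;> simp_all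
      exact (ihg i).pull hj
    refine Forceable.comp hg' (ihf.pull hj) ?_ ?_
    · intro a
      exact ⟨fun i => g i (List.Vector.ofFn fun k => a (Sum.inl k)), fun i _ => rfl⟩
    · intro r hr
      simp only [Gr, comp_apply, Sum.elim_inl, Sum.elim_inr]
      have : (fun i => g i (List.Vector.ofFn fun i => r (Sum.inl (Sum.inl i)))) =
          fun i => r (Sum.inr i) := funext fun i => hr i (Finset.mem_univ i)
      rw [this]
  | @prec n f g hf hg ihf ihg =>
    let h : ℕ → (Fin n → ℕ) → ℕ := fun m v =>
      Nat.rec (f (List.Vector.ofFn v))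
        (fun y IH => g (y ::ᵥ IH ::ᵥ List.Vector.ofFn v)) m
    have hj0 : Injective (Sum.elim (fun k => Sum.inl k) (fun _ => Sum.inr 2) :
        Fin n ⊕ Unit → Fin n ⊕ Fin 3) := by
      rintro (a | a) (b | b) hab <;> simp_all
    have hj1 : Injective (Sum.elim (Fin.cons (Sum.inr 0) (Fin.cons (Sum.inr 1) fun k => Sum.inl k))
        (fun _ => Sum.inr 2) : Fin (n + 2) ⊕ Unit → Fin n ⊕ Fin 3) := by
      rintro (a | a) (b | b) hab
      · refine congrArg _ ?_
        revert hab
        refine Fin.cases ?_ (fun a => ?_) a <;> refine Fin.cases ?_ (fun b => ?_) b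
        · simp
        · refine Fin.cases ?_ (fun b => ?_) b <;> simp
        · refine Fin.cases ?_ (fun a => ?_) a <;> simp
        · refine Fin.cases ?_ (fun a => ?_) a <;> refine Fin.cases ?_ (fun b => ?_) b <;> simp
      · exfalso
        revert hab
        refine Fin.cases ?_ (fun a => ?_) a
        · simp
        · refine Fin.cases ?_ (fun a => ?_) a <;> simp
      · exfalso
        revert hab
        refine Fin.cases ?_ (fun b => ?_) b
        · simp
        · refine Fin.cases ?_ (fun b => ?_) b <;> simp
      · rfl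
    have k := Forceable.prec (ι := Fin n) (f := fun v => f (List.Vector.ofFn v))
      (g := fun m b v => g (m ::ᵥ b ::ᵥ List.Vector.ofFn v)) (h := h) (fun v => rfl)
      (fun m v => rfl) (ihf.pull hj0) (by
        have := ihg.pull hj1
        convert this using 2 with r
        exact Iff.rfl) (forceable_eq _ _ (by simp))
    have hj : Injective (Sum.elim (Fin.cons (Sum.inr 0) fun k => Sum.inl k) (fun _ => Sum.inr 2) :
        Fin (n + 1) ⊕ Unit → Fin n ⊕ Fin 3) := by
      rintro (a | a) (b | b) hab
      · refine congrArg _ ?_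
        revert hab
        refine Fin.cases ?_ (fun a => ?_) a <;> refine Fin.cases ?_ (fun b => ?_) b <;> simp
      · exfalso
        revert hab
        refine Fin.cases ?_ (fun a => ?_) a <;> simp
      · exfalso
        revert hab
        refine Fin.cases ?_ (fun b => ?_) b <;> simp
      · rfl
    refine Forceable.of_pull hj ?_
    convert k using 2 with r
    simp only [Gr, List.Vector.ofFn, List.Vector.head_cons, List.Vector.tail_cons]
    exact Iff.rfl

end Pool.Agent.H51
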