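import Mathlib
import Pool.Agent.Lib.H51.QuadPrim

set_option autoImplicit false

/-!
# A system without computable solutions
-/

namespace Pool.Agent.H51

open Function Nat.Partrec

/-- The program number `n`, run for `t` steps on the input `n`, outputs `v`. -/
def Tm (v n t : ℕ) : Prop := Code.evaln t (Denumerable.ofNat Code n) n = some v

open scoped Classical in
/-- Characteristic function of `Tm v` (with `0` for true). -/
noncomputable def chT (v n t : ℕ) : ℕ := if Tm v n t then 0 else 1

theorem chT_primrec (v : ℕ) : Primrec₂ (chT v) := by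
  have h1 : Primrec fun a : ℕ × ℕ => Code.evaln a.2 (Denumerable.ofNat Code a.1) a.1 := by
    have h2 : Primrec fun a : ℕ × ℕ => ((a.2, Denumerable.ofNat Code a.1), a.1) :=
      (Primrec.pair (Primrec.pair Primrec.snd ((Primrec.ofNat Code).comp Primrec.fst))
        Primrec.fst)
    exact Code.primrec_evaln.comp h2
  have h3 : PrimrecRel (fun a b : Option ℕ => a = b) := Primrec.eq
  have h4 : PrimrecPred (fun a : ℕ × ℕ =>
      Code.evaln a.2 (Denumerable.ofNat Code a.1) a.1 = some v) :=
    h3.comp h1 (Primrec.const (some v))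
  have h5 := Primrec.ite h4 (Primrec.const 0) (Primrec.const 1)
  refine h5.of_eq ?_
  rintro ⟨n, t⟩
  unfold chT Tm
  simp only
  split_ifs <;> rfl

theorem chT_eq_zero (v n t : ℕ) : chT v n t = 0 ↔ Tm v n t := by
  unfold chT
  split_ifs with h <;> simp [h]

theorem Tm_unique {v w n t s : ℕ} (h1 : Tm v n t) (h2 : Tm w n s) : v = w := by
  have h3 : v ∈ Code.eval (Denumerable.ofNat Code n) n := Code.evaln_complete.2 ⟨t, h1⟩
  have h4 : w ∈ Code.eval (Denumerable.ofNat Code n) n := Code.evaln_complete.2 ⟨s, h2⟩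
  exact Part.mem_unique h3 h4

/-- There is no computable separation. -/
theorem not_computable_sep (b : ℕ → Bool) (h0 : ∀ n, b n = false → ∀ t, ¬ Tm 0 n t)
    (h1 : ∀ n, b n = true → ∀ t, ¬ Tm 1 n t) : ¬ Computable b := by
  intro hb
  have hg : Computable (fun n => bif b n then 1 else 0 : ℕ → ℕ) :=
    Computable.cond hb (Computable.const 1) (Computable.const 0)
  have hp : Nat.Partrec (fun n => Part.some (bif b n then 1 else 0) : ℕ →. ℕ) := by
    have := hg.partrec
    exact Partrec.nat_iff.1 this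
  obtain ⟨c, hc⟩ := Code.exists_code.1 hp
  have key : (bif b (Encodable.encode c) then 1 else 0) ∈
      Code.eval (Denumerable.ofNat Code (Encodable.encode c)) (Encodable.encode c) := by
    rw [Denumerable.ofNat_encode, hc]
    simp
  obtain ⟨t, ht⟩ := Code.evaln_complete.1 key
  cases hbn : b (Encodable.encode c) with
  | false =>
    rw [hbn] at ht
    exact h0 _ hbn t ht
  | true =>
    rw [hbn] at ht
    exact h1 _ hbn t ht

theorem exists_sys : ∃ (M : ℕ) (S : Sys (Fin M)) (β : S.Γ → Bool) (i0 : Fin M),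
    (∃ F, S.Sol F) ∧ ∀ F, S.Sol F →
      ¬ Computable (fun n => β (F (fun i => if i = i0 then n else 0))) := by
  have hf0 := forceable_graph (Nat.Primrec'.prim_iff₂.2 (chT_primrec 0))
  have hf1 := forceable_graph (Nat.Primrec'.prim_iff₂.2 (chT_primrec 1))
  obtain ⟨κ, hκ, S, β0, β1, ⟨⟨F, hF⟩, hu0⟩, ⟨_, hu1⟩⟩ := hf0.common hf1
  have e0 : ∀ r : (Fin 2 ⊕ Unit) ⊕ κ → ℕ,
      Gr (fun v => chT 0 v.head v.tail.head) (r ∘ Sum.inl) ↔
      chT 0 (r (Sum.inl (Sum.inl 0))) (r (Sum.inl (Sum.inl 1))) = r (Sum.inl (Sum.inr ())) :=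
    fun r => Iff.rfl
  have e1 : ∀ r : (Fin 2 ⊕ Unit) ⊕ κ → ℕ,
      Gr (fun v => chT 1 v.head v.tail.head) (r ∘ Sum.inl) ↔
      chT 1 (r (Sum.inl (Sum.inl 0))) (r (Sum.inl (Sum.inl 1))) = r (Sum.inl (Sum.inr ())) :=
    fun r => Iff.rfl
  classical
  let pn : (Fin 2 ⊕ Unit) ⊕ κ := Sum.inl (Sum.inl 0)
  let pt : (Fin 2 ⊕ Unit) ⊕ κ := Sum.inl (Sum.inl 1)
  let py : (Fin 2 ⊕ Unit) ⊕ κ := Sum.inl (Sum.inr ())
  have hnt : pn ≠ pt := by simp [pn, pt]
  have hny : pn ≠ py := by simp [pn, py]
  have hty : pt ≠ py := by simp [pt, py]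
  let T : Sys ((Fin 2 ⊕ Unit) ⊕ κ) := S.ext Bool
    (fun fl γ δ => fl py → (δ = false → ¬ β0 γ) ∧ (δ = true → ¬ β1 γ))
    (fun x _ δ _ δ' => x ≠ pn → δ' = δ)
  have hTsol : T.Sol (fun r => (F r, decide (∃ t, Tm 0 (r pn) t))) := by
    refine Sys.sol_ext.2 ⟨hF, fun r hy => ⟨fun hd => ?_, fun hd => ?_⟩, fun r x hx => ?_⟩
    · simp only at hd hy ⊢
      rw [hu0 F hF]
      simp only
      rw [e0]
      change ¬ chT 0 (r pn) (r pt) = r py
      rw [hy, chT_eq_zero]
      intro hT
      simp only [decide_eq_false_iff_not, not_exists] at hd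
      exact hd _ hT
    · simp only at hd hy ⊢
      rw [hu1 F hF]
      simp only
      rw [e1]
      change ¬ chT 1 (r pn) (r pt) = r py
      rw [hy, chT_eq_zero]
      intro hT
      simp only [decide_eq_true_eq] at hd
      obtain ⟨t, ht⟩ := hd
      exact absurd (Tm_unique ht hT) (by norm_num)
    · simp only
      rw [bump_ne _ hx.symm]
  have hTall : ∀ G, T.Sol G → ¬ Computable (fun n => (G (fun x => if x = pn then n else 0)).2) := by
    intro G hG
    obtain ⟨hG1, hG2, hG3⟩ := Sys.sol_ext.1 hG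
    have hc : ∀ n t, (G (fun x => if x = pn then n else 0)).2 =
        (G (fun x => if x = pn then n else if x = pt then t else 0)).2 := by
      intro n t
      apply const_of_bump (fun r => (G r).2) {x | x ≠ pn} (fun r i hi => hG3 r i hi)
      intro x hx
      have : x = pn := by simpa using hx
      simp [this]
    apply not_computable_sep
    · intro n hn t hT
      rw [hc n t] at hn
      set r : (Fin 2 ⊕ Unit) ⊕ κ → ℕ := fun x => if x = pn then n else if x = pt then t else 0
        with hr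
      have rn : r pn = n := by simp [hr]
      have rt : r pt = t := by simp [hr, hnt.symm]
      have ry : r py = 0 := by simp [hr, hny.symm, hty.symm]
      refine (hG2 r ry).1 hn ((hu0 _ hG1 r).2 ?_)
      simp only
      rw [e0]
      change chT 0 (r pn) (r pt) = r py
      rw [rn, rt, ry, chT_eq_zero]
      exact hT
    · intro n hn t hT
      rw [hc n t] at hn
      set r : (Fin 2 ⊕ Unit) ⊕ κ → ℕ := fun x => if x = pn then n else if x = pt then t else 0
        with hr
      have rn : r pn = n := by simp [hr]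
      have rt : r pt = t := by simp [hr, hnt.symm]
      have ry : r py = 0 := by simp [hr, hny.symm, hty.symm]
      refine (hG2 r ry).2 hn ((hu1 _ hG1 r).2 ?_)
      simp only
      rw [e1]
      change chT 1 (r pn) (r pt) = r py
      rw [rn, rt, ry, chT_eq_zero]
      exact hT
  obtain ⟨M, ⟨e⟩⟩ := Finite.exists_equiv_fin ((Fin 2 ⊕ Unit) ⊕ κ)
  refine ⟨M, T.pull e, fun γ => γ.2, e pn, ⟨_, hTsol.pull e.injective⟩, fun G hG => ?_⟩
  have h1 := hG.slice e.injective (fun _ => 0)
  have h2 := hTall _ h1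
  intro h3
  apply h2
  have hfun : ∀ n : ℕ, extend e (fun x => if x = pn then n else 0) (fun _ => 0) =
      fun i => if i = e pn then n else 0 := by
    intro n
    funext x
    obtain ⟨y, rfl⟩ := e.surjective x
    rw [e.injective.extend_apply]
    simp
  simpa only [hfun] using h3

end Pool.Agent.H51
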