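import Mathlib
import Pool.Agent.Lib.H51.QuadMain
import Pool.Agent.Lib.H51.Ideal
import Pool.Agent.Lib.H51.Nrm

set_option autoImplicit false

/-!
# Lifting quadrant systems to `ℤⁿ`
-/

namespace Pool.Agent.H51

open Function

/-- Labels. -/
@[ext] structure Lab (M : ℕ) (Γ : Type) where
  m3 : Fin (M + 1) → ZMod 3
  zx : Fin M → Bool
  zu : Fin M → Bool
  dx : Fin M → Bool
  du : Fin M → Bool
  t : Fin M → ZMod 8
  s : Fin M → ZMod 8
  c : Fin M → Fin 5
  G : Γ
  P : Fin M → Γ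
  Q : Fin M → Γ

instance (M : ℕ) (Γ : Type) [Finite Γ] : Finite (Lab M Γ) := by
  have : Injective (fun l : Lab M Γ => ((l.m3, l.zx, l.zu, l.dx, l.du), (l.t, l.s, l.c),
      (l.G, l.P, l.Q))) := by
    intro a b h
    simp only [Prod.mk.injEq] at h
    ext1 <;> tauto
  exact Finite.of_injective _ this

/-- The symbol as an integer. -/
def Lab.cz {M : ℕ} {Γ : Type} (l : Lab M Γ) (i : Fin M) : ℤ := ((l.c i : ℕ) : ℤ) - 2

/-- The ideal labelling. -/
noncomputable def labI {M : ℕ} {Γ : Type} (F : (Fin M → ℕ) → Γ) (h : Fin (M + 1) → ℤ) :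
    Lab M Γ where
  m3 j := (h j : ZMod 3)
  zx i := zI (h i.succ)
  zu _ := zI (h 0)
  dx i := dI (h i.succ)
  du _ := dI (h 0)
  t i := tI (h i.succ) (h 0)
  s i := tI (h 0) (h i.succ)
  c i := ⟨(cI (h i.succ) (h 0) + 2).toNat, by unfold cI sy; omega⟩
  G := F fun k => lev (h k.succ)
  P i := F (update (fun k => lev (h k.succ)) i (lev (h 0)))
  Q i := F (update (fun k => lev (h k.succ)) i (lev (h 0) + 1))

theorem labI_cz {M : ℕ} {Γ : Type} (F : (Fin M → ℕ) → Γ) (h : Fin (M + 1) → ℤ) (i : Fin M) :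
    (labI F h).cz i = cI (h i.succ) (h 0) := by
  simp only [Lab.cz, labI]
  unfold cI sy
  omega

/-- The local rules, seen from a position and its positive neighbours. -/
structure Rw {M : ℕ} (S : Sys (Fin M)) (a : Lab M S.Γ) (b : Fin (M + 1) → Lab M S.Γ) : Prop where
  zx_c : ∀ (i : Fin M) j, j ≠ i.succ → (b j).zx i = a.zx i
  dx_c : ∀ (i : Fin M) j, j ≠ i.succ → (b j).dx i = a.dx i
  zu_c : ∀ (i : Fin M) j, j ≠ 0 → (b j).zu i = a.zu i
  du_c : ∀ (i : Fin M) j, j ≠ 0 → (b j).du i = a.du i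
  t_c : ∀ (i : Fin M) j, j ≠ 0 → j ≠ i.succ → (b j).t i = a.t i
  s_c : ∀ (i : Fin M) j, j ≠ 0 → j ≠ i.succ → (b j).s i = a.s i
  c_c : ∀ (i : Fin M) j, j ≠ 0 → j ≠ i.succ → (b j).cz i = a.cz i
  G_c : (b 0).G = a.G
  P_c : ∀ i : Fin M, (b i.succ).P i = a.P i
  Q_c : ∀ i : Fin M, (b i.succ).Q i = a.Q i
  h0 : ∀ i : Fin M, a.zx i = false → (b 0).t i = a.t i + 2 ∧ a.cz i = val (a.t i) ∧
    (a.t i = 0 ∨ a.t i = 2 ∨ a.t i = 4 ∨ a.t i = 6)
  h1 : ∀ i : Fin M, a.zx i = true → ((b 0).cz i = 2 ∧ (b 0).t i = a.t i) ∨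
    ((b 0).cz i = val ((b 0).t i) ∧ (b 0).t i = a.t i + 1)
  h2 : ∀ i : Fin M, a.cz i = 0 → (a.t i = 2 ∧ a.du i = true) ∨ (a.t i = 6 ∧ a.du i = false)
  r0 : ∀ i : Fin M, a.zu i = false → (b i.succ).s i = a.s i + 2 ∧ - a.cz i = val (a.s i) ∧
    (a.s i = 0 ∨ a.s i = 2 ∨ a.s i = 4 ∨ a.s i = 6)
  r1 : ∀ i : Fin M, a.zu i = true → (- (b i.succ).cz i = 2 ∧ (b i.succ).s i = a.s i) ∨
    (- (b i.succ).cz i = val ((b i.succ).s i) ∧ (b i.succ).s i = a.s i + 1)
  r2 : ∀ i : Fin M, - a.cz i = 0 → (a.s i = 2 ∧ a.dx i = true) ∨ (a.s i = 6 ∧ a.dx i = false)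
  ax : ∀ i : Fin M, (b i.succ).zx i = !a.zx i
  au : ∀ i : Fin M, (b 0).zu i = !a.zu i
  GP : ∀ i : Fin M, a.cz i = 0 → a.G = a.P i
  GQ : ∀ i : Fin M, a.cz i = 1 → a.G = a.Q i
  ed : ∀ i : Fin M, S.ed i (a.P i) (a.Q i)
  pw : S.pw (fun i => a.zx i = false) a.G

/-- The local rules everywhere. -/
def Rules {M : ℕ} (S : Sys (Fin M)) (y : (Fin (M + 1) → ℤ) → Lab M S.Γ) : Prop :=
  ∀ h, Rw S (y h) (fun j => y (h + Pi.single j 1))

theorem rules_labI {M : ℕ} {S : Sys (Fin M)} {F : (Fin M → ℕ) → S.Γ} (hF : S.Sol F) :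
    Rules S (labI F) := by
  intro h
  have e1 : ∀ (i : Fin M) (j : Fin (M + 1)), j ≠ i.succ →
      (h + Pi.single j (1 : ℤ) : Fin (M + 1) → ℤ) i.succ = h i.succ := by
    intro i j hj
    simp [hj.symm]
  have e0 : ∀ (j : Fin (M + 1)), j ≠ 0 → (h + Pi.single j (1 : ℤ) : Fin (M + 1) → ℤ) 0 = h 0 := by
    intro j hj
    simp [hj.symm]
  have e2 : ∀ (j : Fin (M + 1)), (h + Pi.single j (1 : ℤ) : Fin (M + 1) → ℤ) j = h j + 1 := by
    intro j
    simp
  have e3 : ∀ i : Fin M, (0 : Fin (M + 1)) ≠ i.succ := fun i => (Fin.succ_ne_zero i).symm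
  have e4 : ∀ i : Fin M, i.succ ≠ (0 : Fin (M + 1)) := fun i => Fin.succ_ne_zero i
  have H := half_ideal
  have H' := half_ideal'
  refine ⟨?_, ?_, ?_, ?_, ?_, ?_, ?_, ?_, ?_, ?_, ?_, ?_, ?_, ?_, ?_, ?_, ?_, ?_, ?_, ?_, ?_, ?_⟩
  · intro i j hj
    simp only [labI]
    rw [e1 i j hj]
  · intro i j hj
    simp only [labI]
    rw [e1 i j hj]
  · intro i j hj
    simp only [labI]
    rw [e0 j hj]
  · intro i j hj
    simp only [labI]
    rw [e0 j hj]
  · intro i j hj hj'
    simp only [labI]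
    rw [e0 j hj, e1 i j hj']
  · intro i j hj hj'
    simp only [labI]
    rw [e0 j hj, e1 i j hj']
  · intro i j hj hj'
    rw [labI_cz, labI_cz, e0 j hj, e1 i j hj']
  · simp only [labI]
    congr 1
    funext k
    rw [e1 k 0 (e3 k)]
  · intro i
    simp only [labI]
    congr 1
    rw [e0 _ (e4 i)]
    funext k
    by_cases hk : k = i
    · subst hk; simp
    · rw [update_of_ne hk, update_of_ne hk, e1 k i.succ (by simpa using Ne.symm hk)]
  · intro i
    simp only [labI]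
    congr 1
    rw [e0 _ (e4 i)]
    funext k
    by_cases hk : k = i
    · subst hk; simp
    · rw [update_of_ne hk, update_of_ne hk, e1 k i.succ (by simpa using Ne.symm hk)]
  · intro i hz
    rw [labI_cz]
    simp only [labI] at hz ⊢
    rw [e2, e1 i 0 (e3 i)]
    exact H.h0 _ _ hz
  · intro i hz
    rw [labI_cz]
    simp only [labI] at hz ⊢
    rw [e2, e1 i 0 (e3 i)]
    exact H.h1 _ _ hz
  · intro i hz
    rw [labI_cz] at hz
    simp only [labI] at hz ⊢
    exact H.h2 _ _ hz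
  · intro i hz
    rw [labI_cz]
    simp only [labI] at hz ⊢
    rw [e2, e0 _ (e4 i)]
    exact H'.h0 _ _ hz
  · intro i hz
    rw [labI_cz]
    simp only [labI] at hz ⊢
    rw [e2, e0 _ (e4 i)]
    exact H'.h1 _ _ hz
  · intro i hz
    rw [labI_cz] at hz
    simp only [labI] at hz ⊢
    exact H'.h2 (h 0) (h i.succ) hz
  · intro i
    simp only [labI]
    rw [e2]
    exact zI_alt _
  · intro i
    simp only [labI]
    rw [e2]
    exact zI_alt _
  · intro i hz
    rw [labI_cz] at hz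
    simp only [labI]
    have hl : lev (h i.succ) = lev (h 0) := by unfold cI sy at hz; omega
    rw [← hl]
    congr 1
    rw [update_eq_self]
  · intro i hz
    rw [labI_cz] at hz
    simp only [labI]
    have hl : lev (h i.succ) = lev (h 0) + 1 := by unfold cI sy at hz; omega
    rw [← hl]
    congr 1
    rw [update_eq_self]
  · intro i
    simp only [labI]
    have := hF.2 (update (fun k => lev (h k.succ)) i (lev (h 0))) i
    rwa [bump_update] at this
  · simp only [labI]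
    have := hF.1 (fun k => lev (h k.succ))
    convert this using 2 with i
    simp [zI]

/-- Every window of radius `1` of `y'` occurs in `y`. -/
def LocalTo {n : ℕ} {α : Type} (y y' : (Fin n → ℤ) → α) : Prop :=
  ∀ h, ∃ h0, ∀ v, nrm v ≤ 1 → y' (h + v) = y (h0 + v)

theorem nrm_single {n : ℕ} (i : Fin n) : nrm (Pi.single i (1 : ℤ)) ≤ 1 := by
  rw [nrm_le]
  intro j
  by_cases h : j = i
  · subst h; simp
  · simp [h]

theorem Rules.local {M : ℕ} {S : Sys (Fin M)} {y y' : (Fin (M + 1) → ℤ) → Lab M S.Γ}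
    (hy : Rules S y) (h : LocalTo y y') : Rules S y' := by
  intro g
  obtain ⟨h0, hh⟩ := h g
  have h1 := hh 0 (by rw [nrm_zero]; exact Nat.zero_le _)
  rw [add_zero, add_zero] at h1
  rw [h1]
  have : (fun j => y' (g + Pi.single j 1)) = fun j => y (h0 + Pi.single j 1) :=
    funext fun j => hh _ (nrm_single j)
  rw [this]
  exact hy h0

/-- The base point with two prescribed coordinates. -/
def pt {M : ℕ} (i : Fin M) (a u : ℤ) : Fin (M + 1) → ℤ :=
  Function.update (Function.update 0 i.succ a) 0 u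

theorem pt_zero {M : ℕ} (i : Fin M) (a u : ℤ) : pt i a u 0 = u := by simp [pt]

theorem pt_succ {M : ℕ} (i : Fin M) (a u : ℤ) : pt i a u i.succ = a := by
  simp [pt]

theorem pt_add_zero {M : ℕ} (i : Fin M) (a u : ℤ) : pt i a u + Pi.single 0 1 = pt i a (u + 1) := by
  funext j
  by_cases h0 : j = 0
  · subst h0; simp [pt]
  · simp [pt, h0]

theorem pt_add_succ {M : ℕ} (i : Fin M) (a u : ℤ) :
    pt i a u + Pi.single i.succ 1 = pt i (a + 1) u := by
  funext j
  by_cases h0 : j = 0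
  · subst h0
    have : (0 : Fin (M + 1)) ≠ i.succ := (Fin.succ_ne_zero i).symm
    simp [pt, this]
  · by_cases h1 : j = i.succ
    · subst h1; simp [pt]
    · simp [pt, h0, h1]

section rules

variable {M : ℕ} {S : Sys (Fin M)} {y : (Fin (M + 1) → ℤ) → Lab M S.Γ}

/-- The bit `zx`. -/
def zxf (y : (Fin (M + 1) → ℤ) → Lab M S.Γ) (i : Fin M) (a : ℤ) : Bool := (y (pt i a 0)).zx i
/-- The bit `dx`. -/
def dxf (y : (Fin (M + 1) → ℤ) → Lab M S.Γ) (i : Fin M) (a : ℤ) : Bool := (y (pt i a 0)).dx i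
/-- The bit `zu`. -/
def zuf (y : (Fin (M + 1) → ℤ) → Lab M S.Γ) (i : Fin M) (u : ℤ) : Bool := (y (pt i 0 u)).zu i
/-- The bit `du`. -/
def duf (y : (Fin (M + 1) → ℤ) → Lab M S.Γ) (i : Fin M) (u : ℤ) : Bool := (y (pt i 0 u)).du i
/-- The state `t`. -/
def tf (y : (Fin (M + 1) → ℤ) → Lab M S.Γ) (i : Fin M) (a u : ℤ) : ZMod 8 := (y (pt i a u)).t i
/-- The state `s`. -/
def sf (y : (Fin (M + 1) → ℤ) → Lab M S.Γ) (i : Fin M) (u a : ℤ) : ZMod 8 := (y (pt i a u)).s i
/-- The symbol. -/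
def cf (y : (Fin (M + 1) → ℤ) → Lab M S.Γ) (i : Fin M) (a u : ℤ) : ℤ := (y (pt i a u)).cz i

theorem Rules.zx_eq (hy : Rules S y) (i : Fin M) (h : Fin (M + 1) → ℤ) :
    (y h).zx i = zxf y i (h i.succ) := by
  apply const_of_shift (fun h => (y h).zx i) {j | j ≠ i.succ} (fun r j hj => (hy r).zx_c i j hj)
  intro j hj
  have : j = i.succ := by simpa using hj
  subst this
  rw [pt_succ]

theorem Rules.dx_eq (hy : Rules S y) (i : Fin M) (h : Fin (M + 1) → ℤ) :
    (y h).dx i = dxf y i (h i.succ) := by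
  apply const_of_shift (fun h => (y h).dx i) {j | j ≠ i.succ} (fun r j hj => (hy r).dx_c i j hj)
  intro j hj
  have : j = i.succ := by simpa using hj
  subst this
  rw [pt_succ]

theorem Rules.zu_eq (hy : Rules S y) (i : Fin M) (h : Fin (M + 1) → ℤ) :
    (y h).zu i = zuf y i (h 0) := by
  apply const_of_shift (fun h => (y h).zu i) {j | j ≠ 0} (fun r j hj => (hy r).zu_c i j hj)
  intro j hj
  have : j = 0 := by simpa using hj
  subst this
  rw [pt_zero]

theorem Rules.du_eq (hy : Rules S y) (i : Fin M) (h : Fin (M + 1) → ℤ) :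
    (y h).du i = duf y i (h 0) := by
  apply const_of_shift (fun h => (y h).du i) {j | j ≠ 0} (fun r j hj => (hy r).du_c i j hj)
  intro j hj
  have : j = 0 := by simpa using hj
  subst this
  rw [pt_zero]

theorem Rules.cz_eq (hy : Rules S y) (i : Fin M) (h : Fin (M + 1) → ℤ) :
    (y h).cz i = cf y i (h i.succ) (h 0) := by
  apply const_of_shift (fun h => (y h).cz i) {j | j ≠ 0 ∧ j ≠ i.succ}
    (fun r j hj => (hy r).c_c i j hj.1 hj.2)
  intro j hj
  simp only [ne_eq, Set.mem_ofPred_eq, not_and, not_not] at hj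
  by_cases h0 : j = 0
  · subst h0; rw [pt_zero]
  · have := hj h0
    subst this
    rw [pt_succ]

theorem Rules.alt_x (hy : Rules S y) (i : Fin M) : Alt (zxf y i) := by
  intro a
  have := (hy (pt i a 0)).ax i
  rwa [pt_add_succ] at this

theorem Rules.alt_u (hy : Rules S y) (i : Fin M) : Alt (zuf y i) := by
  intro a
  have := (hy (pt i 0 a)).au i
  rwa [pt_add_zero] at this

theorem Rules.col (hy : Rules S y) (i : Fin M) :
    Half (zxf y i) (duf y i) (tf y i) (cf y i) := by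
  refine ⟨fun x p hz => ?_, fun x p hz => ?_, fun x p hc => ?_⟩
  · have h1 := hy.zx_eq i (pt i x p)
    rw [pt_succ, hz] at h1
    have := (hy (pt i x p)).h0 i h1
    rwa [pt_add_zero] at this
  · have h1 := hy.zx_eq i (pt i x p)
    rw [pt_succ, hz] at h1
    have := (hy (pt i x p)).h1 i h1
    rwa [pt_add_zero] at this
  · have h1 := hy.du_eq i (pt i x p)
    rw [pt_zero] at h1
    have := (hy (pt i x p)).h2 i hc
    rwa [h1] at this

theorem Rules.row (hy : Rules S y) (i : Fin M) :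
    Half (zuf y i) (dxf y i) (sf y i) (fun u x => - cf y i x u) := by
  refine ⟨fun x p hz => ?_, fun x p hz => ?_, fun x p hc => ?_⟩
  · have h1 := hy.zu_eq i (pt i p x)
    rw [pt_zero, hz] at h1
    have := (hy (pt i p x)).r0 i h1
    rwa [pt_add_succ] at this
  · have h1 := hy.zu_eq i (pt i p x)
    rw [pt_zero, hz] at h1
    have := (hy (pt i p x)).r1 i h1
    rwa [pt_add_succ] at this
  · have h1 := hy.dx_eq i (pt i p x)
    rw [pt_succ] at h1
    have := (hy (pt i p x)).r2 i hc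
    rwa [h1] at this

theorem Rules.lvl (hy : Rules S y) (i : Fin M) (k : ℕ) :
    Lvl (zxf y i) (dxf y i) (zuf y i) (duf y i) (cf y i) k :=
  Lvl.all (hy.col i) (hy.row i) (hy.alt_x i) (hy.alt_u i) k

theorem Rules.exists_Es (hy : Rules S y) (i : Fin M) (k : ℕ) :
    ∃ x, Es (zxf y i) (dxf y i) k x := Pool.Agent.H51.exists_Es (hy.lvl i k) le_rfl

/-- Solutions on `ℤⁿ` give solutions on the quadrant. -/
theorem Rules.sol (hy : Rules S y) (ξ : Fin M → ℕ → ℤ)
    (hξ : ∀ i k, Es (zxf y i) (dxf y i) k (ξ i k)) :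
    S.Sol (fun k => (y (Fin.cons 0 fun i => ξ i (k i))).G) := by
  refine ⟨fun k => ?_, fun k i => ?_⟩
  · have := (hy (Fin.cons 0 fun i => ξ i (k i))).pw
    convert this using 2 with i
    rw [hy.zx_eq, Fin.cons_succ]
    have h1 := hξ i (k i)
    constructor
    · intro h0
      rw [h0] at h1
      have := h1.2
      simpa [Xs, h0] using this
    · intro h0
      by_contra hk
      have h2 := Xs_anti _ _ (by omega : 1 ≤ k i) _ h1.1
      simp only [Xs] at h2
      rw [h2] at h0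
      exact absurd h0 (by decide)
  · -- the auxiliary coordinate
    obtain ⟨u, hu⟩ : ∃ u, Es (zuf y i) (duf y i) (k i) u :=
      Pool.Agent.H51.exists_Es (hy.lvl i (k i)).swap le_rfl
    have hL := hy.lvl i
    have z0 := zero_of_Es hL (hξ i (k i)) hu
    have z1 := one_of_Es hL (hξ i (k i + 1)) hu
    have hG : ∀ (x : Fin M → ℤ), (y (Fin.cons 0 x)).G = (y (Fin.cons u x)).G := by
      intro x
      apply const_of_shift (fun h => (y h).G) {j | j = 0}
        (fun r j hj => by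
          have hj' : j = 0 := hj
          subst hj'
          exact (hy r).G_c)
      intro j hj
      have hj' : j ≠ 0 := hj
      obtain ⟨j', rfl⟩ := Fin.exists_succ_eq.2 hj'
      rw [Fin.cons_succ, Fin.cons_succ]
    have hc0 : (y (Fin.cons u fun i => ξ i (k i))).cz i = 0 := by
      rw [hy.cz_eq, Fin.cons_succ, Fin.cons_zero, z0]
    have hc1 : (y (Fin.cons u fun j => ξ j (bump k i j))).cz i = 1 := by
      rw [hy.cz_eq, Fin.cons_succ, Fin.cons_zero, bump_self, z1]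
    have hQ : (y (Fin.cons u fun j => ξ j (bump k i j))).Q i =
        (y (Fin.cons u fun j => ξ j (k j))).Q i := by
      apply const_of_shift (fun h => (y h).Q i) {j | j = i.succ}
        (fun r j hj => by
          have hj' : j = i.succ := hj
          subst hj'
          exact (hy r).Q_c i)
      intro j hj
      have hj' : j ≠ i.succ := hj
      refine Fin.cases ?_ (fun j' => ?_) j (motive := fun j => j ≠ i.succ →
        (Fin.cons u (fun j => ξ j (bump k i j)) : Fin (M + 1) → ℤ) j =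
          (Fin.cons u (fun j => ξ j (k j)) : Fin (M + 1) → ℤ) j) hj'
      · intro _; rw [Fin.cons_zero, Fin.cons_zero]
      · intro hne
        rw [Fin.cons_succ, Fin.cons_succ, bump_ne]
        intro h
        exact hne (by rw [h])
    have e1 := (hy (Fin.cons u fun i => ξ i (k i))).GP i hc0
    have e2 := (hy (Fin.cons u fun j => ξ j (bump k i j))).GQ i hc1
    have e3 := (hy (Fin.cons u fun i => ξ i (k i))).ed i
    simp only
    rw [hG, hG, e1, e2, hQ]
    exact e3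

end rules

/-- The ideal labelling is Toeplitz. -/
theorem labI_toeplitz {M : ℕ} {Γ : Type} (F : (Fin M → ℕ) → Γ) (N : ℕ) :
    ∃ q : ℕ, 0 < q ∧ ∀ h : Fin (M + 1) → ℤ, nrm h ≤ N → ∀ v : Fin (M + 1) → ℤ,
      labI F (h + (q : ℤ) • v) = labI F h := by
  refine ⟨3 * 2 ^ (3 * N + 2 + 2), by positivity, fun h hN v => ?_⟩
  have hb : ∀ j, lev (h j) < 3 * N + 2 := fun j => lev_bound _ _ (nrm_le.1 hN j)
  have e : ∀ j, (h + ((3 * 2 ^ (3 * N + 2 + 2) : ℕ) : ℤ) • v) j =
      h j + 2 ^ (3 * N + 2 + 2) * (3 * v j) := by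
    intro j
    simp only [Pi.add_apply, Pi.smul_apply, smul_eq_mul]
    push_cast
    ring
  have hlev : ∀ j, lev ((h + ((3 * 2 ^ (3 * N + 2 + 2) : ℕ) : ℤ) • v) j) = lev (h j) := by
    intro j
    rw [e]
    exact lev_add _ _ _ (by have := hb j; omega)
  have h3 : ∀ j, (((h + ((3 * 2 ^ (3 * N + 2 + 2) : ℕ) : ℤ) • v) j : ℤ) : ZMod 3) =
      (h j : ZMod 3) := by
    intro j
    rw [ZMod.intCast_eq_intCast_iff_dvd_sub, e]
    have : h j - (h j + 2 ^ (3 * N + 2 + 2) * (3 * v j)) =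
        ((3 : ℕ) : ℤ) * (- (2 ^ (3 * N + 2 + 2) * v j)) := by push_cast; ring
    rw [this]
    exact dvd_mul_right _ _
  have hz : ∀ j, zI ((h + ((3 * 2 ^ (3 * N + 2 + 2) : ℕ) : ℤ) • v) j) = zI (h j) := by
    intro j; rw [e]; exact zI_add _ _ _ (hb j)
  have hd : ∀ j, dI ((h + ((3 * 2 ^ (3 * N + 2 + 2) : ℕ) : ℤ) • v) j) = dI (h j) := by
    intro j; rw [e]; exact dI_add _ _ _ (hb j)
  have ht : ∀ j j', tI ((h + ((3 * 2 ^ (3 * N + 2 + 2) : ℕ) : ℤ) • v) j)
      ((h + ((3 * 2 ^ (3 * N + 2 + 2) : ℕ) : ℤ) • v) j') = tI (h j) (h j') := by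
    intro j j'; rw [e, e]; exact tI_add _ _ _ _ _ (hb j)
  ext1
  · funext j; exact h3 j
  · funext i; exact hz _
  · funext i; exact hz _
  · funext i; exact hd _
  · funext i; exact hd _
  · funext i; exact ht _ _
  · funext i; exact ht _ _
  · funext i
    simp only [labI, Fin.mk.injEq]
    unfold cI
    rw [hlev, hlev]
  · simp only [labI, hlev]
  · simp only [labI, hlev]
  · simp only [labI, hlev]

end Pool.Agent.H51
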