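import Mathlib
import Pool.Agent.Lib.H51.Lift

set_option autoImplicit false

/-!
# Integrating flexible labellings
-/

namespace Pool.Agent.H51

open Function

variable {n : ℕ} {α : Type}

/-- Windows of radius `2`. -/
abbrev Win (n : ℕ) (α : Type) : Type := {v : Fin n → ℤ // nrm v ≤ 2} → α

/-- The windows around every point come from an almost rigid family of positions. -/
def Allowed (y : (Fin n → ℤ) → α) (lam : (Fin n → ℤ) → Win n α) : Prop :=
  ∀ g, ∃ s : (Fin n → ℤ) → (Fin n → ℤ),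
    (∀ w w', nrm w ≤ 5 → nrm w' ≤ 5 → nrm (s w' - s w - (w' - w)) ≤ 1) ∧
    ∀ w, nrm w ≤ 5 → ∀ v : {v : Fin n → ℤ // nrm v ≤ 2}, lam (g + w) v = y (s w + v.1)

/-- The representative of smallest absolute value. -/
def lft (a : ZMod 3) : ℤ := if a = 0 then 0 else if a = 1 then 1 else -1

theorem lft_cast (e : ℤ) (h : e.natAbs ≤ 1) : lft (e : ZMod 3) = e := by
  have : e = -1 ∨ e = 0 ∨ e = 1 := by omega
  rcases this with rfl | rfl | rfl <;> decide

theorem lft_le (a : ZMod 3) : (lft a).natAbs ≤ 1 := by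
  revert a; decide

/-- The zero position. -/
def v0 (n : ℕ) : {v : Fin n → ℤ // nrm v ≤ 2} := ⟨0, by rw [nrm_zero]; exact Nat.zero_le _⟩

/-- The correction. -/
def del (m3 : α → Fin n → ZMod 3) (lam : (Fin n → ℤ) → Win n α) (g g' : Fin n → ℤ) :
    Fin n → ℤ := fun j =>
  lft (m3 (lam g' (v0 n)) j - m3 (lam g (v0 n)) j - ((g' j - g j : ℤ) : ZMod 3))

/-- The displacement. -/
def disp (m3 : α → Fin n → ZMod 3) (lam : (Fin n → ℤ) → Win n α) (g g' : Fin n → ℤ) :
    Fin n → ℤ := g' - g + del m3 lam g g'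

/-- Componentwise clamp. -/
def clp (j : ℕ) (g : Fin n → ℤ) : Fin n → ℤ := fun i => max (-(j : ℤ)) (min j (g i))

/-- The integrated position. -/
def phi (m3 : α → Fin n → ZMod 3) (lam : (Fin n → ℤ) → Win n α) (g : Fin n → ℤ) :
    Fin n → ℤ := ∑ j ∈ Finset.range (nrm g), disp m3 lam (clp j g) (clp (j + 1) g)

theorem clp_zero (g : Fin n → ℤ) : clp 0 g = 0 := by
  funext i; simp only [clp, Pi.zero_apply]; omega

theorem clp_of_le (j : ℕ) (g : Fin n → ℤ) (h : nrm g ≤ j) : clp j g = g := by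
  funext i
  have := nrm_le.1 h i
  simp only [clp]; omega

theorem clp_succ (j : ℕ) (g : Fin n → ℤ) : nrm (clp (j + 1) g - clp j g) ≤ 1 := by
  rw [nrm_le]
  intro i
  simp only [clp, Pi.sub_apply]
  push_cast
  omega

theorem clp_sub (j : ℕ) (g g' : Fin n → ℤ) : nrm (clp j g' - clp j g) ≤ nrm (g' - g) := by
  rw [nrm_le]
  intro i
  have := nrm_apply (g' - g) i
  simp only [clp, Pi.sub_apply] at this ⊢
  omega

theorem nrm_clp (j : ℕ) (g : Fin n → ℤ) : nrm (clp j g) ≤ j := by
  rw [nrm_le]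
  intro i
  simp only [clp]
  omega

section flex

variable {y : (Fin n → ℤ) → α} {m3 : α → Fin n → ZMod 3} {lam : (Fin n → ℤ) → Win n α}

theorem nrm_del (g g' : Fin n → ℤ) : nrm (del m3 lam g g') ≤ 1 := by
  rw [nrm_le]
  intro i
  exact lft_le _

theorem disp_self (g : Fin n → ℤ) : disp m3 lam g g = 0 := by
  funext i
  simp only [disp, del, sub_self, Int.cast_zero, Pi.add_apply, Pi.zero_apply, zero_add]
  decide

/-- Displacements are differences of positions. -/
theorem disp_eq (hm : ∀ h j, m3 (y h) j = (h j : ZMod 3)) (b : Fin n → ℤ)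
    (s : (Fin n → ℤ) → (Fin n → ℤ))
    (h1 : ∀ w w', nrm w ≤ 5 → nrm w' ≤ 5 → nrm (s w' - s w - (w' - w)) ≤ 1)
    (h2 : ∀ w, nrm w ≤ 5 → ∀ v : {v : Fin n → ℤ // nrm v ≤ 2}, lam (b + w) v = y (s w + v.1))
    (g g' : Fin n → ℤ) (hg : nrm (g - b) ≤ 5) (hg' : nrm (g' - b) ≤ 5) :
    disp m3 lam g g' = s (g' - b) - s (g - b) := by
  have e1 := h2 _ hg (v0 n)
  have e2 := h2 _ hg' (v0 n)
  rw [add_sub_cancel] at e1 e2
  have h3 := h1 _ _ hg hg'
  funext j
  have h4 := nrm_le.1 h3 j
  have e3 : (g' - b - (g - b)) j = g' j - g j := by simp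
  simp only [Pi.sub_apply] at h4
  simp only [disp, del, Pi.add_apply, Pi.sub_apply]
  rw [e1, e2, hm, hm]
  have e4 : (((s (g' - b) + (v0 n).1) j : ℤ) : ZMod 3) - (((s (g - b) + (v0 n).1) j : ℤ) : ZMod 3) -
      ((g' j - g j : ℤ) : ZMod 3) =
      ((s (g' - b) j - s (g - b) j - (g' j - b j - (g j - b j)) : ℤ) : ZMod 3) := by
    simp only [v0, Pi.add_apply, Pi.zero_apply, add_zero]
    push_cast
    ring
  rw [e4, lft_cast _ h4]
  ring

/-- Additivity of displacements inside a window. -/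
theorem disp_add (hm : ∀ h j, m3 (y h) j = (h j : ZMod 3)) (hA : Allowed y lam)
    (b g g' g'' : Fin n → ℤ) (hg : nrm (g - b) ≤ 5) (hg' : nrm (g' - b) ≤ 5)
    (hg'' : nrm (g'' - b) ≤ 5) :
    disp m3 lam g g' + disp m3 lam g' g'' = disp m3 lam g g'' := by
  obtain ⟨s, h1, h2⟩ := hA b
  rw [disp_eq hm b s h1 h2 g g' hg hg', disp_eq hm b s h1 h2 g' g'' hg' hg'',
    disp_eq hm b s h1 h2 g g'' hg hg'']
  abel

theorem phi_eq (g : Fin n → ℤ) (N : ℕ) (h : nrm g ≤ N) :
    ∑ j ∈ Finset.range N, disp m3 lam (clp j g) (clp (j + 1) g) = phi m3 lam g := by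
  induction N, h using Nat.le_induction with
  | base => rfl
  | succ N hN ih =>
    rw [Finset.sum_range_succ, ih, clp_of_le N g hN, clp_of_le (N + 1) g (by omega), disp_self,
      add_zero]

theorem phi_sub (hm : ∀ h j, m3 (y h) j = (h j : ZMod 3)) (hA : Allowed y lam)
    (g g' : Fin n → ℤ) (h : nrm (g' - g) ≤ 4) :
    phi m3 lam g' - phi m3 lam g = disp m3 lam g g' := by
  have key : ∀ N, ∑ j ∈ Finset.range N, disp m3 lam (clp j g') (clp (j + 1) g') -
      ∑ j ∈ Finset.range N, disp m3 lam (clp j g) (clp (j + 1) g) =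
      disp m3 lam (clp N g) (clp N g') := by
    intro N
    induction N with
    | zero => simp [clp_zero, disp_self]
    | succ N ih =>
      rw [Finset.sum_range_succ, Finset.sum_range_succ]
      have a1 : nrm (clp N g - clp N g) ≤ 5 := by rw [sub_self, nrm_zero]; omega
      have a2 : nrm (clp N g' - clp N g) ≤ 5 := (clp_sub N g g').trans (by omega)
      have a3 : nrm (clp (N + 1) g - clp N g) ≤ 5 := (clp_succ N g).trans (by omega)
      have a4 : nrm (clp (N + 1) g' - clp N g) ≤ 5 := by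
        have e : clp (N + 1) g' - clp N g = (clp (N + 1) g' - clp N g') + (clp N g' - clp N g) := by
          abel
        rw [e]
        have b1 := nrm_add (clp (N + 1) g' - clp N g') (clp N g' - clp N g)
        have b2 := clp_succ N g'
        have b3 := clp_sub N g g'
        omega
      have c1 := disp_add hm hA _ _ _ _ a1 a2 a4
      have c2 := disp_add hm hA _ _ _ _ a1 a3 a4
      have : disp m3 lam (clp (N + 1) g) (clp (N + 1) g') =
          (∑ j ∈ Finset.range N, disp m3 lam (clp j g') (clp (j + 1) g') -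
          ∑ j ∈ Finset.range N, disp m3 lam (clp j g) (clp (j + 1) g)) +
          disp m3 lam (clp N g') (clp (N + 1) g') - disp m3 lam (clp N g) (clp (N + 1) g) := by
        rw [ih, c1, ← c2]; abel
      rw [this]; abel
  have := key (max (nrm g) (nrm g'))
  rwa [phi_eq g _ (le_max_left _ _), phi_eq g' _ (le_max_right _ _),
    clp_of_le _ g (le_max_left _ _), clp_of_le _ g' (le_max_right _ _)] at this

theorem phi_sub5 (hm : ∀ h j, m3 (y h) j = (h j : ZMod 3)) (hA : Allowed y lam)
    (g g' : Fin n → ℤ) (h : nrm (g' - g) ≤ 5) :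
    phi m3 lam g' - phi m3 lam g = disp m3 lam g g' := by
  set g'' := g + clp 3 (g' - g) with hg''
  have a1 : nrm (g'' - g) ≤ 3 := by
    rw [hg'', add_sub_cancel_left]; exact nrm_clp _ _
  have a2 : nrm (g' - g'') ≤ 2 := by
    rw [nrm_le] at h ⊢
    intro i
    have := h i
    simp only [hg'', clp, Pi.sub_apply, Pi.add_apply] at this ⊢
    push_cast
    omega
  have b1 := phi_sub hm hA g g'' (by omega)
  have b2 := phi_sub hm hA g'' g' (by omega)
  have b3 := disp_add hm hA g g g'' g' (by rw [sub_self, nrm_zero]; omega) (by omega) h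
  rw [← b3, ← b1, ← b2]
  abel

theorem phi_coarse (hm : ∀ h j, m3 (y h) j = (h j : ZMod 3)) (hA : Allowed y lam) (m : ℕ) :
    ∀ g g' : Fin n → ℤ, nrm (g' - g) ≤ 4 * m →
      nrm (phi m3 lam g' - phi m3 lam g - (g' - g)) ≤ m := by
  induction m with
  | zero =>
    intro g g' h
    have : g' - g = 0 := nrm_eq_zero (by omega)
    have : g' = g := sub_eq_zero.1 this
    subst this
    simp [nrm_zero]
  | succ m ih =>
    intro g g' h
    set g'' := g + clp (4 * m) (g' - g) with hg''
    have a1 : nrm (g'' - g) ≤ 4 * m := by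
      rw [hg'', add_sub_cancel_left]; exact nrm_clp _ _
    have a2 : nrm (g' - g'') ≤ 4 := by
      rw [nrm_le] at h ⊢
      intro i
      have := h i
      simp only [hg'', clp, Pi.sub_apply, Pi.add_apply] at this ⊢
      push_cast
      omega
    have b1 := ih g g'' a1
    have b2 : nrm (phi m3 lam g' - phi m3 lam g'' - (g' - g'')) ≤ 1 := by
      rw [phi_sub hm hA g'' g' a2]
      have : disp m3 lam g'' g' - (g' - g'') = del m3 lam g'' g' := by
        simp [disp]
      rw [this]
      exact nrm_del _ _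
    have e : phi m3 lam g' - phi m3 lam g - (g' - g) =
        (phi m3 lam g'' - phi m3 lam g - (g'' - g)) +
        (phi m3 lam g' - phi m3 lam g'' - (g' - g'')) := by abel
    rw [e]
    exact (nrm_add _ _).trans (by omega)

theorem phi_near (hm : ∀ h j, m3 (y h) j = (h j : ZMod 3)) (hA : Allowed y lam)
    (g g' : Fin n → ℤ) (h : nrm (phi m3 lam g' - phi m3 lam g) ≤ 3) : nrm (g' - g) ≤ 5 := by
  by_contra hcon
  have h1 := phi_coarse hm hA ((nrm (g' - g) + 3) / 4) g g' (by omega)
  have h2 : nrm (g' - g) ≤ nrm (phi m3 lam g' - phi m3 lam g) +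
      nrm (phi m3 lam g' - phi m3 lam g - (g' - g)) := by
    have e : g' - g = (phi m3 lam g' - phi m3 lam g) -
      (phi m3 lam g' - phi m3 lam g - (g' - g)) := by abel
    calc nrm (g' - g) = nrm ((phi m3 lam g' - phi m3 lam g) -
      (phi m3 lam g' - phi m3 lam g - (g' - g))) := by rw [← e]
      _ ≤ _ := nrm_sub _ _
  omega

theorem phi_surj (hm : ∀ h j, m3 (y h) j = (h j : ZMod 3)) (hA : Allowed y lam)
    (h : Fin n → ℤ) : ∃ g, nrm (phi m3 lam g - h) ≤ 1 := by
  have key : ∀ N : ℕ, ∀ g, nrm (phi m3 lam g - h) ≤ N → ∃ g', nrm (phi m3 lam g' - h) ≤ 1 := by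
    intro N
    induction N with
    | zero => intro g hg; exact ⟨g, by omega⟩
    | succ N ih =>
      intro g hg
      rcases Nat.lt_or_ge N 1 with hN | hN
      · exact ⟨g, by omega⟩
      · set g' := g - clp 4 (phi m3 lam g - h) with hg'
        have a0 : nrm (g' - g) ≤ 4 := by
          have : g' - g = - clp 4 (phi m3 lam g - h) := by rw [hg']; abel
          rw [this, nrm_neg]
          exact nrm_clp _ _
        have a1 := phi_coarse hm hA 1 g g' (by omega)
        apply ih g'
        rw [nrm_le] at a1 hg ⊢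
        intro i
        have b1 := a1 i
        have b2 := hg i
        simp only [hg', clp, Pi.sub_apply] at b1 b2 ⊢
        push_cast at b1 b2 ⊢
        omega
  exact key _ 0 le_rfl

/-- The integrated labelling only has windows of `y`. -/
theorem flex_local (hm : ∀ h j, m3 (y h) j = (h j : ZMod 3)) (hA : Allowed y lam)
    (gv : (Fin n → ℤ) → (Fin n → ℤ) × {v : Fin n → ℤ // nrm v ≤ 2})
    (h1 : ∀ h, phi m3 lam (gv h).1 + (gv h).2.1 = h) (h2 : ∀ h, nrm (gv h).2.1 ≤ 1) :
    LocalTo y (fun h => lam (gv h).1 (gv h).2) := by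
  intro h
  obtain ⟨s, hs1, hs2⟩ := hA (gv h).1
  refine ⟨s 0 + (gv h).2.1, fun v hv => ?_⟩
  set g := (gv h).1 with hg
  set g' := (gv (h + v)).1 with hg'
  have e1 : h = phi m3 lam g + (gv h).2.1 := (h1 h).symm
  have e2 : h + v = phi m3 lam g' + (gv (h + v)).2.1 := (h1 (h + v)).symm
  have near : nrm (g' - g) ≤ 5 := by
    apply phi_near hm hA
    have : phi m3 lam g' - phi m3 lam g = v + (gv h).2.1 - (gv (h + v)).2.1 := by
      have e3 : phi m3 lam g' = h + v - (gv (h + v)).2.1 := eq_sub_of_add_eq (h1 (h + v))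
      have e4 : phi m3 lam g = h - (gv h).2.1 := eq_sub_of_add_eq (h1 h)
      rw [e3, e4]; abel
    rw [this]
    have a1 := nrm_sub (v + (gv h).2.1) (gv (h + v)).2.1
    have a2 := nrm_add v (gv h).2.1
    have a3 := h2 h
    have a4 := h2 (h + v)
    omega
  have hd := phi_sub5 hm hA g g' near
  have z5 : nrm (g - g) ≤ 5 := by rw [sub_self, nrm_zero]; omega
  rw [disp_eq hm g s hs1 hs2 g g' z5 near, sub_self] at hd
  have h3 := hs2 (g' - g) near (gv (h + v)).2
  rw [add_sub_cancel] at h3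
  simp only
  rw [h3]
  congr 1
  have e3 : phi m3 lam g' = h + v - (gv (h + v)).2.1 := eq_sub_of_add_eq (h1 (h + v))
  have e4 : phi m3 lam g = h - (gv h).2.1 := eq_sub_of_add_eq (h1 h)
  have e5 : s (g' - g) = s 0 + (phi m3 lam g' - phi m3 lam g) := by rw [hd]; abel
  rw [e5, e3, e4]
  abel

end flex

end Pool.Agent.H51
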