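import Mathlib
import Pool.Agent.Lib.H51.Flex

set_option autoImplicit false

/-!
# Slow positions along a hierarchy of separated sets
-/

namespace Pool.Agent.H51

open Function

/-- The parameters of the construction. -/
structure Pars (qq : ℕ → ℕ) where
  L : ℕ → ℕ
  R : ℕ → ℕ
  rr : ℕ → ℕ
  P : ℕ → ℕ
  B : ℕ → ℕ
  q : ℕ → ℕ
  hL0 : L 0 = 10
  hP0 : P 0 = 0
  hB0 : B 0 = 0
  hL : ∀ j, L (j + 1) = R j + L j
  hR : ∀ j, R j = rr j + L j + q j * L j
  hrr : ∀ j, rr j = P j + 6
  hP : ∀ j, P (j + 1) = P j + R j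
  hB : ∀ j, B (j + 1) = B j + R j + q j
  hq : ∀ j, 0 < q j
  hqd : ∀ j, q j ∣ q (j + 1)
  hqq : ∀ j, qq (rr j + B j + 2) ∣ q j

/-- One step of the recursion for the parameters `(P, B, L, q)`. -/
def parStep (qq : ℕ → ℕ) (p : ℕ × ℕ × ℕ × ℕ) : ℕ × ℕ × ℕ × ℕ :=
  let rr := p.1 + 6
  let q := p.2.2.2 * qq (rr + p.2.1 + 2)
  let R := rr + p.2.2.1 + q * p.2.2.1
  (p.1 + R, p.2.1 + R + q, R + p.2.2.1, q)

/-- The parameters. -/
def parSeq (qq : ℕ → ℕ) : ℕ → ℕ × ℕ × ℕ × ℕ
  | 0 => (0, 0, 10, 1)
  | (j + 1) => parStep qq (parSeq qq j)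

theorem parSeq_pos (qq : ℕ → ℕ) (h : ∀ N, 0 < qq N) (j : ℕ) : 0 < (parSeq qq j).2.2.2 := by
  induction j with
  | zero => simp [parSeq]
  | succ j ih => exact Nat.mul_pos ih (h _)

/-- The parameters exist. -/
def mkPars (qq : ℕ → ℕ) (h : ∀ N, 0 < qq N) : Pars qq where
  L j := (parSeq qq j).2.2.1
  R j := (parSeq qq j).1 + 6 + (parSeq qq j).2.2.1 +
    ((parSeq qq j).2.2.2 * qq ((parSeq qq j).1 + 6 + (parSeq qq j).2.1 + 2)) * (parSeq qq j).2.2.1
  rr j := (parSeq qq j).1 + 6
  P j := (parSeq qq j).1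
  B j := (parSeq qq j).2.1
  q j := (parSeq qq j).2.2.2 * qq ((parSeq qq j).1 + 6 + (parSeq qq j).2.1 + 2)
  hL0 := rfl
  hP0 := rfl
  hB0 := rfl
  hL _ := rfl
  hR _ := rfl
  hrr _ := rfl
  hP _ := rfl
  hB _ := rfl
  hq j := Nat.mul_pos (parSeq_pos qq h j) (h _)
  hqd _ := Dvd.intro _ rfl
  hqq _ := Dvd.intro_left _ rfl

theorem Pars.L_pos {qq : ℕ → ℕ} (p : Pars qq) (j : ℕ) : 10 ≤ p.L j := by
  induction j with
  | zero => rw [p.hL0]
  | succ j ih => rw [p.hL]; omega

theorem Pars.q_dvd {qq : ℕ → ℕ} (p : Pars qq) (i d : ℕ) : p.q i ∣ p.q (i + d) := by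
  induction d with
  | zero => simp
  | succ d ih => exact ih.trans (p.hqd _)

variable {n : ℕ}

/-- The correction making `p` divisible by `q`. -/
def cor (q : ℕ) (p : Fin n → ℤ) : Fin n → ℤ := fun i => (- p i) % q

theorem nrm_cor (q : ℕ) (hq : 0 < q) (p : Fin n → ℤ) : nrm (cor q p) ≤ q := by
  rw [nrm_le]
  intro i
  have h1 := Int.emod_nonneg (- p i) (by omega : (q : ℤ) ≠ 0)
  have h2 := Int.emod_lt_of_pos (- p i) (by omega : (0 : ℤ) < q)
  simp only [cor]
  omega

theorem add_cor (q : ℕ) (p : Fin n → ℤ) : ∃ v : Fin n → ℤ, p + cor q p = (q : ℤ) • v := by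
  refine ⟨fun i => - (- p i / q), ?_⟩
  funext i
  simp only [cor, Pi.add_apply, Pi.smul_apply, smul_eq_mul]
  have := Int.mul_ediv_add_emod (- p i) q
  linarith

theorem cor_add (q : ℕ) (p v : Fin n → ℤ) : cor q (p + (q : ℤ) • v) = cor q p := by
  funext i
  simp only [cor, Pi.add_apply, Pi.smul_apply, smul_eq_mul]
  have : -(p i + q * v i) = -p i + q * (- v i) := by ring
  rw [this]
  exact Int.add_mul_emod_self_left _ _ _

/-- The interpolated correction. -/
def bet (L R q : ℕ) (w p : Fin n → ℤ) : Fin n → ℤ :=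
  clp ((R - L - nrm w) / L) (cor q p)

theorem bet_zero (L R q : ℕ) (w p : Fin n → ℤ) (h : R - L ≤ nrm w) : bet L R q w p = 0 := by
  unfold bet
  rw [Nat.sub_eq_zero_of_le h, Nat.zero_div, clp_zero]

theorem bet_full (L R q : ℕ) (hL : 0 < L) (hq : 0 < q) (w p : Fin n → ℤ)
    (h : nrm w + L + q * L ≤ R) : bet L R q w p = cor q p := by
  unfold bet
  apply clp_of_le
  refine (nrm_cor q hq p).trans ?_
  rw [Nat.le_div_iff_mul_le hL]
  omega

theorem bet_add (L R q : ℕ) (w p v : Fin n → ℤ) :
    bet L R q w (p + (q : ℤ) • v) = bet L R q w p := by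
  unfold bet
  rw [cor_add]

theorem nrm_bet (L R q : ℕ) (hq : 0 < q) (w p : Fin n → ℤ) : nrm (bet L R q w p) ≤ q := by
  have h1 := nrm_cor q hq p
  rw [nrm_le] at h1 ⊢
  intro i
  have := h1 i
  simp only [bet, clp]
  generalize (R - L - nrm w) / L = D
  omega

theorem bet_slow (L R q : ℕ) (hL : 0 < L) (w w' p : Fin n → ℤ) (h : nrm (w' - w) ≤ L) :
    nrm (bet L R q w' p - bet L R q w p) ≤ 1 := by
  have h1 : nrm w' ≤ nrm w + L := by
    have : w' = w + (w' - w) := by abel
    have h2 := nrm_add w (w' - w)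
    rw [← this] at h2
    omega
  have h2 : nrm w ≤ nrm w' + L := by
    have : w = w' + (w - w') := by abel
    have h2 := nrm_add w' (w - w')
    rw [← this, nrm_sub_comm w w'] at h2
    omega
  have h3 : (R - L - nrm w') / L ≤ (R - L - nrm w) / L + 1 := by
    have : (R - L - nrm w') ≤ (R - L - nrm w) + L := by omega
    calc (R - L - nrm w') / L ≤ ((R - L - nrm w) + L) / L := Nat.div_le_div_right this
      _ = _ := Nat.add_div_right _ hL
  have h4 : (R - L - nrm w) / L ≤ (R - L - nrm w') / L + 1 := by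
    have : (R - L - nrm w) ≤ (R - L - nrm w') + L := by omega
    calc (R - L - nrm w) / L ≤ ((R - L - nrm w') + L) / L := Nat.div_le_div_right this
      _ = _ := Nat.add_div_right _ hL
  rw [nrm_le]
  intro i
  simp only [bet, clp, Pi.sub_apply]
  omega

section act

variable {X : Type} (act : (Fin n → ℤ) → X → X)

/-- `C` contains at most one point of every ball of radius `S`. -/
def Sepd (S : ℕ) (C : Set X) : Prop := ∀ x ∈ C, ∀ γ, γ ≠ 0 → nrm γ ≤ S → act γ x ∉ C

open scoped Classical in
/-- The displacement to the centre. -/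
noncomputable def cen (C : ℕ → Set X) (R : ℕ → ℕ) (j : ℕ) (z : X) : Option (Fin n → ℤ) :=
  if h : ∃ γ, nrm γ ≤ R j ∧ act γ z ∈ C j then some h.choose else none

variable {act}

/-- Free actions. -/
structure IsFree (act : (Fin n → ℤ) → X → X) : Prop where
  zero : ∀ x, act 0 x = x
  add : ∀ a b x, act (a + b) x = act a (act b x)
  free : ∀ γ x, act γ x = x → γ = 0

theorem IsFree.inj (hA : IsFree act) {a b : Fin n → ℤ} {x : X} (h : act a x = act b x) : a = b := by
  have h1 : act (-b + a) x = x := by
    rw [hA.add, h, ← hA.add, neg_add_cancel, hA.zero]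
  have := hA.free _ _ h1
  have h2 : a = b + (-b + a) := by abel
  rw [h2, this, add_zero]

theorem Sepd.unique (hA : IsFree act) {S : ℕ} {C : Set X} (hC : Sepd act S C) {z : X}
    {a b : Fin n → ℤ} (ha : act a z ∈ C) (hb : act b z ∈ C) (h : nrm (b - a) ≤ S) : a = b := by
  by_contra hne
  have h1 : b - a ≠ 0 := fun h0 => hne (sub_eq_zero.1 h0).symm
  apply hC _ ha _ h1 h
  rw [← hA.add, sub_add_cancel]
  exact hb

variable {C : ℕ → Set X} {qq : ℕ → ℕ} {p : Pars qq}

theorem cen_eq_some (hA : IsFree act) (hC : ∀ j, Sepd act (2 * p.R j + p.L j) (C j)) (j : ℕ)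
    (z : X) (γ : Fin n → ℤ) :
    cen act C p.R j z = some γ ↔ nrm γ ≤ p.R j ∧ act γ z ∈ C j := by
  unfold cen
  split_ifs with h
  · have h1 := h.choose_spec
    constructor
    · intro h2
      rw [Option.some.inj h2] at h1
      exact h1
    · rintro ⟨h2, h3⟩
      congr 1
      apply (hC j).unique hA h1.2 h3
      have := nrm_sub γ h.choose
      omega
  · constructor
    · intro h2; exact absurd h2 (by simp)
    · intro h2; exact absurd ⟨γ, h2⟩ h

theorem cen_eq_none (j : ℕ) (z : X) :
    cen act C p.R j z = none ↔ ∀ γ, nrm γ ≤ p.R j → act γ z ∉ C j := by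
  unfold cen
  split_ifs with h
  · simp only [false_iff]
    push Not
    exact h
  · push Not at h
    simpa using h

variable (act C p)

/-- The next representative. -/
noncomputable def nxt (j : ℕ) (z : X) : X :=
  match cen act C p.R j z with
  | some γ => act γ z
  | none => z

/-- Iterated representatives. -/
noncomputable def itn : ℕ → ℕ → X → X
  | 0, _, z => z
  | (d + 1), j, z => itn d (j + 1) (nxt act C p j z)

/-- The position at level `j` given the position at level `j + 1`. -/
noncomputable def off (j : ℕ) (z : X) (x : Fin n → ℤ) : Fin n → ℤ :=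
  match cen act C p.R j z with
  | some γ => -γ + x + bet (p.L j) (p.R j) (p.q j) γ x
  | none => x

/-- Positions. -/
noncomputable def pos : ℕ → ℕ → X → (Fin n → ℤ)
  | 0, j, z =>
    match cen act C p.R j z with
    | some γ => -γ
    | none => 0
  | (d + 1), j, z => off act C p j z (pos d (j + 1) (nxt act C p j z))

/-- Captured points. -/
def Capt (d j : ℕ) (z : X) : Prop :=
  ∃ γ, nrm γ ≤ p.rr (j + d) ∧ act γ (itn act C p d j z) ∈ C (j + d)

/-- Points with top centre `c`. -/
def TC (d j : ℕ) (z : X) (c : X) : Prop :=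
  ∃ γ, nrm γ ≤ p.R (j + d) ∧ act γ (itn act C p d j z) = c ∧ c ∈ C (j + d)

variable {act C p}

theorem Pars.rr_le (p : Pars qq) (j : ℕ) : p.rr j ≤ p.R j := by
  rw [p.hR]; omega

theorem off_add (j : ℕ) (z : X) (x v : Fin n → ℤ) :
    off act C p j z (x + (p.q j : ℤ) • v) = off act C p j z x + (p.q j : ℤ) • v := by
  unfold off
  split
  · rw [bet_add]; abel
  · rfl

theorem off_add' (j d : ℕ) (z : X) (x v : Fin n → ℤ) :
    off act C p j z (x + (p.q (j + d) : ℤ) • v) = off act C p j z x + (p.q (j + d) : ℤ) • v := by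
  obtain ⟨e, he⟩ := p.q_dvd j d
  have : (p.q (j + d) : ℤ) • v = (p.q j : ℤ) • ((e : ℤ) • v) := by
    rw [he, smul_smul]; push_cast; rfl
  rw [this, off_add]

theorem nrm_off (hA : IsFree act) (hC : ∀ j, Sepd act (2 * p.R j + p.L j) (C j)) (j : ℕ) (z : X)
    (x : Fin n → ℤ) :
    nrm (off act C p j z x) ≤ nrm x + p.R j + p.q j := by
  unfold off
  split
  · rename_i γ h
    rw [cen_eq_some hA hC] at h
    have h1 := nrm_add (-γ + x) (bet (p.L j) (p.R j) (p.q j) γ x)
    have h2 := nrm_add (-γ) x
    rw [nrm_neg] at h2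
    have h3 := nrm_bet (p.L j) (p.R j) (p.q j) (p.hq j) γ x
    have := h.1
    omega
  · omega

/-- Positions given by different stages agree up to periods. -/
theorem pos_consistent (hA : IsFree act) (hC : ∀ j, Sepd act (2 * p.R j + p.L j) (C j))
    (d : ℕ) : ∀ (j : ℕ) (z : X), Capt act C p d j z → ∀ e, ∃ v : Fin n → ℤ,
      pos act C p (d + e) j z = pos act C p d j z + (p.q (j + d) : ℤ) • v := by
  induction d with
  | zero =>
    intro j z hz e
    obtain ⟨γ, h1, h2⟩ := hz
    simp only [add_zero, itn] at h1 h2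
    have hc : cen act C p.R j z = some γ :=
      (cen_eq_some hA hC j z γ).2 ⟨h1.trans (p.rr_le j), h2⟩
    cases e with
    | zero => exact ⟨0, by simp⟩
    | succ e =>
      obtain ⟨v, hv⟩ := add_cor (p.q j) (pos act C p e (j + 1) (nxt act C p j z))
      refine ⟨v, ?_⟩
      rw [zero_add]
      simp only [pos, off, hc, add_zero]
      rw [bet_full _ _ _ (by have := p.L_pos j; omega) (p.hq j) _ _ (by rw [p.hR]; omega),
        add_assoc, hv]
  | succ d ih =>
    intro j z hz e
    have hz' : Capt act C p d (j + 1) (nxt act C p j z) := by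
      obtain ⟨γ, h1, h2⟩ := hz
      refine ⟨γ, ?_, ?_⟩
      · rwa [add_right_comm]
      · simp only [itn] at h2
        rwa [add_right_comm]
    obtain ⟨v, hv⟩ := ih (j + 1) _ hz' e
    refine ⟨v, ?_⟩
    have e1 : d + 1 + e = (d + e) + 1 := by ring
    have e2 : j + 1 + d = j + (d + 1) := by ring
    rw [e1]
    simp only [pos]
    rw [hv, e2, off_add']

theorem pos_bound (hA : IsFree act) (hC : ∀ j, Sepd act (2 * p.R j + p.L j) (C j))
    (d : ℕ) : ∀ (j : ℕ) (z : X), Capt act C p d j z →
      nrm (pos act C p d j z) + p.B j ≤ p.rr (j + d) + p.B (j + d) := by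
  induction d with
  | zero =>
    intro j z hz
    obtain ⟨γ, h1, h2⟩ := hz
    simp only [add_zero, itn] at h1 h2
    have hc : cen act C p.R j z = some γ :=
      (cen_eq_some hA hC j z γ).2 ⟨h1.trans (p.rr_le j), h2⟩
    simp only [pos, hc, nrm_neg, add_zero]
    omega
  | succ d ih =>
    intro j z hz
    have hz' : Capt act C p d (j + 1) (nxt act C p j z) := by
      obtain ⟨γ, h1, h2⟩ := hz
      refine ⟨γ, ?_, ?_⟩
      · rwa [add_right_comm]
      · simp only [itn] at h2
        rwa [add_right_comm]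
    have h1 := ih (j + 1) _ hz'
    have e2 : j + 1 + d = j + (d + 1) := by ring
    rw [e2, p.hB] at h1
    simp only [pos]
    have := nrm_off hA hC j z (pos act C p d (j + 1) (nxt act C p j z))
    omega

theorem itn_disp (hA : IsFree act) (hC : ∀ j, Sepd act (2 * p.R j + p.L j) (C j))
    (d : ℕ) : ∀ (j : ℕ) (z : X), ∃ γ, itn act C p d j z = act γ z ∧
      nrm γ + p.P j ≤ p.P (j + d) := by
  induction d with
  | zero => intro j z; exact ⟨0, (hA.zero z).symm, by rw [nrm_zero]; simp⟩
  | succ d ih =>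
    intro j z
    obtain ⟨γ, h1, h2⟩ := ih (j + 1) (nxt act C p j z)
    have e2 : j + 1 + d = j + (d + 1) := by ring
    rw [e2, p.hP] at h2
    have : ∃ γ', nxt act C p j z = act γ' z ∧ nrm γ' ≤ p.R j := by
      unfold nxt
      split
      · rename_i γ' h
        exact ⟨γ', rfl, ((cen_eq_some hA hC j z γ').1 h).1⟩
      · exact ⟨0, (hA.zero z).symm, by rw [nrm_zero]; exact Nat.zero_le _⟩
    obtain ⟨γ', h3, h4⟩ := this
    refine ⟨γ + γ', ?_, ?_⟩
    · simp only [itn]
      rw [h1, hA.add, ← h3]
    · have := nrm_add γ γ'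
      omega

/-- Points close to `C k` are captured at stage `k`. -/
theorem capt_of_mem (hA : IsFree act) (hC : ∀ j, Sepd act (2 * p.R j + p.L j) (C j))
    (k : ℕ) (x : X) (w : Fin n → ℤ) (hw : nrm w ≤ 5) :
    ∃ γ, nrm γ ≤ p.rr k ∧ act γ (itn act C p k 0 (act w x)) = x := by
  obtain ⟨γ, h1, h2⟩ := itn_disp hA hC k 0 (act w x)
  rw [p.hP0, zero_add, add_zero] at h2
  refine ⟨-(γ + w), ?_, ?_⟩
  · rw [nrm_neg, p.hrr]
    have := nrm_add γ w
    omega
  · rw [h1, ← hA.add, ← hA.add]
    have : -(γ + w) + (γ + w) = 0 := by abel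
    rw [add_assoc, this, hA.zero]

theorem TC_step {d j : ℕ} {z c : X} (h : TC act C p (d + 1) j z c) :
    TC act C p d (j + 1) (nxt act C p j z) c := by
  obtain ⟨γ, h1, h2, h3⟩ := h
  have e2 : j + 1 + d = j + (d + 1) := by ring
  refine ⟨γ, ?_, ?_, ?_⟩
  · rwa [e2]
  · simpa only [itn] using h2
  · rwa [e2]

/-- Positions are slow. -/
theorem pos_slow (hA : IsFree act) (hC : ∀ j, Sepd act (2 * p.R j + p.L j) (C j)) (c : X)
    (d : ℕ) : ∀ (j : ℕ) (z : X) (w : Fin n → ℤ), nrm w ≤ p.L j → TC act C p d j z c →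
      TC act C p d j (act w z) c →
      nrm (pos act C p d j (act w z) - pos act C p d j z - w) ≤ 1 := by
  induction d with
  | zero =>
    intro j z w hw h1 h2
    obtain ⟨γ, a1, a2, a3⟩ := h1
    obtain ⟨γ', b1, b2, b3⟩ := h2
    simp only [add_zero, itn] at a1 a2 a3 b1 b2 b3
    have hc : cen act C p.R j z = some γ := (cen_eq_some hA hC j z γ).2 ⟨a1, by rw [a2]; exact a3⟩
    have hc' : cen act C p.R j (act w z) = some γ' :=
      (cen_eq_some hA hC j _ γ').2 ⟨b1, by rw [b2]; exact b3⟩
    have e : γ' + w = γ := by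
      apply hA.inj (x := z)
      rw [hA.add, b2, a2]
    simp only [pos, hc, hc']
    have : -γ' - -γ - w = 0 := by rw [← e]; abel
    rw [this, nrm_zero]
    exact Nat.zero_le _
  | succ d ih =>
    intro j z w hw h1 h2
    have k1 := TC_step h1
    have k2 := TC_step h2
    have hLp := p.L_pos j
    have hR := p.hR j
    have hL := p.hL j
    simp only [pos]
    rcases hc : cen act C p.R j z with _ | γ
    · rcases hc' : cen act C p.R j (act w z) with _ | γ'
      · -- both outside
        have n1 : nxt act C p j z = z := by simp only [nxt, hc]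
        have n2 : nxt act C p j (act w z) = act w z := by simp only [nxt, hc']
        rw [n1] at k1
        rw [n2] at k2
        rw [n1, n2]
        simp only [off, hc, hc']
        exact ih (j + 1) z w (by omega) k1 k2
      · -- the second point is inside
        have n1 : nxt act C p j z = z := by simp only [nxt, hc]
        have n2 : nxt act C p j (act w z) = act (γ' + w) z := by
          simp only [nxt, hc']; rw [hA.add]
        have hc'' := (cen_eq_some hA hC j _ γ').1 hc'
        have far : p.R j < nrm (γ' + w) := by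
          by_contra hcon
          have := (cen_eq_none (p := p) j z).1 hc (γ' + w) (by omega)
          apply this
          rw [hA.add]
          exact hc''.2
        have t1 := nrm_add γ' w
        rw [n1] at k1
        rw [n2] at k2
        rw [n1, n2]
        simp only [off, hc, hc']
        rw [bet_zero _ _ _ _ _ (by omega)]
        have := ih (j + 1) z (γ' + w) (by omega) k1 k2
        convert this using 2
        abel
    · have hc0 := (cen_eq_some hA hC j _ γ).1 hc
      rcases hc' : cen act C p.R j (act w z) with _ | γ'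
      · -- the first point is inside
        have n1 : nxt act C p j z = act γ z := by simp only [nxt, hc]
        have n2 : nxt act C p j (act w z) = act (w - γ) (act γ z) := by
          simp only [nxt, hc']; rw [← hA.add, sub_add_cancel]
        have far : p.R j < nrm (γ - w) := by
          by_contra hcon
          have := (cen_eq_none (p := p) j (act w z)).1 hc' (γ - w) (by omega)
          apply this
          rw [← hA.add, sub_add_cancel]
          exact hc0.2
        have t1 := nrm_sub γ w
        have t2 := nrm_sub w γ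
        rw [n1] at k1
        rw [n2] at k2
        rw [n1, n2]
        simp only [off, hc, hc']
        rw [bet_zero _ _ _ _ _ (by omega)]
        have := ih (j + 1) (act γ z) (w - γ) (by omega) k1 k2
        convert this using 2
        abel
      · -- both inside
        have hc1 := (cen_eq_some hA hC j _ γ').1 hc'
        have e : γ = γ' + w := by
          apply (hC j).unique hA hc0.2 (by rw [hA.add]; exact hc1.2)
          have t1 := nrm_sub (γ' + w) γ
          have t2 := nrm_add γ' w
          omega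
        have n1 : nxt act C p j z = act γ z := by simp only [nxt, hc]
        have n2 : nxt act C p j (act w z) = act γ z := by
          simp only [nxt, hc']; rw [e, hA.add]
        rw [n1, n2]
        simp only [off, hc, hc']
        have hb := bet_slow (p.L j) (p.R j) (p.q j) (by omega) γ γ'
          (pos act C p d (j + 1) (act γ z)) (by
            have : γ' - γ = -w := by rw [e]; abel
            rw [this, nrm_neg]; exact hw)
        convert hb using 2
        rw [e]
        abel

end act

end Pool.Agent.H51
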