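import Mathlib
import Pool.Agent.Lib.H51.Pos

set_option autoImplicit false

/-!
# Baire measurable labellings
-/

namespace Pool.Agent.H51

open Function Set Filter Topology

variable {n : ℕ}

/-- Labellings which are periodic on every ball. -/
def Toeplitz {α : Type} (y : (Fin n → ℤ) → α) : Prop :=
  ∀ N, ∃ q : ℕ, 0 < q ∧ ∀ h, nrm h ≤ N → ∀ v : Fin n → ℤ, y (h + (q : ℤ) • v) = y h

theorem finite_ball (S : ℕ) : {γ : Fin n → ℤ | nrm γ ≤ S}.Finite := by
  have : {γ : Fin n → ℤ | nrm γ ≤ S} ⊆ Set.univ.pi (fun _ : Fin n => Set.Icc (-(S : ℤ)) S) := by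
    intro γ hγ i _
    have := nrm_le.1 hγ i
    simp only [Set.mem_Icc]
    omega
  exact (Set.Finite.pi (fun _ => Set.finite_Icc _ _)).subset this

instance (S : ℕ) : Finite {γ : Fin n → ℤ // nrm γ ≤ S} := (finite_ball S).to_subtype

section borel

variable {X : Type} [TopologicalSpace X] [PolishSpace X] [MeasurableSpace X] [BorelSpace X]
  {act : (Fin n → ℤ) → X → X}

theorem exists_basis_seq (X : Type) [TopologicalSpace X] [PolishSpace X] :
    ∃ O : ℕ → Set X, (∀ i, IsOpen (O i)) ∧ ∀ U : Set X, IsOpen U → ∀ x ∈ U, ∃ i, x ∈ O i ∧ O i ⊆ U := by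
  obtain ⟨b, hb, _, hbas⟩ := TopologicalSpace.exists_countable_basis X
  have hb' : (insert univ b).Countable := hb.insert _
  obtain ⟨O, hO⟩ := hb'.exists_eq_range (insert_nonempty _ _)
  refine ⟨O, fun i => ?_, fun U hU x hx => ?_⟩
  · have : O i ∈ insert univ b := by rw [hO]; exact mem_range_self i
    rcases this with h | h
    · rw [h]; exact isOpen_univ
    · exact hbas.isOpen h
  · obtain ⟨v, hv, hxv, hvU⟩ := hbas.exists_subset_of_mem_open hx hU
    have : v ∈ range O := by rw [← hO]; exact mem_insert_of_mem _ hv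
    obtain ⟨i, rfl⟩ := this
    exact ⟨i, hxv, hvU⟩

/-- Countable covers by separated Borel sets. -/
theorem exists_cover (hA : IsFree act) (hm : ∀ γ, Measurable (act γ)) (S : ℕ) :
    ∃ E : ℕ → Set X, (∀ i, MeasurableSet (E i)) ∧ (∀ i, Sepd act S (E i)) ∧ ∀ x, ∃ i, x ∈ E i := by
  obtain ⟨O, hO, hbas⟩ := exists_basis_seq X
  refine ⟨fun i => O i ∩ ⋂ γ : Fin n → ℤ, {x | γ ≠ 0 → nrm γ ≤ S → act γ x ∉ O i}, fun i => ?_,
    fun i x hx γ h1 h2 hcon => ?_, fun x => ?_⟩
  · refine (hO i).measurableSet.inter (MeasurableSet.iInter fun γ => ?_)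
    by_cases h : γ ≠ 0 ∧ nrm γ ≤ S
    · have : {x | γ ≠ 0 → nrm γ ≤ S → act γ x ∉ O i} = (act γ ⁻¹' O i)ᶜ := by
        ext x
        simp only [Set.mem_ofPred_eq, mem_compl_iff, mem_preimage]
        tauto
      rw [this]
      exact (hm γ (hO i).measurableSet).compl
    · have : {x | γ ≠ 0 → nrm γ ≤ S → act γ x ∉ O i} = univ := by
        ext x
        simp only [Set.mem_ofPred_eq, mem_univ, iff_true]
        intro h1 h2
        exact absurd ⟨h1, h2⟩ h
      rw [this]
      exact MeasurableSet.univ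
  · have := mem_iInter.1 hx.2 γ h1 h2
    exact this hcon.1
  · have hfin : ((fun γ => act γ x) '' {γ : Fin n → ℤ | γ ≠ 0 ∧ nrm γ ≤ S}).Finite :=
      ((finite_ball S).subset fun γ h => h.2).image _
    have hop : IsOpen ((fun γ => act γ x) '' {γ : Fin n → ℤ | γ ≠ 0 ∧ nrm γ ≤ S})ᶜ :=
      hfin.isClosed.isOpen_compl
    obtain ⟨i, hi, hi'⟩ := hbas _ hop x (by
      rintro ⟨γ, ⟨h1, _⟩, h2⟩
      exact h1 (hA.free _ _ h2))
    refine ⟨i, hi, mem_iInter.2 fun γ h1 h2 hcon => ?_⟩
    exact hi' hcon ⟨γ, ⟨h1, h2⟩, rfl⟩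

/-- Generic sequences of separated sets. -/
theorem exists_generic (hA : IsFree act) (hm : ∀ γ, Measurable (act γ)) (S : ℕ → ℕ) :
    ∃ C : ℕ → Set X, (∀ j, MeasurableSet (C j)) ∧ (∀ j, Sepd act (S j) (C j)) ∧
      {x | ∀ γ, ∃ k, act γ x ∈ C k} ∈ residual X := by
  obtain ⟨O, hO, hbas⟩ := exists_basis_seq X
  choose E hE1 hE2 hE3 using fun s => exists_cover hA hm s
  obtain ⟨f, hf⟩ := exists_surjective_nat (ℕ × (Fin n → ℤ))
  have hch : ∀ k, ∃ m, (O (f k).1).Nonempty →
      ¬ IsMeagre (O (f k).1 ∩ act (f k).2 ⁻¹' (E (S k) m)) := by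
    intro k
    by_cases hne : (O (f k).1).Nonempty
    · by_contra hcon
      push Not at hcon
      have : IsMeagre (⋃ m, O (f k).1 ∩ act (f k).2 ⁻¹' (E (S k) m)) :=
        isMeagre_iUnion fun m => (hcon m).2
      have h2 : (⋃ m, O (f k).1 ∩ act (f k).2 ⁻¹' (E (S k) m)) = O (f k).1 := by
        rw [← inter_iUnion, inter_eq_left]
        intro x _
        obtain ⟨m, hm⟩ := hE3 (S k) (act (f k).2 x)
        exact mem_iUnion.2 ⟨m, hm⟩
      rw [h2] at this
      exact not_isMeagre_of_isOpen (hO _) hne this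
    · exact ⟨0, fun h => absurd h hne⟩
  choose g hg using hch
  refine ⟨fun k => E (S k) (g k), fun j => hE1 _ _, fun j => hE2 _ _, ?_⟩
  have key : ∀ γ, (⋃ k, act γ ⁻¹' (E (S k) (g k))) ∈ residual X := by
    intro γ
    have hmeas : MeasurableSet (⋃ k, act γ ⁻¹' (E (S k) (g k)))ᶜ :=
      (MeasurableSet.iUnion fun k => hm γ (hE1 _ _)).compl
    obtain ⟨V, hV, hVe⟩ := hmeas.residualEq_isOpen
    have hVemp : V = ∅ := by
      by_contra hne
      obtain ⟨x, hx⟩ := nonempty_iff_ne_empty.2 hne
      obtain ⟨i, hxi, hiV⟩ := hbas V hV x hx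
      obtain ⟨k, hk⟩ := hf (i, γ)
      have h1 := hg k (by rw [hk]; exact ⟨x, hxi⟩)
      rw [hk] at h1
      apply h1
      change (O i ∩ act γ ⁻¹' E (S k) (g k))ᶜ ∈ residual X
      filter_upwards [hVe] with z hz
      intro hcon
      have h2 : z ∈ V := hiV hcon.1
      have h3 : z ∈ (⋃ k, act γ ⁻¹' (E (S k) (g k)))ᶜ := by
        have := hz.symm
        exact (this ▸ h2 : (⋃ k, act γ ⁻¹' (E (S k) (g k)))ᶜ z)
      exact h3 (mem_iUnion.2 ⟨k, hcon.2⟩)
    rw [hVemp] at hVe
    filter_upwards [hVe] with z hz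
    by_contra hcon
    have h3 : z ∈ (⋃ k, act γ ⁻¹' (E (S k) (g k)))ᶜ := hcon
    have : z ∈ (∅ : Set X) := by
      exact (hz ▸ h3 : (∅ : Set X) z)
    exact this
  have := countable_iInter_mem.2 key
  refine mem_of_superset this ?_
  intro x hx γ
  obtain ⟨k, hk⟩ := mem_iUnion.1 (mem_iInter.1 hx γ)
  exact ⟨k, hk⟩

end borel

section cm

variable {X : Type} [MeasurableSpace X] {ι κ : Type}

/-- Measurable maps to countable discrete spaces. -/
def Cm (f : X → ι) : Prop := ∀ v, MeasurableSet {x | f x = v}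

theorem Cm.const (v : ι) : Cm (fun _ : X => v) := by
  intro w
  by_cases h : v = w
  · simp [h]
  · simp [h]

theorem Cm.bind [Countable ι] {f : X → ι} {F : ι → X → κ} (hf : Cm f) (hF : ∀ i, Cm (F i)) :
    Cm (fun x => F (f x) x) := by
  intro v
  have : {x | F (f x) x = v} = ⋃ i, {x | f x = i} ∩ {x | F i x = v} := by
    ext x
    simp
  rw [this]
  exact MeasurableSet.iUnion fun i => (hf i).inter (hF i v)

theorem Cm.map [Countable ι] {f : X → ι} (hf : Cm f) (g : ι → κ) : Cm (fun x => g (f x)) :=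
  hf.bind (F := fun i _ => g i) (fun i => Cm.const (g i))

theorem Cm.comp {f : X → ι} (hf : Cm f) {a : X → X} (ha : Measurable a) :
    Cm (fun x => f (a x)) := fun v => ha (hf v)

theorem Cm.prop {p : X → Prop} (h : MeasurableSet {x | p x}) : Cm p := by
  intro v
  by_cases hv : v
  · have : {x | p x = v} = {x | p x} := by
      ext x; simp [hv]
    rw [this]; exact h
  · have : {x | p x = v} = {x | p x}ᶜ := by
      ext x; simp [hv]
    rw [this]; exact h.compl

theorem Cm.measurableSet {p : X → Prop} (h : Cm p) : MeasurableSet {x | p x} := by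
  have := h True
  simpa using this

end cm

section label

variable {X : Type} [MeasurableSpace X] {act : (Fin n → ℤ) → X → X} {C : ℕ → Set X} {qq : ℕ → ℕ} {p : Pars qq}

theorem cm_cen (hA : IsFree act) (hm : ∀ γ, Measurable (act γ)) (hCm : ∀ j, MeasurableSet (C j))
    (hC : ∀ j, Sepd act (2 * p.R j + p.L j) (C j)) (j : ℕ) : Cm (cen act C p.R j) := by
  intro v
  cases v with
  | none =>
    have : {z | cen act C p.R j z = none} =
        ⋂ γ : Fin n → ℤ, {z | nrm γ ≤ p.R j → act γ z ∉ C j} := by
      ext z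
      simp only [Set.mem_ofPred_eq, cen_eq_none, mem_iInter]
    rw [this]
    refine MeasurableSet.iInter fun γ => ?_
    by_cases h : nrm γ ≤ p.R j
    · have : {z | nrm γ ≤ p.R j → act γ z ∉ C j} = (act γ ⁻¹' C j)ᶜ := by
        ext z; simp [h]
      rw [this]
      exact (hm γ (hCm j)).compl
    · have : {z | nrm γ ≤ p.R j → act γ z ∉ C j} = univ := by
        ext z; simp [h]
      rw [this]
      exact MeasurableSet.univ
  | some γ =>
    by_cases h : nrm γ ≤ p.R j
    · have : {z | cen act C p.R j z = some γ} = act γ ⁻¹' C j := by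
        ext z
        simp only [Set.mem_ofPred_eq, cen_eq_some hA hC, mem_preimage, h, true_and]
      rw [this]
      exact hm γ (hCm j)
    · have : {z | cen act C p.R j z = some γ} = ∅ := by
        ext z
        simp only [Set.mem_ofPred_eq, cen_eq_some hA hC, h, false_and, mem_empty_iff_false]
      rw [this]
      exact MeasurableSet.empty

theorem cm_nxt {ι : Type} (hA : IsFree act) (hm : ∀ γ, Measurable (act γ))
    (hCm : ∀ j, MeasurableSet (C j))
    (hC : ∀ j, Sepd act (2 * p.R j + p.L j) (C j)) (j : ℕ) {g : X → ι} (hg : Cm g) :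
    Cm (fun z => g (nxt act C p j z)) := by
  have := (cm_cen hA hm hCm hC j).bind (F := fun o z =>
    match o with
    | some γ => g (act γ z)
    | none => g z) (by
      intro o
      cases o with
      | none => exact hg
      | some γ => exact hg.comp (hm γ))
  convert this using 2 with z
  unfold nxt
  split <;> simp_all

theorem cm_pos (hA : IsFree act) (hm : ∀ γ, Measurable (act γ))
    (hCm : ∀ j, MeasurableSet (C j))
    (hC : ∀ j, Sepd act (2 * p.R j + p.L j) (C j)) (d : ℕ) :
    ∀ j, Cm (pos act C p d j) := by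
  induction d with
  | zero =>
    intro j
    exact (cm_cen hA hm hCm hC j).map (fun o => match o with
      | some γ => -γ
      | none => 0)
  | succ d ih =>
    intro j
    have h1 := cm_nxt hA hm hCm hC j (ih (j + 1))
    have h2 := (cm_cen hA hm hCm hC j).bind (F := fun o z =>
      match o with
      | some γ => -γ + pos act C p d (j + 1) (nxt act C p j z) +
          bet (p.L j) (p.R j) (p.q j) γ (pos act C p d (j + 1) (nxt act C p j z))
      | none => pos act C p d (j + 1) (nxt act C p j z)) (by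
        intro o
        cases o with
        | none => exact h1
        | some γ => exact h1.map (fun x => -γ + x + bet (p.L j) (p.R j) (p.q j) γ x))
    exact h2

theorem cm_capt (hA : IsFree act) (hm : ∀ γ, Measurable (act γ))
    (hCm : ∀ j, MeasurableSet (C j))
    (hC : ∀ j, Sepd act (2 * p.R j + p.L j) (C j)) (d : ℕ) :
    ∀ j, Cm (Capt act C p d j) := by
  induction d with
  | zero =>
    intro j
    apply Cm.prop
    have : {z | Capt act C p 0 j z} =
        ⋃ γ : Fin n → ℤ, {z | nrm γ ≤ p.rr j ∧ act γ z ∈ C j} := by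
      ext z
      simp only [Capt, add_zero, itn, Set.mem_ofPred_eq, mem_iUnion]
    rw [this]
    refine MeasurableSet.iUnion fun γ => ?_
    by_cases h : nrm γ ≤ p.rr j
    · have : {z | nrm γ ≤ p.rr j ∧ act γ z ∈ C j} = act γ ⁻¹' C j := by
        ext z; simp [h]
      rw [this]
      exact hm γ (hCm j)
    · have : {z | nrm γ ≤ p.rr j ∧ act γ z ∈ C j} = ∅ := by
        ext z; simp [h]
      rw [this]
      exact MeasurableSet.empty
  | succ d ih =>
    intro j
    have h1 := cm_nxt hA hm hCm hC j (ih (j + 1))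
    convert h1 using 2 with z
    unfold Capt
    have e : j + 1 + d = j + (d + 1) := by ring
    rw [e]
    rfl

open scoped Classical in
/-- The first stage capturing a point. -/
noncomputable def stage (act : (Fin n → ℤ) → X → X) (C : ℕ → Set X) (p : Pars qq) (x : X) : ℕ :=
  if h : ∃ m, Capt act C p m 0 x then Nat.find h else 0

omit [MeasurableSpace X] in
theorem stage_spec (x : X) (k : ℕ) (h : Capt act C p k 0 x) :
    Capt act C p (stage act C p x) 0 x ∧ stage act C p x ≤ k := by
  classical
  have hex : ∃ m, Capt act C p m 0 x := ⟨k, h⟩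
  unfold stage
  rw [dif_pos hex]
  exact ⟨Nat.find_spec hex, Nat.find_min' hex h⟩

theorem cm_stage (hA : IsFree act) (hm : ∀ γ, Measurable (act γ))
    (hCm : ∀ j, MeasurableSet (C j))
    (hC : ∀ j, Sepd act (2 * p.R j + p.L j) (C j)) : Cm (stage act C p) := by
  classical
  intro k
  have hM : ∀ m, MeasurableSet {x | Capt act C p m 0 x} := fun m =>
    (cm_capt hA hm hCm hC m 0).measurableSet
  have : {x | stage act C p x = k} =
      ({x | Capt act C p k 0 x} ∩ ⋂ j : ℕ, {x | j < k → ¬ Capt act C p j 0 x}) ∪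
      ({_x | k = 0} ∩ ⋂ j : ℕ, {x | Capt act C p j 0 x}ᶜ) := by
    ext x
    simp only [Set.mem_ofPred_eq, mem_union, mem_inter_iff, mem_iInter, mem_compl_iff]
    constructor
    · intro hk
      by_cases hex : ∃ m, Capt act C p m 0 x
      · left
        unfold stage at hk
        rw [dif_pos hex] at hk
        exact (Nat.find_eq_iff hex).1 hk
      · right
        unfold stage at hk
        rw [dif_neg hex] at hk
        push Not at hex
        exact ⟨hk.symm, hex⟩
    · rintro (⟨h1, h2⟩ | ⟨h1, h2⟩)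
      · have hex : ∃ m, Capt act C p m 0 x := ⟨k, h1⟩
        unfold stage
        rw [dif_pos hex]
        exact (Nat.find_eq_iff hex).2 ⟨h1, h2⟩
      · have hex : ¬ ∃ m, Capt act C p m 0 x := by push Not; exact h2
        unfold stage
        rw [dif_neg hex, h1]
  rw [this]
  refine MeasurableSet.union ((hM k).inter (MeasurableSet.iInter fun j => ?_))
    (MeasurableSet.inter (by by_cases h : k = 0 <;> simp [h])
      (MeasurableSet.iInter fun j => (hM j).compl))
  by_cases h : j < k
  · have : {x | j < k → ¬ Capt act C p j 0 x} = {x | Capt act C p j 0 x}ᶜ := by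
      ext x; simp [h]
    rw [this]
    exact (hM j).compl
  · have : {x | j < k → ¬ Capt act C p j 0 x} = univ := by
      ext x; simp [h]
    rw [this]
    exact MeasurableSet.univ

end label

/-- Baire measurable labellings with almost rigid windows. -/
theorem baire_label {α : Type} {y : (Fin n → ℤ) → α} (hT : Toeplitz y)
    {X : Type} [TopologicalSpace X] [PolishSpace X] [MeasurableSpace X] [BorelSpace X]
    {act : (Fin n → ℤ) → X → X} (hA : IsFree act) (hm : ∀ γ, Measurable (act γ)) :
    ∃ f : X → Win n α, (∀ w, ∃ u : Set X, IsOpen u ∧ EventuallyEq (residual X) (f ⁻¹' {w}) u) ∧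
      ∀ x, ∃ s : (Fin n → ℤ) → (Fin n → ℤ),
        (∀ w w', nrm w ≤ 5 → nrm w' ≤ 5 → nrm (s w' - s w - (w' - w)) ≤ 1) ∧
        ∀ w, nrm w ≤ 5 → ∀ v : {v : Fin n → ℤ // nrm v ≤ 2}, f (act w x) v = y (s w + v.1) := by
  classical
  choose qq hqq0 hqq using hT
  let p := mkPars qq hqq0
  obtain ⟨C, hCm, hC, hG⟩ := exists_generic hA hm (fun j => 2 * p.R j + p.L j)
  set G : Set X := {x | ∀ γ, ∃ k, act γ x ∈ C k} with hGdef
  have hGinv : ∀ x ∈ G, ∀ w, act w x ∈ G := by
    intro x hx w γ
    obtain ⟨k, hk⟩ := hx (γ + w)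
    exact ⟨k, by rwa [hA.add] at hk⟩
  have hGinv' : ∀ x, x ∉ G → ∀ w, act w x ∉ G := by
    intro x hx w hcon
    apply hx
    have := hGinv _ hcon (-w)
    rwa [← hA.add, neg_add_cancel, hA.zero] at this
  -- the generic part
  let f0 : X → Win n α := fun x v => y (pos act C p (stage act C p x) 0 x + v.1)
  have hf0 : Cm f0 := by
    have h1 : Cm (fun x => pos act C p (stage act C p x) 0 x) :=
      (cm_stage hA hm hCm hC).bind (F := fun k x => pos act C p k 0 x)
        (fun k => cm_pos hA hm hCm hC k 0)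
    exact h1.map (fun q => fun v : {v : Fin n → ℤ // nrm v ≤ 2} => y (q + v.1))
  -- the rest
  let st : Setoid X := ⟨fun x x' => ∃ γ, act γ x = x',
    ⟨fun x => ⟨0, hA.zero x⟩, fun {x x'} ⟨γ, h⟩ => ⟨-γ, by
      rw [← h, ← hA.add, neg_add_cancel, hA.zero]⟩,
      fun {x x' x''} ⟨γ, h⟩ ⟨γ', h'⟩ => ⟨γ' + γ, by rw [hA.add, h, h']⟩⟩⟩
  let base : X → X := fun x => (Quotient.mk st x).out
  have hbase : ∀ x, ∃ γ, act γ (base x) = x := fun x => Quotient.mk_out (s := st) x
  choose dd hdd using hbase
  have hbinv : ∀ w x, base (act w x) = base x := by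
    intro w x
    simp only [base]
    congr 1
    apply Quotient.sound
    exact ⟨-w, by rw [← hA.add, neg_add_cancel, hA.zero]⟩
  have hdinv : ∀ w x, dd (act w x) = w + dd x := by
    intro w x
    apply hA.inj (x := base x)
    rw [hA.add, hdd x, ← hbinv w x, hdd]
  let f1 : X → Win n α := fun x v => y (dd x + v.1)
  let f : X → Win n α := fun x => if x ∈ G then f0 x else f1 x
  refine ⟨f, fun w => ?_, fun x => ?_⟩
  · obtain ⟨u, hu, hue⟩ := (hf0 w).residualEq_isOpen
    refine ⟨u, hu, EventuallyEq.trans ?_ hue⟩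
    filter_upwards [hG] with x hx
    apply propext
    change f x = w ↔ f0 x = w
    have : f x = f0 x := if_pos hx
    rw [this]
  · by_cases hx : x ∈ G
    · obtain ⟨k, hk⟩ := hx 0
      rw [hA.zero] at hk
      have hcap : ∀ w, nrm w ≤ 5 → Capt act C p k 0 (act w x) := by
        intro w hw
        obtain ⟨γ, h1, h2⟩ := capt_of_mem (p := p) hA hC k x w hw
        exact ⟨γ, by rwa [zero_add], by rw [h2, zero_add]; exact hk⟩
      have htc : ∀ w, nrm w ≤ 5 → TC act C p k 0 (act w x) x := by
        intro w hw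
        obtain ⟨γ, h1, h2⟩ := capt_of_mem (p := p) hA hC k x w hw
        exact ⟨γ, by rw [zero_add]; exact h1.trans (p.rr_le k), h2, by rw [zero_add]; exact hk⟩
      refine ⟨fun w => pos act C p k 0 (act w x), fun w w' hw hw' => ?_, fun w hw v => ?_⟩
      · have e : act w' x = act (w' - w) (act w x) := by
          rw [← hA.add, sub_add_cancel]
        simp only
        rw [e]
        apply pos_slow hA hC x k 0 (act w x) (w' - w)
        · rw [p.hL0]
          have := nrm_sub w' w
          omega
        · exact htc w hw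
        · rw [← e]; exact htc w' hw'
      · have hfw : f (act w x) = f0 (act w x) := if_pos (hGinv x hx w)
        rw [hfw]
        obtain ⟨h1, h2⟩ := stage_spec (act w x) k (hcap w hw)
        obtain ⟨e, he⟩ : ∃ e, k = stage act C p (act w x) + e :=
          ⟨k - stage act C p (act w x), by omega⟩
        obtain ⟨u, hu⟩ := pos_consistent hA hC _ _ _ h1 e
        rw [← he, zero_add] at hu
        have hb := pos_bound hA hC _ _ _ h1
        rw [zero_add, p.hB0, add_zero] at hb
        set m := stage act C p (act w x) with hmdef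
        obtain ⟨e', he'⟩ := p.hqq m
        simp only [f0]
        rw [hu, ← hmdef]
        have e2 : pos act C p m 0 (act w x) + (p.q m : ℤ) • u + v.1 =
            (pos act C p m 0 (act w x) + v.1) +
              (qq (p.rr m + p.B m + 2) : ℤ) • ((e' : ℤ) • u) := by
          rw [smul_smul, he']
          push_cast
          abel
        rw [e2, hqq]
        have := nrm_add (pos act C p m 0 (act w x)) v.1
        have h5 := v.2
        omega
    · refine ⟨fun w => dd (act w x), fun w w' _ _ => ?_, fun w _ v => ?_⟩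
      · simp only
        rw [hdinv, hdinv]
        have : w' + dd x - (w + dd x) - (w' - w) = 0 := by abel
        rw [this, nrm_zero]
        exact Nat.zero_le _
      · have : f (act w x) = f1 (act w x) := if_neg (hGinv' x hx w)
        rw [this]

end Pool.Agent.H51
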