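import Mathlib
import Pool.Agent.Lib.H51.Flex

set_option autoImplicit false

/-!
# Primitive recursive operations on integer vectors, and unbounded search
-/

namespace Pool.Agent.H51

open Encodable Denumerable

theorem encode_int_ofNat (n : ℕ) : encode (n : ℤ) = 2 * n := rfl

theorem encode_int_negSucc (n : ℕ) : encode (Int.negSucc n) = 2 * n + 1 := rfl

theorem primrec_toNat : Primrec Int.toNat := by
  have h : Primrec fun z : ℤ => if encode z % 2 = 0 then encode z / 2 else 0 := by
    apply Primrec.ite
    · exact (Primrec.eq (α := ℕ)).comp (Primrec.nat_mod.comp Primrec.encode (Primrec.const 2))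
        (Primrec.const 0)
    · exact Primrec.nat_div.comp Primrec.encode (Primrec.const 2)
    · exact Primrec.const 0
  refine h.of_eq fun z => ?_
  cases z with
  | ofNat n =>
    have : encode (Int.ofNat n) = 2 * n := encode_int_ofNat n
    rw [this]
    simp
  | negSucc n =>
    rw [encode_int_negSucc]
    have : (2 * n + 1) % 2 ≠ 0 := by omega
    rw [if_neg this]
    rfl

theorem primrec_toNat_neg : Primrec fun z : ℤ => (-z).toNat := by
  have h : Primrec fun z : ℤ => if encode z % 2 = 0 then 0 else encode z / 2 + 1 := by
    apply Primrec.ite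
    · exact (Primrec.eq (α := ℕ)).comp (Primrec.nat_mod.comp Primrec.encode (Primrec.const 2))
        (Primrec.const 0)
    · exact Primrec.const 0
    · exact Primrec.nat_add.comp (Primrec.nat_div.comp Primrec.encode (Primrec.const 2))
        (Primrec.const 1)
  refine h.of_eq fun z => ?_
  cases z with
  | ofNat n =>
    have : encode (Int.ofNat n) = 2 * n := encode_int_ofNat n
    rw [this, if_pos (by omega)]
    simp
  | negSucc n =>
    rw [encode_int_negSucc]
    have : (2 * n + 1) % 2 ≠ 0 := by omega
    rw [if_neg this]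
    have e : (2 * n + 1) / 2 = n := by omega
    rw [e]
    rfl

theorem primrec_natSub : Primrec₂ fun a b : ℕ => (a : ℤ) - b := by
  have h : Primrec₂ fun a b : ℕ =>
      ofNat ℤ (if b ≤ a then 2 * (a - b) else 2 * (b - a - 1) + 1) := by
    apply (Primrec.ofNat ℤ).comp
    apply Primrec.ite
    · exact Primrec.nat_le.comp Primrec.snd Primrec.fst
    · exact Primrec.nat_mul.comp (Primrec.const 2) (Primrec.nat_sub.comp Primrec.fst Primrec.snd)
    · exact Primrec.nat_add.comp (Primrec.nat_mul.comp (Primrec.const 2)
        (Primrec.nat_sub.comp (Primrec.nat_sub.comp Primrec.snd Primrec.fst) (Primrec.const 1)))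
        (Primrec.const 1)
  refine h.of_eq fun a b => ?_
  split_ifs with hab
  · rw [← encode_int_ofNat, ofNat_encode]
    omega
  · rw [← encode_int_negSucc, ofNat_encode]
    omega

theorem primrec_intAdd : Primrec₂ fun x y : ℤ => x + y := by
  have h : Primrec₂ fun x y : ℤ => ((x.toNat + y.toNat : ℕ) : ℤ) - ((-x).toNat + (-y).toNat : ℕ) :=
    primrec_natSub.comp
      (Primrec.nat_add.comp (primrec_toNat.comp Primrec.fst) (primrec_toNat.comp Primrec.snd))
      (Primrec.nat_add.comp (primrec_toNat_neg.comp Primrec.fst)
        (primrec_toNat_neg.comp Primrec.snd))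
  exact h.of_eq fun x y => by omega

theorem primrec_intSub : Primrec₂ fun x y : ℤ => x - y := by
  have h : Primrec₂ fun x y : ℤ => ((x.toNat + (-y).toNat : ℕ) : ℤ) - ((-x).toNat + y.toNat : ℕ) :=
    primrec_natSub.comp
      (Primrec.nat_add.comp (primrec_toNat.comp Primrec.fst) (primrec_toNat_neg.comp Primrec.snd))
      (Primrec.nat_add.comp (primrec_toNat_neg.comp Primrec.fst)
        (primrec_toNat.comp Primrec.snd))
  exact h.of_eq fun x y => by omega

theorem primrec_clamp : Primrec₂ fun (j : ℕ) (x : ℤ) => max (-(j : ℤ)) (min j x) := by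
  have h : Primrec₂ fun (j : ℕ) (x : ℤ) => ((min j x.toNat : ℕ) : ℤ) - (min j (-x).toNat : ℕ) :=
    primrec_natSub.comp
      (Primrec.nat_min.comp Primrec.fst (primrec_toNat.comp Primrec.snd))
      (Primrec.nat_min.comp Primrec.fst (primrec_toNat_neg.comp Primrec.snd))
  exact h.of_eq fun x y => by omega

theorem primrec_natAbs : Primrec Int.natAbs := by
  have h : Primrec fun x : ℤ => x.toNat + (-x).toNat :=
    Primrec.nat_add.comp primrec_toNat primrec_toNat_neg
  exact h.of_eq fun x => by omega

theorem primrec_natPow2 : Primrec fun k : ℕ => ((2 ^ k : ℕ)) := by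
  have h : Primrec₂ ((· ^ ·) : ℕ → ℕ → ℕ) := Primrec₂.unpaired'.1 Nat.Primrec.pow
  exact h.comp (Primrec.const 2) Primrec.id

theorem primrec_pow2 : Primrec fun k : ℕ => (2 ^ k : ℤ) := by
  have h : Primrec fun k : ℕ => ((2 ^ k : ℕ) : ℤ) - (0 : ℕ) :=
    primrec_natSub.comp primrec_natPow2 (Primrec.const 0)
  exact h.of_eq fun k => by push_cast; ring

/-- The residue modulo `3`. -/
def res3 (x : ℤ) : Fin 3 := ⟨(x % 3).toNat, by omega⟩

theorem res3_cast (x : ℤ) : (((res3 x : ℕ) : ℤ) : ZMod 3) = (x : ZMod 3) := by
  rw [ZMod.intCast_eq_intCast_iff_dvd_sub]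
  simp only [res3]
  omega

theorem primrec_res3 : Primrec res3 := by
  rw [← Primrec.fin_val_iff]
  have h : Primrec fun x : ℤ => (x.toNat + 2 * (-x).toNat) % 3 :=
    Primrec.nat_mod.comp (Primrec.nat_add.comp primrec_toNat
      (Primrec.nat_mul.comp (Primrec.const 2) primrec_toNat_neg)) (Primrec.const 3)
  exact h.of_eq fun x => by simp only [res3]; omega

/-! ### Vectors -/

variable {α β σ : Type} [Primcodable α] [Primcodable β] [Primcodable σ] {n : ℕ}

theorem primrec_pi {f : α → Fin n → σ} (h : ∀ i, Primrec fun a => f a i) : Primrec f :=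
  (Primrec.vector_get'.comp (Primrec.vector_ofFn fun i => h i)).of_eq fun a => by
    funext i; simp

theorem computable_pi {f : α → Fin n → σ} (h : ∀ i, Computable fun a => f a i) : Computable f :=
  (Primrec.vector_get'.to_comp.comp (Computable.vector_ofFn fun i => h i)).of_eq fun a => by
    funext i; simp

theorem primrec_app {f : α → Fin n → σ} (h : Primrec f) (i : Fin n) : Primrec fun a => f a i :=
  Primrec.fin_app.comp h (Primrec.const i)

theorem primrec_vecAdd : Primrec₂ fun g g' : Fin n → ℤ => g + g' :=
  primrec_pi fun i => primrec_intAdd.comp (primrec_app Primrec.fst i) (primrec_app Primrec.snd i)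

theorem primrec_vecSub : Primrec₂ fun g g' : Fin n → ℤ => g - g' :=
  primrec_pi fun i => primrec_intSub.comp (primrec_app Primrec.fst i) (primrec_app Primrec.snd i)

theorem primrec_clp : Primrec₂ fun (j : ℕ) (g : Fin n → ℤ) => clp j g :=
  primrec_pi fun i => primrec_clamp.comp Primrec.fst (primrec_app Primrec.snd i)

theorem primrec_res3v : Primrec fun (g : Fin n → ℤ) => fun i => res3 (g i) :=
  primrec_pi fun i => primrec_res3.comp (primrec_app Primrec.id i)

theorem primrec_sup {f : Fin n → α → ℕ} (h : ∀ i, Primrec (f i)) :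
    Primrec fun a => Finset.univ.sup fun i => f i a := by
  induction n with
  | zero => exact (Primrec.const 0).of_eq fun a => by simp
  | succ n ih =>
    have := Primrec.nat_max.comp (h 0) (ih fun i => h i.succ)
    refine this.of_eq fun a => ?_
    apply le_antisymm
    · apply max_le
      · exact Finset.le_sup (f := fun i => f i a) (Finset.mem_univ 0)
      · apply Finset.sup_le
        intro i _
        exact Finset.le_sup (f := fun i => f i a) (Finset.mem_univ i.succ)
    · apply Finset.sup_le
      intro i _
      refine Fin.cases ?_ (fun i => ?_) i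
      · exact le_max_left _ _
      · exact le_trans (Finset.le_sup (f := fun i : Fin n => f i.succ a) (Finset.mem_univ i))
          (le_max_right _ _)

theorem primrec_nrm : Primrec fun g : Fin n → ℤ => nrm g :=
  primrec_sup fun i => primrec_natAbs.comp (primrec_app Primrec.id i)

/-- Unbounded search. -/
theorem computable_find {P : α → β → Bool} (hP : Computable₂ P) (h : ∀ a, ∃ b, P a b = true) :
    ∃ F : α → β, Computable F ∧ ∀ a, P a (F a) = true := by
  let f : α → ℕ → Option β := fun a m => (decode m : Option β).bind fun b =>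
    bif P a b then some b else none
  have hf : Computable₂ f := by
    refine Computable.option_bind (Computable.decode.comp Computable.snd) ?_
    exact Computable.cond (hP.comp (Computable.fst.comp Computable.fst) Computable.snd)
      (Computable.option_some.comp Computable.snd) (Computable.const none)
  have hspec : ∀ a b m, b ∈ f a m → P a b = true := by
    intro a b m hb
    simp only [f, Option.mem_def, Option.bind_eq_some_iff] at hb
    obtain ⟨b', _, h2⟩ := hb
    cases hc : P a b' with
    | false => rw [hc] at h2; exact absurd h2 (by simp)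
    | true =>
      rw [hc] at h2
      have : b' = b := by simpa using h2
      rw [← this, hc]
  have hdom : ∀ a, (Nat.rfindOpt (f a)).Dom := by
    intro a
    rw [Nat.rfindOpt_dom]
    obtain ⟨b, hb⟩ := h a
    refine ⟨encode b, b, ?_⟩
    simp [f, hb]
  refine ⟨fun a => (Nat.rfindOpt (f a)).get (hdom a), ?_, fun a => ?_⟩
  · exact (Partrec.rfindOpt hf).of_eq_tot fun a => Part.get_mem _
  · obtain ⟨m, hm⟩ := Nat.rfindOpt_spec (Part.get_mem (hdom a))
    exact hspec _ _ _ hm

end Pool.Agent.H51
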