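import Mathlib
import Pool.Agent.Lib.H51.Borel
import Pool.Agent.Lib.H51.IntPrim

set_option autoImplicit false

/-!
# Computable labellings give computable solutions of the quadrant system
-/

namespace Pool.Agent.H51

open Encodable Denumerable

section phi

variable {n k : ℕ} {α : Type} (m3 : α → Fin n → ZMod 3) (e : Win n α ≃ Fin k)

/-- The correction as a function on a finite type. -/
def DEL (p : (Fin k × Fin k) × (Fin n → Fin 3)) : Fin n → ℤ := fun j =>
  lft (m3 (e.symm p.1.2 (v0 n)) j - m3 (e.symm p.1.1 (v0 n)) j - (((p.2 j : ℕ) : ℤ) : ZMod 3))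

variable {m3} {e} {lab : (Fin n → ℤ) → Fin k}

theorem del_eq (g g' : Fin n → ℤ) :
    del m3 (fun g => e.symm (lab g)) g g' =
      DEL m3 e ((lab g, lab g'), fun j => res3 ((g' - g) j)) := by
  funext j
  simp only [del, DEL]
  rw [res3_cast]
  rfl

theorem computable_disp (hlab : Computable lab) :
    Computable₂ fun g g' => disp m3 (fun g => e.symm (lab g)) g g' := by
  have h1 : Computable₂ fun g g' : Fin n → ℤ => g' - g :=
    (primrec_vecSub.comp Primrec.snd Primrec.fst).to_comp
  have h2 : Computable fun p : (Fin n → ℤ) × (Fin n → ℤ) =>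
      DEL m3 e ((lab p.1, lab p.2), fun j => res3 ((p.2 - p.1) j)) := by
    apply (Primrec.dom_finite (DEL m3 e)).to_comp.comp
    exact Computable.pair (Computable.pair (hlab.comp Computable.fst) (hlab.comp Computable.snd))
      (primrec_res3v.to_comp.comp h1)
  have h3 := primrec_vecAdd.to_comp.comp h1 h2
  refine h3.of_eq ?_
  rintro ⟨g, g'⟩
  simp only [disp]
  rw [del_eq]

theorem computable_phi (hlab : Computable lab) :
    Computable fun g => phi m3 (fun g => e.symm (lab g)) g := by
  have h1 : Computable₂ fun (g : Fin n → ℤ) (q : ℕ × (Fin n → ℤ)) =>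
      q.2 + disp m3 (fun g => e.symm (lab g)) (clp q.1 g) (clp (q.1 + 1) g) := by
    apply primrec_vecAdd.to_comp.comp (Computable.snd.comp Computable.snd)
    apply (computable_disp hlab).comp
    · exact primrec_clp.to_comp.comp (Computable.fst.comp Computable.snd) Computable.fst
    · exact primrec_clp.to_comp.comp (Computable.succ.comp (Computable.fst.comp Computable.snd))
        Computable.fst
  have h2 := Computable.nat_rec (f := fun g : Fin n → ℤ => nrm g) (g := fun _ => (0 : Fin n → ℤ))
    primrec_nrm.to_comp (Computable.const 0) h1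
  refine h2.of_eq fun g => ?_
  unfold phi
  generalize nrm g = N
  induction N with
  | zero => simp
  | succ N ih => rw [Finset.sum_range_succ, ← ih]

end phi

/-- Boolean version of `Xs`. -/
def Xb (z d : ℤ → Bool) (k : ℕ) (x : ℤ) : Bool :=
  Nat.rec true (fun k IH => IH && Nat.casesOn k (z x) (fun k' => !d (x - 2 ^ k'))) k

theorem Xb_iff (z d : ℤ → Bool) (k : ℕ) (x : ℤ) : Xb z d k x = true ↔ Xs z d k x := by
  induction k with
  | zero => simp [Xb, Xs]
  | succ k ih =>
    have e : Xb z d (k + 1) x = (Xb z d k x && Nat.casesOn k (z x) (fun k' => !d (x - 2 ^ k'))) :=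
      rfl
    rw [e, Bool.and_eq_true, ih]
    cases k with
    | zero => simp [Xs]
    | succ k => simp [Xs]

theorem computable_Xb {z d : ℤ → Bool} (hz : Computable z) (hd : Computable d) :
    Computable₂ (Xb z d) := by
  have h1 : Computable fun p : (ℕ × ℤ) × (ℕ × Bool) =>
      (Nat.casesOn p.2.1 (z p.1.2) (fun k' => !d (p.1.2 - 2 ^ k')) : Bool) := by
    apply Computable.nat_casesOn
    · exact Computable.fst.comp Computable.snd
    · exact hz.comp (Computable.snd.comp Computable.fst)
    · apply Primrec.not.to_comp.comp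
      apply hd.comp
      apply primrec_intSub.to_comp.comp
      · exact Computable.snd.comp (Computable.fst.comp Computable.fst)
      · exact primrec_pow2.to_comp.comp Computable.snd
  have h2 : Computable₂ fun (p : ℕ × ℤ) (q : ℕ × Bool) =>
      (q.2 && (Nat.casesOn q.1 (z p.2) (fun k' => !d (p.2 - 2 ^ k')) : Bool)) :=
    Primrec.and.to_comp.comp (Computable.snd.comp Computable.snd) h1
  exact Computable.nat_rec (f := fun p : ℕ × ℤ => p.1) (g := fun _ => true) Computable.fst
    (Computable.const true) h2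

theorem primrec_pt {M : ℕ} (i : Fin M) : Primrec fun a : ℤ => pt i a 0 := by
  apply primrec_pi
  intro j
  by_cases h0 : j = 0
  · subst h0
    exact (Primrec.const 0).of_eq fun a => (pt_zero i a 0).symm
  · by_cases h1 : j = i.succ
    · subst h1
      exact Primrec.id.of_eq fun a => (pt_succ i a 0).symm
    · refine (Primrec.const 0).of_eq fun a => ?_
      simp [pt, h0, h1]

theorem no_computable {M : ℕ} {S : Sys (Fin M)} {β : S.Γ → Bool} {i0 : Fin M}
    (hno : ∀ F, S.Sol F → ¬ Computable (fun n => β (F (fun i => if i = i0 then n else 0))))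
    {F0 : (Fin M → ℕ) → S.Γ} (hF0 : S.Sol F0) {k : ℕ} (e : Win (M + 1) (Lab M S.Γ) ≃ Fin k)
    (lab : (Fin (M + 1) → ℤ) → Fin k) (hlab : Computable lab)
    (hall : Allowed (labI F0) (fun g => e.symm (lab g))) : False := by
  have hm : ∀ (h : Fin (M + 1) → ℤ) j, (labI F0 h).m3 j = (h j : ZMod 3) := fun h j => rfl
  set lam : (Fin (M + 1) → ℤ) → Win (M + 1) (Lab M S.Γ) := fun g => e.symm (lab g) with hlam
  obtain ⟨m, ⟨ve⟩⟩ := Finite.exists_equiv_fin {v : Fin (M + 1) → ℤ // nrm v ≤ 1}
  -- search for a preimage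
  have hphi : Computable fun g => phi Lab.m3 lam g := computable_phi hlab
  have hP : Computable₂ fun (h : Fin (M + 1) → ℤ) (p : (Fin (M + 1) → ℤ) × Fin m) =>
      decide (phi Lab.m3 lam p.1 + (ve.symm p.2).1 = h) := by
    have h1 : Computable fun q : (Fin (M + 1) → ℤ) × ((Fin (M + 1) → ℤ) × Fin m) =>
        phi Lab.m3 lam q.2.1 + (ve.symm q.2.2).1 := by
      apply primrec_vecAdd.to_comp.comp
      · exact hphi.comp (Computable.fst.comp Computable.snd)
      · exact (Primrec.dom_finite (fun j : Fin m => (ve.symm j).1)).to_comp.comp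
          (Computable.snd.comp Computable.snd)
    exact (Primrec.eq (α := Fin (M + 1) → ℤ)).decide.to_comp.comp h1 Computable.fst
  obtain ⟨gv, hgv, hgv2⟩ := computable_find hP (by
    intro h
    obtain ⟨g, hg⟩ := phi_surj hm hall h
    refine ⟨(g, ve ⟨h - phi Lab.m3 lam g, by rwa [nrm_sub_comm]⟩), ?_⟩
    simp)
  have hgv3 : ∀ h, phi Lab.m3 lam (gv h).1 + (ve.symm (gv h).2).1 = h := fun h => by
    have := hgv2 h
    simpa using this
  let gv' : (Fin (M + 1) → ℤ) → (Fin (M + 1) → ℤ) × {v : Fin (M + 1) → ℤ // nrm v ≤ 2} :=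
    fun h => ((gv h).1, ⟨(ve.symm (gv h).2).1, (ve.symm (gv h).2).2.trans (by norm_num)⟩)
  have hloc := flex_local hm hall gv' hgv3 (fun h => (ve.symm (gv h).2).2)
  set y : (Fin (M + 1) → ℤ) → Lab M S.Γ := fun h => lam (gv' h).1 (gv' h).2 with hy
  have hR : Rules S y := (rules_labI hF0).local hloc
  -- computability of `y`
  have hcomp : ∀ {τ : Type} [Primcodable τ] (Ψ : Lab M S.Γ → τ), Computable fun h => Ψ (y h) := by
    intro τ _ Ψ
    have h1 : Computable fun h => (lab (gv h).1, (gv h).2) :=
      Computable.pair (hlab.comp (Computable.fst.comp hgv)) (Computable.snd.comp hgv)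
    exact (Primrec.dom_finite (fun p : Fin k × Fin m =>
      Ψ (e.symm p.1 ⟨(ve.symm p.2).1, (ve.symm p.2).2.trans (by norm_num)⟩))).to_comp.comp h1
  have hz : ∀ i, Computable (zxf y i) := fun i =>
    (hcomp (fun l => l.zx i)).comp (primrec_pt i).to_comp
  have hd : ∀ i, Computable (dxf y i) := fun i =>
    (hcomp (fun l => l.dx i)).comp (primrec_pt i).to_comp
  have hE : ∀ i, ∃ ξ : ℕ → ℤ, Computable ξ ∧ ∀ k, Es (zxf y i) (dxf y i) k (ξ k) := by
    intro i
    have hX := computable_Xb (hz i) (hd i)
    have hP : Computable₂ fun (k : ℕ) (x : ℤ) =>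
        (Xb (zxf y i) (dxf y i) k x && !Xb (zxf y i) (dxf y i) (k + 1) x) := by
      apply Primrec.and.to_comp.comp
      · exact hX
      · exact Primrec.not.to_comp.comp (hX.comp (Computable.succ.comp Computable.fst)
          Computable.snd)
    have hspec : ∀ k x, (Xb (zxf y i) (dxf y i) k x && !Xb (zxf y i) (dxf y i) (k + 1) x) = true ↔
        Es (zxf y i) (dxf y i) k x := by
      intro k x
      rw [Bool.and_eq_true, Xb_iff, Es, Bool.not_eq_true', ← Bool.not_eq_true, Xb_iff]
    obtain ⟨ξ, h1, h2⟩ := computable_find hP (by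
      intro k
      obtain ⟨x, hx⟩ := hR.exists_Es i k
      exact ⟨x, (hspec k x).2 hx⟩)
    exact ⟨ξ, h1, fun k => (hspec k _).1 (h2 k)⟩
  choose ξ hξc hξ using hE
  have hsol := hR.sol ξ hξ
  apply hno _ hsol
  have hpt : Computable fun n : ℕ =>
      (Fin.cons 0 (fun i => ξ i (if i = i0 then n else 0)) : Fin (M + 1) → ℤ) := by
    apply computable_pi
    intro j
    refine Fin.cases ?_ (fun i => ?_) j
    · exact (Computable.const 0).of_eq fun n => by simp
    · by_cases hi : i = i0
      · exact (hξc i).of_eq fun n => by simp [hi]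
      · exact (Computable.const (ξ i 0)).of_eq fun n => by simp [hi]
  exact (hcomp (fun l => β l.G)).comp hpt

/-! ### The computable action -/

/-- Codes of integer vectors. -/
def encZ {n : ℕ} (g : Fin n → ℤ) : ℕ := @Encodable.encode (Fin n → ℤ) Primcodable.toEncodable g

/-- Decoding. -/
def decZ {n : ℕ} (m : ℕ) : Option (Fin n → ℤ) :=
  @Encodable.decode (Fin n → ℤ) Primcodable.toEncodable m

theorem computable_encZ {n : ℕ} : Computable (encZ : (Fin n → ℤ) → ℕ) := Computable.encode

theorem computable_decZ {n : ℕ} : Computable (decZ : ℕ → Option (Fin n → ℤ)) := Computable.decode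

theorem decZ_encZ {n : ℕ} (g : Fin n → ℤ) : decZ (encZ g) = some g :=
  @Encodable.encodek (Fin n → ℤ) Primcodable.toEncodable g

theorem encZ_injective {n : ℕ} : Function.Injective (encZ : (Fin n → ℤ) → ℕ) := by
  intro g g' h
  have := decZ_encZ g
  rw [h, decZ_encZ] at this
  exact (Option.some.inj this).symm

theorem computablePred_encZ {n : ℕ} :
    ComputablePred fun m => m ∈ Set.range (encZ : (Fin n → ℤ) → ℕ) := by
  obtain ⟨d, hd⟩ := Primcodable.mem_range_encode (α := Fin n → ℤ)
  exact ⟨d, hd.to_comp⟩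

/-- The translation action on codes. -/
def actZ {n : ℕ} (γ : Fin n → ℤ) (m : ℕ) : ℕ :=
  Option.casesOn (decZ m : Option (Fin n → ℤ)) m (fun g => encZ (γ + g))

theorem actZ_encZ {n : ℕ} (γ g : Fin n → ℤ) : actZ γ (encZ g) = encZ (γ + g) := by
  simp only [actZ, decZ_encZ]

theorem computable_actZ {n : ℕ} (γ : Fin n → ℤ) : Computable (actZ γ) := by
  apply Computable.option_casesOn
  · exact computable_decZ
  · exact Computable.id
  · apply computable_encZ.comp
    exact primrec_vecAdd.to_comp.comp (Computable.const γ) Computable.snd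

end Pool.Agent.H51
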